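import Pool.Agent.Lib_MP_8c8a5b_lc.Load

set_option autoImplicit false
set_option linter.constructorNameAsVariable false

/-!
The basic blocks on own stacks (convenience forms).
-/

namespace Pool.Agent.Borwein

open Turing Pool.Agent.PartSep.TM Pool.Agent.PartSep.TM.Prog

section

variable {K' : Type} {Γ' : K' → Type} {Λ' σ' : Type} [DecidableEq K']
  (T : ∀ k, List (Γ' k)) (w : Own → List (Sym Γ' Λ' σ'))

/-- programs over own stacks and the stacks of the small machine -/
abbrev OPr (K' : Type) (Γ' : K' → Type) (Λ' σ' : Type) : Type := Prog (K' ⊕ Own) (Sym Γ' Λ' σ')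

/-- move (reversing) -/
def oRev (k s : Own) : OPr K' Γ' Λ' σ' :=
  .loop (Sum.inr k) (fun a => .push (Sum.inr s) a)

omit [DecidableEq K'] in
theorem inr_ne {a b : Own} (h : a ≠ b) : (Sum.inr a : K' ⊕ Own) ≠ Sum.inr b := by
  simpa using h

theorem oRev_runs (k s : Own) (h : k ≠ s) :
    Runs (oRev k s) (Sta T w)
      (Sta T (Function.update (Function.update w k []) s ((w k).reverse ++ w s)))
      (3 * (w k).length + 2) := by
  have := runs_rev (Sum.inr k) (Sum.inr s) (inr_ne h) (w k) (Sta T w) rfl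
  simp only [Sta_update_inr, Sta_inr] at this
  exact this

/-- clear -/
def oClear (k : Own) : OPr K' Γ' Λ' σ' := .loop (Sum.inr k) (fun _ => .skip)

theorem oClear_runs (k : Own) :
    Runs (oClear k) (Sta T w) (Sta T (Function.update w k [])) (2 * (w k).length + 2) := by
  have := runs_clear1 (Sum.inr k) (w k) (Sta T w) rfl
  simp only [Sta_update_inr] at this
  exact this

/-- push -/
def oPush (k : Own) (a : Sym Γ' Λ' σ') : OPr K' Γ' Λ' σ' := .push (Sum.inr k) a

theorem oPush_runs (k : Own) (a : Sym Γ' Λ' σ') :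
    Runs (oPush k a) (Sta T w) (Sta T (Function.update w k (a :: w k))) 1 := by
  have := Runs.push (Sum.inr k) a (Sta T w)
  simp only [Sta_update_inr, Sta_inr] at this
  exact this

/-- copy -/
def oCopy (k k' s : Own) : OPr K' Γ' Λ' σ' := copy (Sum.inr k) (Sum.inr k') (Sum.inr s)

theorem oCopy_runs (k k' s : Own) (hs : w s = []) (h1 : s ≠ k)
    (h2 : s ≠ k') (h3 : k ≠ k') :
    Runs (oCopy k k' s) (Sta T w) (Sta T (Function.update w k' (w k ++ w k')))
      (7 * (w k).length + 4) := by
  have := runs_copy (Sum.inr k) (Sum.inr k') (Sum.inr s) (inr_ne h1) (inr_ne h2) (inr_ne h3)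
    (Sta T w) hs
  simp only [Sta_update_inr, Sta_inr] at this
  exact this

/-- take as many symbols from `k` as there are on `c`, pushing them on `s`; `t` is scratch -/
def oTake (c k t s : Own) : OPr K' Γ' Λ' σ' :=
  takeP (Sum.inr c) (Sum.inr k) (Sum.inr t) (Sum.inr s)

theorem oTake_runs (c k t s : Own) (ht : w t = []) (h1 : c ≠ k)
    (h2 : c ≠ t) (h3 : c ≠ s) (h4 : k ≠ t)
    (h5 : k ≠ s) (h6 : t ≠ s) :
    Runs (oTake c k t s) (Sta T w)
      (Sta T (Function.update (Function.update w k ((w k).drop (w c).length)) s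
        (((w k).take (w c).length).reverse ++ w s))) (8 * (w c).length + 4) := by
  have := takeP_runs (Sum.inr c) (Sum.inr k) (Sum.inr t) (Sum.inr s) (inr_ne h1) (inr_ne h2)
    (inr_ne h3) (inr_ne h4) (inr_ne h5) (inr_ne h6) (Sta T w) ht
  simp only [Sta_update_inr, Sta_inr] at this
  exact this

/-- shift as many symbols as there are on `c` from `k` to `s`, padding with `z` -/
def oShift (z : Sym Γ' Λ' σ') (c k t s : Own) : OPr K' Γ' Λ' σ' :=
  shiftP z (Sum.inr c) (Sum.inr k) (Sum.inr t) (Sum.inr s)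

theorem oShift_runs (z : Sym Γ' Λ' σ') (c k t s : Own) (ht : w t = []) (h1 : c ≠ k)
    (h2 : c ≠ t) (h3 : c ≠ s) (h4 : k ≠ t)
    (h5 : k ≠ s) (h6 : t ≠ s) :
    Runs (oShift z c k t s) (Sta T w)
      (Sta T (Function.update (Function.update w k ((w k).drop (w c).length)) s
        (((w k).take (w c).length ++
          List.replicate ((w c).length - (w k).length) z).reverse ++ w s)))
      (8 * (w c).length + 4) := by
  have := shiftP_runs z (Sum.inr c) (Sum.inr k) (Sum.inr t) (Sum.inr s) (inr_ne h1) (inr_ne h2)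
    (inr_ne h3) (inr_ne h4) (inr_ne h5) (inr_ne h6) (Sta T w) ht
  simp only [Sta_update_inr, Sta_inr] at this
  exact this

/-- halve a unary counter -/
def oHalve (k t : Own) : OPr K' Γ' Λ' σ' := halveP (Sum.inr k) (Sum.inr t)

theorem oHalve_runs (k t : Own) (n : ℕ) (hk : w k = List.replicate n uu) (ht : w t = [])
    (h : k ≠ t) :
    Runs (oHalve k t) (Sta T w) (Sta T (Function.update w k (List.replicate (n / 2) uu)))
      (6 * n + 4) := by
  have := halveP_runs (Sum.inr k) (Sum.inr t) (inr_ne h) uu n (Sta T w) hk ht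
  simp only [Sta_update_inr, Sta_inr] at this
  exact this

/-- strip leading zeros: `k` (most significant on top) to `s`, keeping a copy on `s'` -/
def oStrip2 (k s s' : Own) : OPr K' Γ' Λ' σ' :=
  .loop (Sum.inr k) (fun b => .seq (.push (Sum.inr s') b) (stripBody (Sum.inr s) b))

theorem oStrip2_runs (k s s' : Own) (l : List Bool) (hk : w k = l.reverse.map bt)
    (hs : w s = []) (h1 : k ≠ s) (h2 : k ≠ s')
    (h3 : s ≠ s') :
    Runs (oStrip2 k s s') (Sta T w)
      (Sta T (Function.update (Function.update (Function.update w k []) s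
        ((Nat.bits (val l)).map bt)) s' (l.map bt ++ w s'))) (6 * l.length + 2) := by
  have := strip2_runs (Sum.inr k) (Sum.inr s) (Sum.inr s') (inr_ne h1) (inr_ne h2) (inr_ne h3)
    l.reverse [] (Sta T w) hk (by simpa using hs)
  rw [foldl_spush, List.reverse_reverse, List.length_reverse] at this
  simp only [Sta_update_inr, Sta_inr] at this
  exact this

/-- strip leading zeros: `k` (most significant on top) to `s` -/
def oStrip (k s : Own) : OPr K' Γ' Λ' σ' := .loop (Sum.inr k) (stripBody (Sum.inr s))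

theorem oStrip_runs (k s : Own) (l : List Bool) (hk : w k = l.reverse.map bt)
    (hs : w s = []) (h1 : k ≠ s) :
    Runs (oStrip k s) (Sta T w)
      (Sta T (Function.update (Function.update w k []) s ((Nat.bits (val l)).map bt)))
      (5 * l.length + 2) := by
  have := strip_runs (Sum.inr k) (Sum.inr s) (inr_ne h1) l.reverse [] (Sta T w) hk
    (by simpa using hs)
  rw [foldl_spush, List.length_reverse] at this
  simp only [Sta_update_inr, Sta_inr] at this
  exact this

/-- addition: `d := d + s`, `s` is emptied -/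
def oAdd (d s cy t : Own) : OPr K' Γ' Λ' σ' :=
  addP (Sum.inr d) (Sum.inr s) (Sum.inr cy) (Sum.inr t)

theorem oAdd_runs (d s cy t : Own) (a b : List Bool) (hs : w s = b.map bt) (hd : w d = a.map bt)
    (hc : w cy = []) (ht : w t = []) (h1 : d ≠ cy) (h2 : d ≠ t)
    (h3 : cy ≠ t) (h4 : s ≠ d) (h5 : s ≠ cy)
    (h6 : s ≠ t) :
    Runs (oAdd d s cy t) (Sta T w)
      (Sta T (Function.update (Function.update w s []) d ((addc a b false).map bt)))
      (12 * (a.length + b.length) + 12) := by
  have := addP_runs (Sum.inr d) (Sum.inr s) (Sum.inr cy) (Sum.inr t) (inr_ne h1) (inr_ne h2)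
    (inr_ne h3) (inr_ne h4) (inr_ne h5) (inr_ne h6) a b (Sta T w) hs hd hc ht
  simp only [Sta_update_inr, Sta_inr] at this
  exact this

/-- case on an own stack -/
theorem oCase_nil (k : Own) (c : Option (Sym Γ' Λ' σ') → OPr K' Γ' Λ' σ')
    {S : K' ⊕ Own → List (Sym Γ' Λ' σ')} {n : ℕ} (hk : w k = [])
    (h : Runs (c none) (Sta T w) S n) :
    Runs (.case (Sum.inr k) c) (Sta T w) S (n + 1) :=
  Runs.case_nil hk h

theorem oCase_cons (k : Own) (c : Option (Sym Γ' Λ' σ') → OPr K' Γ' Λ' σ')
    {S : K' ⊕ Own → List (Sym Γ' Λ' σ')} {n : ℕ} {a : Sym Γ' Λ' σ'} {l : List (Sym Γ' Λ' σ')}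
    (hk : w k = a :: l) (h : Runs (c (some a)) (Sta T (Function.update w k l)) S n) :
    Runs (.case (Sum.inr k) c) (Sta T w) S (n + 1) :=
  Runs.case_cons (S := Sta T w) (k := Sum.inr k) hk (by rw [Sta_update_inr]; exact h)

theorem oLoop_nil (k : Own) (c : Sym Γ' Λ' σ' → OPr K' Γ' Λ' σ') (hk : w k = []) :
    Runs (.loop (Sum.inr k) c) (Sta T w) (Sta T w) 2 :=
  Runs.loop_nil hk

theorem oLoop_cons (k : Own) (c : Sym Γ' Λ' σ' → OPr K' Γ' Λ' σ')
    {S S' : K' ⊕ Own → List (Sym Γ' Λ' σ')} {n n' : ℕ} {a : Sym Γ' Λ' σ'}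
    {l : List (Sym Γ' Λ' σ')} (hk : w k = a :: l)
    (h : Runs (c a) (Sta T (Function.update w k l)) S n)
    (h' : Runs (.loop (Sum.inr k) c) S S' n') :
    Runs (.loop (Sum.inr k) c) (Sta T w) S' (n + n' + 2) :=
  Runs.loop_cons (S := Sta T w) (k := Sum.inr k) hk (by rw [Sta_update_inr]; exact h) h'

end

end Pool.Agent.Borwein
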