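import Pool.Agent.Lib_MP_8c8a5b_lc.Pos
import Pool.Agent.Lib_MP_8c8a5b_lc.OwnBlocks

set_option autoImplicit false
set_option linter.constructorNameAsVariable false

/-!
One attempt to multiply a block of `x` by a block of `y`.
-/

namespace Pool.Agent.Borwein

open Turing Pool.Agent.PartSep.TM Pool.Agent.PartSep.TM.Prog

attribute [local instance] FinTM2.kFin

variable (tm : FinTM2) (ein : tm.Γ tm.k₀ ≃ Option Bool) (eout : tm.Γ tm.k₁ ≃ Bool)

/-- the next position -/
def nxt (b j : ℕ) : ℕ × ℕ := if j = 0 then (b + 1, b + 1) else (b, j - 1)

/-- update of the position -/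
def posUpd (w : Own → List (Sy tm)) (l b j : ℕ) : Own → List (Sy tm) :=
  Function.update (Function.update (Function.update w .s (List.replicate (sz l b j) uu)) .b
    (List.replicate b uu)) .j (List.replicate j uu)

/-- go to the next position -/
def advP : Pr tm :=
  .case (Sum.inr .j) (fun o => match o with
    | some _ => oHalve .s .t1
    | none => .seq (oPush .b uu) (.seq (oCopy .b .j .t1) (.seq (oClear .s) (oCopy .l .s .t1))))

theorem sz_le (l b j : ℕ) : sz l b j ≤ l := Nat.div_le_self _ _

theorem sz_pred (l b j : ℕ) (h : j < b) : sz l b j = sz l b (j + 1) / 2 := by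
  rw [sz, sz, Nat.div_div_eq_div_mul, ← pow_succ]
  congr 2
  omega

theorem sz_self (l b : ℕ) : sz l b b = l := by simp [sz]

theorem advP_runs (l b j : ℕ) (hj : j ≤ b) (T : ∀ k, List (tm.Γ k)) (w : Own → List (Sy tm))
    (hl : w .l = List.replicate l uu) (hs : w .s = List.replicate (sz l b j) uu)
    (hb : w .b = List.replicate b uu) (hjj : w .j = List.replicate j uu) (h1 : w .t1 = []) :
    Runs (advP tm) (Sta T w) (Sta T (posUpd tm w l (nxt b j).1 (nxt b j).2))
      (30 * (1 + l + b)) := by
  have hsz := sz_le l b j
  cases j with
  | zero =>
    have g1 := oPush_runs T w .b uu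
    have g2 := oCopy_runs T (Function.update w .b (uu :: w .b)) .b .j .t1
      (by rw [Function.update_of_ne (by decide), h1]) (by decide) (by decide) (by decide)
    have g3 := oClear_runs T (Function.update (Function.update w .b (uu :: w .b)) .j
      (Function.update w .b (uu :: w .b) .b ++ Function.update w .b (uu :: w .b) .j)) .s
    have g4 := oCopy_runs T (Function.update (Function.update (Function.update w .b (uu :: w .b))
      .j (Function.update w .b (uu :: w .b) .b ++ Function.update w .b (uu :: w .b) .j)) .s [])
      .l .s .t1 (by
        rw [Function.update_of_ne (by decide), Function.update_of_ne (by decide),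
          Function.update_of_ne (by decide), h1]) (by decide) (by decide) (by decide)
    have e1 : (Function.update (Function.update (Function.update w .b (uu :: w .b))
      .j (Function.update w .b (uu :: w .b) .b ++ Function.update w .b (uu :: w .b) .j)) .s []) .l
        = List.replicate l uu := by
      rw [Function.update_of_ne (by decide), Function.update_of_ne (by decide),
          Function.update_of_ne (by decide), hl]
    have e2 : (Function.update (Function.update w .b (uu :: w .b)) .j
      (Function.update w .b (uu :: w .b) .b ++ Function.update w .b (uu :: w .b) .j)) .s =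
        List.replicate (sz l b 0) uu := by
      rw [Function.update_of_ne (by decide), Function.update_of_ne (by decide), hs]
    have e3 : (Function.update w .b (uu :: w .b)) .b = List.replicate (b + 1) uu := by
      rw [Function.update_self, hb]; rfl
    rw [e1] at g4
    rw [e2] at g3
    rw [e3] at g2 g3 g4
    refine ((oCase_nil T w .j _ (by simpa using hjj) (g1.seq (g2.seq (g3.seq g4)))).mono ?_).congr
      ?_
    · simp only [List.length_replicate]
      omega
    · congr 1
      have e : nxt b 0 = (b + 1, b + 1) := rfl
      rw [e]
      funext i
      simp only [Function.update_apply, posUpd, sz_self]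
      split_ifs <;> simp_all [List.replicate_succ]
  | succ j =>
    have g1 := oHalve_runs T (Function.update w .j (List.replicate j uu)) .s .t1 (sz l b (j + 1))
      (by rw [Function.update_of_ne (by decide), hs])
      (by rw [Function.update_of_ne (by decide), h1]) (by decide)
    refine ((oCase_cons T w .j _ (a := uu) (l := List.replicate j uu)
      (by rw [hjj]; rfl) g1).mono (by omega)).congr ?_
    congr 1
    have e : nxt b (j + 1) = (b, j) := rfl
    rw [e]
    funext i
    simp only [Function.update_apply, posUpd, sz_pred l b j (by omega)]
    split_ifs <;> simp_all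

/-- after a failed attempt -/
noncomputable def failP : Pr tm :=
  .seq (clearM tm.K) (.seq (oRev .t3 .t2) (.seq (oRev .t2 .yc) (advP tm)))

theorem failP_runs (l b j : ℕ) (hj : j ≤ b) (T : ∀ k, List (tm.Γ k)) (w : Own → List (Sy tm))
    (hl : w .l = List.replicate l uu) (hs : w .s = List.replicate (sz l b j) uu)
    (hb : w .b = List.replicate b uu) (hjj : w .j = List.replicate j uu) (h1 : w .t1 = [])
    (h2 : w .t2 = []) :
    Runs (failP tm) (Sta T w) (Sta (fun _ => []) (posUpd tm (Function.update (Function.update w
      .t3 []) .yc (w .t3 ++ w .yc)) l (nxt b j).1 (nxt b j).2))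
      (2 * ∑ k, (T k).length + 2 * Fintype.card tm.K + 6 * (w .t3).length + 4 +
        30 * (1 + l + b)) := by
  have g1 := clearM_runs (Λ' := tm.Λ) (σ' := tm.σ) T w
  have g2 := oRev_runs (fun _ => [] : ∀ k, List (tm.Γ k)) w .t3 .t2 (by decide)
  have g3 := oRev_runs (fun _ => [] : ∀ k, List (tm.Γ k)) (Function.update (Function.update w
    .t3 []) .t2 ((w .t3).reverse ++ w .t2)) .t2 .yc (by decide)
  have e3 : (Function.update (Function.update w .t3 []) .t2 ((w .t3).reverse ++ w .t2)) .t2 =
      (w .t3).reverse := by rw [Function.update_self, h2, List.append_nil]
  rw [e3, List.reverse_reverse, List.length_reverse] at g3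
  have e4 : Function.update (Function.update (Function.update (Function.update w
    .t3 []) .t2 ((w .t3).reverse ++ w .t2)) .t2 []) .yc (w .t3 ++ (Function.update
    (Function.update w .t3 []) .t2 ((w .t3).reverse ++ w .t2)) .yc) =
    Function.update (Function.update w .t3 []) .yc (w .t3 ++ w .yc) := by
    funext i
    simp only [Function.update_apply]
    split_ifs <;> simp_all
  rw [e4] at g3
  have g4 := advP_runs tm l b j hj (fun _ => []) (Function.update (Function.update w
      .t3 []) .yc (w .t3 ++ w .yc))
      (by rw [Function.update_of_ne (by decide), Function.update_of_ne (by decide), hl])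
      (by rw [Function.update_of_ne (by decide), Function.update_of_ne (by decide), hs])
      (by rw [Function.update_of_ne (by decide), Function.update_of_ne (by decide), hb])
      (by rw [Function.update_of_ne (by decide), Function.update_of_ne (by decide), hjj])
      (by rw [Function.update_of_ne (by decide), Function.update_of_ne (by decide), h1])
  exact (g1.seq (g2.seq (g3.seq g4))).mono (by omega)

/-- convert an output symbol of the small machine -/
def convOut (a : Sy tm) : Sy tm := match ungs tm.k₁ a with
  | some g => bt (eout g)
  | none => bt false

theorem outLoop_runs (l : List Bool) : ∀ (w : Own → List (Sy tm)),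
    Runs (.loop (Sum.inl tm.k₁) (fun a => .push (Sum.inr .t1) (convOut tm eout a)) : Pr tm)
      (Sta (Function.update (fun _ => []) tm.k₁ (l.map eout.symm)) w)
      (Sta (fun _ => []) (Function.update w .t1 (l.reverse.map bt ++ w .t1)))
      (3 * l.length + 2) := by
  induction l with
  | nil =>
    intro w
    refine (Runs.loop_nil (by simp)).congr ?_
    have e0 : (fun _ => [] : ∀ k, List (tm.Γ k)) = Function.update (fun _ => []) tm.k₁ [] := by
      rw [Function.update_eq_self]
    rw [List.map_nil, ← e0]
    simp
  | cons b l ih =>
    intro w
    have g1 := Runs.push (Sum.inr .t1) (bt b) (Sta (Function.update (fun _ => []) tm.k₁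
      (l.map eout.symm)) w)
    rw [Sta_update_inr, Sta_inr] at g1
    have g2 := ih (Function.update w .t1 (bt b :: w .t1))
    have e1 : convOut tm eout (gs tm.k₁ (eout.symm b)) = bt b := by
      simp [convOut]
    have e : Function.update (Sta (Function.update (fun _ => []) tm.k₁ ((b :: l).map eout.symm))
        w) (Sum.inl tm.k₁) ((l.map eout.symm).map (gs tm.k₁)) =
        Sta (Function.update (fun _ => []) tm.k₁ (l.map eout.symm)) w := by
      rw [Sta_update_inl, Function.update_idem]
    refine ((Runs.loop_cons (a := gs tm.k₁ (eout.symm b)) (l := (l.map eout.symm).map (gs tm.k₁))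
      (by simp) (by rw [e1, e]; exact g1) g2).mono
      (by simp only [List.length_cons]; omega)).congr ?_
    congr 1
    funext i
    simp only [Function.update_apply]
    split_ifs <;> simp_all

/-- after a successful attempt: accumulate the product -/
def succP : Pr tm :=
  .seq (.case (Sum.inl tm.k₁) (fun _ => .skip)) <|
  .seq (.loop (Sum.inl tm.k₁) (fun a => .push (Sum.inr .t1) (convOut tm eout a))) <|
  .seq (oRev .t1 .t2) <|
  .seq (oAdd .hi .t2 .cy .t1) <|
  .seq (oShift (bt false) .t3 .hi .t1 .lo) (oClear .t3)

/-- the state after a successful attempt -/
def succUpd (w : Own → List (Sy tm)) (hl : List Bool) (v : ℕ) : Own → List (Sy tm) :=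
  Function.update (Function.update (Function.update w .t3 []) .hi
    (((addc hl (Nat.bits v) false).drop (w .t3).length).map bt)) .lo
    (((addc hl (Nat.bits v) false).take (w .t3).length ++
      List.replicate ((w .t3).length - (addc hl (Nat.bits v) false).length) false).reverse.map bt
      ++ w .lo)

theorem succP_runs (x y : ℕ) (w : Own → List (Sy tm)) (hl : List Bool)
    (hhi : w .hi = hl.map bt) (h1 : w .t1 = []) (h2 : w .t2 = []) (hc : w .cy = []) :
    Runs (succP tm eout) (Sta (haltList tm ((encOut ((x : ℤ) * y)).map eout.symm)).stk w)
      (Sta (fun _ => []) (succUpd tm w hl (x * y)))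
      (30 * (1 + (Nat.bits (x * y)).length + hl.length + (w .t3).length)) := by
  have e0 : (haltList tm ((encOut ((x : ℤ) * y)).map eout.symm)).stk = Function.update
      (fun _ => []) tm.k₁ (eout.symm false :: (Nat.bits (x * y)).map eout.symm) := by
    rw [haltList_stk, encOut_nat, List.map_cons]
  rw [e0]
  have g1 : Runs (.case (Sum.inl tm.k₁) (fun _ => .skip) : Pr tm) (Sta (Function.update
      (fun _ => []) tm.k₁ (eout.symm false :: (Nat.bits (x * y)).map eout.symm)) w)
      (Sta (Function.update (fun _ => []) tm.k₁ ((Nat.bits (x * y)).map eout.symm)) w) 1 := by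
    refine (Runs.case_cons (a := gs tm.k₁ (eout.symm false))
      (l := ((Nat.bits (x * y)).map eout.symm).map (gs tm.k₁)) (by simp) (Runs.skip _)).congr ?_
    rw [Sta_update_inl, Function.update_idem]
  have g2 := outLoop_runs tm eout (Nat.bits (x * y)) w
  rw [h1, List.append_nil] at g2
  have g3 := oRev_runs (fun _ => [] : ∀ k, List (tm.Γ k)) (Function.update w .t1
    ((Nat.bits (x * y)).reverse.map bt)) .t1 .t2 (by decide)
  have e3 : Function.update (Function.update (Function.update w .t1
    ((Nat.bits (x * y)).reverse.map bt)) .t1 []) .t2 ((Function.update w .t1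
    ((Nat.bits (x * y)).reverse.map bt) .t1).reverse ++ Function.update w .t1
    ((Nat.bits (x * y)).reverse.map bt) .t2) = Function.update w .t2
      ((Nat.bits (x * y)).map bt) := by
    funext i
    simp only [Function.update_apply]
    split_ifs <;> simp_all
  rw [e3] at g3
  have g4 := oAdd_runs (fun _ => [] : ∀ k, List (tm.Γ k)) (Function.update w .t2
      ((Nat.bits (x * y)).map bt)) .hi .t2 .cy .t1 hl (Nat.bits (x * y))
      (by rw [Function.update_self]) (by rw [Function.update_of_ne (by decide), hhi])
      (by rw [Function.update_of_ne (by decide), hc])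
      (by rw [Function.update_of_ne (by decide), h1])
        (by decide) (by decide) (by decide) (by decide) (by decide) (by decide)
  have e4 : Function.update (Function.update (Function.update w .t2
      ((Nat.bits (x * y)).map bt)) .t2 []) .hi ((addc hl (Nat.bits (x * y)) false).map bt) =
      Function.update w .hi ((addc hl (Nat.bits (x * y)) false).map bt) := by
    funext i
    simp only [Function.update_apply]
    split_ifs <;> simp_all
  rw [e4] at g4
  have g5 := oShift_runs (fun _ => [] : ∀ k, List (tm.Γ k)) (Function.update w .hi
    ((addc hl (Nat.bits (x * y)) false).map bt)) (bt false) .t3 .hi .t1 .lo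
    (by rw [Function.update_of_ne (by decide), h1])
      (by decide) (by decide) (by decide) (by decide) (by decide) (by decide)
  have e5 : (Function.update w .hi ((addc hl (Nat.bits (x * y)) false).map bt)) .t3 = w .t3 := by
    rw [Function.update_of_ne (by decide)]
  rw [e5] at g5
  have g6 := oClear_runs (fun _ => [] : ∀ k, List (tm.Γ k)) (Function.update (Function.update
    (Function.update w .hi ((addc hl (Nat.bits (x * y)) false).map bt)) .hi
    (((Function.update w .hi ((addc hl (Nat.bits (x * y)) false).map bt)) .hi).drop
      (w .t3).length)) .lo ((((Function.update w .hi ((addc hl (Nat.bits (x * y)) false).map bt))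
      .hi).take (w .t3).length ++ List.replicate ((w .t3).length - ((Function.update w .hi
        ((addc hl (Nat.bits (x * y)) false).map bt)) .hi).length) (bt false)).reverse ++
      (Function.update w .hi ((addc hl (Nat.bits (x * y)) false).map bt)) .lo)) .t3
  refine ((g1.seq (g2.seq (g3.seq (g4.seq (g5.seq g6))))).mono ?_).congr ?_
  · rw [Function.update_self, Function.update_of_ne (by decide), Function.update_of_ne (by decide),
      Function.update_of_ne (by decide)]
    simp only [List.length_map, List.length_reverse]
    omega
  · congr 1
    funext i
    simp only [Function.update_apply, succUpd]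
    split_ifs <;> simp_all [List.map_take, List.map_drop]

/-- success or failure -/
noncomputable def testP : Pr tm :=
  .case (Sum.inr .q) (fun o => match o with
    | some (Sum.inr (Sum.inr (none, _))) => succP tm eout
    | _ => failP tm)

/-- the attempt -/
noncomputable def attP : Pr tm :=
  .seq (oTake .s .yc .t1 .t2) <|
  .seq (oStrip2 .t2 .t4 .t3) <|
  .seq (loadP tm ein) <|
  .seq (oPush .q (stt (some tm.main) tm.initialState)) <|
  .seq (clockSetP tm) <|
  .seq (clockProg tm.m) (testP tm eout)

theorem sum_initList (inp : List (tm.Γ tm.k₀)) :
    ∑ k, ((initList tm inp).stk k).length = inp.length := by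
  rw [initList_stk]
  rw [Finset.sum_eq_single tm.k₀]
  · rw [Function.update_self]
  · intro b _ hb
    rw [Function.update_of_ne hb]
    rfl
  · intro h
    exact absurd (Finset.mem_univ _) h

theorem length_encIn_nat (x y : ℕ) : (encIn x y).length =
    (Nat.bits x).length + (Nat.bits y).length + 3 := by
  rw [encIn_nat]
  simp only [List.length_cons, List.length_append, List.length_map]
  omega

theorem attP_runs (C0 : ℕ) (hC0 : ∀ l, scost (tm.m l) ≤ C0) (h1C : 1 ≤ C0)
    (hM : ∀ x y : ℤ, ∃ n, MulWithin tm ein eout x y n) (l b j : ℕ) (hj : j ≤ b)
    (w : Own → List (Sy tm)) (x : ℕ) (yl hl : List Bool)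
    (hxb : w .xb = (Nat.bits x).map bt) (hyc : w .yc = yl.map bt)
    (hll : w .l = List.replicate l uu) (hs : w .s = List.replicate (sz l b j) uu)
    (hb : w .b = List.replicate b uu) (hjj : w .j = List.replicate j uu)
    (hhi : w .hi = hl.map bt) (hclk : w .clk = []) (h1 : w .t1 = []) (h2 : w .t2 = [])
    (h3 : w .t3 = []) (h4 : w .t4 = []) (hcy : w .cy = []) (hq : w .q = []) :
    Runs (attP tm ein eout) (Sta (fun _ => []) w) (Sta (fun _ => [])
      (succUpd tm (Function.update (Function.update w .yc ((yl.drop (sz l b j)).map bt)) .t3
        ((yl.take (sz l b j)).map bt)) hl (x * val (yl.take (sz l b j)))))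
      ((200 + 10 * C0) * (1 + sz l b j * 2 ^ b + (Nat.bits x).length + l + hl.length + b)) ∨
    (¬ MulWithin tm ein eout x (val (yl.take (sz l b j))) (sz l b j * 2 ^ b) ∧
      Runs (attP tm ein eout) (Sta (fun _ => []) w) (Sta (fun _ => [])
        (posUpd tm w l (nxt b j).1 (nxt b j).2))
      ((200 + 10 * C0 + 2 * Fintype.card tm.K) *
        (1 + sz l b j * 2 ^ b + (Nat.bits x).length + l + hl.length + b))) := by
  set s := sz l b j with hsdef
  set z := yl.take s with hz
  set N := s * 2 ^ b with hN
  have hzs : z.length ≤ s := by rw [hz, List.length_take]; exact min_le_left _ _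
  have hsN : s ≤ N := Nat.le_mul_of_pos_right s (by positivity)
  have hbz : (Nat.bits (val z)).length ≤ s :=
    length_bits_le _ _ ((val_lt z).trans_le (Nat.pow_le_pow_right (by norm_num) hzs))
  -- take
  have g1 := oTake_runs (fun _ => [] : ∀ k, List (tm.Γ k)) w .s .yc .t1 .t2 h1
    (by decide) (by decide) (by decide) (by decide) (by decide) (by decide)
  have e1 : Function.update (Function.update w .yc ((w .yc).drop (w .s).length)) .t2
      (((w .yc).take (w .s).length).reverse ++ w .t2) = Function.update (Function.update w
        .yc ((yl.drop s).map bt)) .t2 (z.reverse.map bt) := by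
    rw [hyc, hs, List.length_replicate, h2, List.append_nil, ← List.map_take, ← List.map_drop,
      List.map_reverse]
  rw [e1] at g1
  rw [show (w .s).length = s by rw [hs, List.length_replicate]] at g1
  -- strip
  have g2 := oStrip2_runs (fun _ => [] : ∀ k, List (tm.Γ k)) (Function.update (Function.update w
        .yc ((yl.drop s).map bt)) .t2 (z.reverse.map bt)) .t2 .t4 .t3 z
        (by rw [Function.update_self])
        (by rw [Function.update_of_ne (by decide), Function.update_of_ne (by decide), h4])
          (by decide) (by decide) (by decide)
  have e2 : Function.update (Function.update (Function.update (Function.update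
      (Function.update w .yc ((yl.drop s).map bt)) .t2 (z.reverse.map bt)) .t2 []) .t4
      ((Nat.bits (val z)).map bt)) .t3 (z.map bt ++ (Function.update (Function.update w
        .yc ((yl.drop s).map bt)) .t2 (z.reverse.map bt)) .t3) =
      Function.update (Function.update (Function.update w .yc ((yl.drop s).map bt)) .t3
        (z.map bt)) .t4 ((Nat.bits (val z)).map bt) := by
    funext i
    simp only [Function.update_apply]
    split_ifs <;> simp_all
  rw [e2] at g2
  -- load
  set w3 : Own → List (Sy tm) := Function.update (Function.update w .yc ((yl.drop s).map bt)) .t3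
        (z.map bt) with hw3
  have g3 := loadP_runs tm ein x (val z) (Function.update w3 .t4 ((Nat.bits (val z)).map bt))
    (by rw [Function.update_of_ne (by decide), hw3, Function.update_of_ne (by decide),
      Function.update_of_ne (by decide), hxb])
    (by rw [Function.update_self])
    (by rw [Function.update_of_ne (by decide), hw3, Function.update_of_ne (by decide),
      Function.update_of_ne (by decide), h1])
  have e3 : Function.update (Function.update w3 .t4 ((Nat.bits (val z)).map bt)) .t4 [] = w3 := by
    rw [Function.update_idem]
    have : w3 .t4 = [] := by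
      rw [hw3, Function.update_of_ne (by decide), Function.update_of_ne (by decide), h4]
    rw [← this, Function.update_eq_self]
  rw [e3] at g3
  set c0 := initList tm ((encIn x (val z)).map ein.symm) with hc0
  -- state
  have g4 := oPush_runs c0.stk w3 .q (stt (some tm.main) tm.initialState)
  have hq3 : w3 .q = [] := by
    rw [hw3, Function.update_of_ne (by decide), Function.update_of_ne (by decide), hq]
  have e4 : Function.update w3 .q (stt (some tm.main) tm.initialState :: w3 .q) =
      withState w3 c0 := by rw [hq3]; rfl
  rw [e4] at g4
  -- clock
  have g5 := clockSetP_runs tm s b (withState w3 c0) c0.stk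
    (by rw [withState, Function.update_of_ne (by decide), hw3, Function.update_of_ne (by decide),
      Function.update_of_ne (by decide), hs])
    (by rw [withState, Function.update_of_ne (by decide), hw3, Function.update_of_ne (by decide),
      Function.update_of_ne (by decide), hb])
    (by rw [withState, Function.update_of_ne (by decide), hw3, Function.update_of_ne (by decide),
      Function.update_of_ne (by decide), hclk])
    (by rw [withState, Function.update_of_ne (by decide), hw3, Function.update_of_ne (by decide),
      Function.update_of_ne (by decide), h1])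
    (by rw [withState, Function.update_of_ne (by decide), hw3, Function.update_of_ne (by decide),
      Function.update_of_ne (by decide), h2])
  have e5 : Function.update (withState w3 c0) .clk (List.replicate (s * 2 ^ b) uu) =
      withState (Function.update w3 .clk (List.replicate N uu)) c0 := by
    rw [withState, withState, Function.update_comm (by decide)]
  rw [e5] at g5
  have g6 := clockProg_runs tm.m C0 hC0 h1C (List.replicate N uu) (Function.update w3 .clk
    (List.replicate N uu)) c0 (by rw [Function.update_self])
  rw [List.length_replicate, Function.update_idem] at g6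
  have e6 : Function.update w3 .clk [] = w3 := by
    have : w3 .clk = [] := by
      rw [hw3, Function.update_of_ne (by decide), Function.update_of_ne (by decide), hclk]
    rw [← this, Function.update_eq_self]
  rw [e6] at g6
  set cN := (tstep tm.m)^[N] c0 with hcN
  have e7 : Function.update (withState w3 cN) .q [] = w3 := by
    rw [withState, Function.update_idem, ← hq3, Function.update_eq_self]
  obtain ⟨n, ⟨hMn⟩⟩ := hM x (val z)
  cases hlab : cN.l with
  | none =>
    left
    have hend : cN = haltList tm ((encOut ((x : ℤ) * (val z : ℕ))).map eout.symm) :=
      tstep_halted hMn.evals_in_steps rfl N hlab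
    have g7 := succP_runs tm eout x (val z) w3 hl
      (by rw [hw3, Function.update_of_ne (by decide), Function.update_of_ne (by decide), hhi])
      (by rw [hw3, Function.update_of_ne (by decide), Function.update_of_ne (by decide), h1])
      (by rw [hw3, Function.update_of_ne (by decide), Function.update_of_ne (by decide), h2])
      (by rw [hw3, Function.update_of_ne (by decide), Function.update_of_ne (by decide), hcy])
    rw [← hend] at g7
    have g8 : Runs (testP tm eout) (Sta cN.stk (withState w3 cN)) (Sta (fun _ => [])
        (succUpd tm w3 hl (x * val z)))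
        (30 * (1 + (Nat.bits (x * val z)).length + hl.length + (w3 .t3).length) + 1) := by
      refine oCase_cons cN.stk (withState w3 cN) .q _ (a := stt none cN.var) (l := [])
        (by rw [withState, Function.update_self, hlab]) ?_
      rw [e7]
      exact g7
    refine (g1.seq (g2.seq (g3.seq (g4.seq (g5.seq (g6.seq g8)))))).mono ?_
    have l3 : (w3 .t3).length = z.length := by
      rw [hw3, Function.update_self, List.length_map]
    have lp : (Nat.bits (x * val z)).length ≤ (Nat.bits x).length + s := by
      refine length_bits_le _ _ ?_
      rw [pow_add]
      refine Nat.mul_lt_mul'' ?_ ((val_lt z).trans_le (Nat.pow_le_pow_right (by norm_num) hzs))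
      have := val_lt (Nat.bits x)
      rwa [val_bits] at this
    rw [l3]
    set D := 1 + N + (Nat.bits x).length + l + hl.length + b with hD
    have i1 : C0 * N ≤ C0 * D := Nat.mul_le_mul_left _ (by omega)
    have i2 : (C0 + 3) * N = C0 * N + 3 * N := by ring
    rw [i2]
    calc _ ≤ 200 * D + 10 * (C0 * D) := by omega
      _ = _ := by ring
  | some lab =>
    right
    refine ⟨?_, ?_⟩
    · rintro ⟨hh⟩
      have := tstep_iterate hh.evals_in_steps rfl N hh.steps_le_m
      have h2 : cN = haltList tm ((encOut ((x : ℤ) * (val z : ℕ))).map eout.symm) := this
      rw [h2] at hlab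
      cases hlab
    · have g7 := failP_runs tm l b j hj cN.stk w3
        (by rw [hw3, Function.update_of_ne (by decide), Function.update_of_ne (by decide), hll])
        (by rw [hw3, Function.update_of_ne (by decide), Function.update_of_ne (by decide), hs])
        (by rw [hw3, Function.update_of_ne (by decide), Function.update_of_ne (by decide), hb])
        (by rw [hw3, Function.update_of_ne (by decide), Function.update_of_ne (by decide), hjj])
        (by rw [hw3, Function.update_of_ne (by decide), Function.update_of_ne (by decide), h1])
        (by rw [hw3, Function.update_of_ne (by decide), Function.update_of_ne (by decide), h2])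
      have g8 : Runs (testP tm eout) (Sta cN.stk (withState w3 cN)) (Sta (fun _ => [])
          (posUpd tm (Function.update (Function.update w3 .t3 []) .yc (w3 .t3 ++ w3 .yc)) l
            (nxt b j).1 (nxt b j).2))
          ((2 * ∑ k, (cN.stk k).length + 2 * Fintype.card tm.K + 6 * (w3 .t3).length + 4 +
            30 * (1 + l + b)) + 1) := by
        refine oCase_cons cN.stk (withState w3 cN) .q _ (a := stt (some lab) cN.var) (l := [])
          (by rw [withState, Function.update_self, hlab]) ?_
        rw [e7]
        exact g7
      have e8 : Function.update (Function.update w3 .t3 []) .yc (w3 .t3 ++ w3 .yc) = w := by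
        have hzy : z.map bt ++ (yl.drop s).map bt = w .yc := by
          rw [← List.map_append, hz, List.take_append_drop, hyc]
        funext i
        simp only [Function.update_apply, hw3]
        split_ifs <;> simp_all
      rw [e8] at g8
      refine (g1.seq (g2.seq (g3.seq (g4.seq (g5.seq (g6.seq g8)))))).mono ?_
      have l3 : (w3 .t3).length = z.length := by
        rw [hw3, Function.update_self, List.length_map]
      have hsum := tstep_size tm.m C0 hC0 h1C N c0
      rw [hc0, sum_initList, List.length_map, length_encIn_nat, ← hc0, ← hcN] at hsum
      rw [l3]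
      set D := 1 + N + (Nat.bits x).length + l + hl.length + b with hD
      have i1 : C0 * N ≤ C0 * D := Nat.mul_le_mul_left _ (by omega)
      have i2 : (C0 + 3) * N = C0 * N + 3 * N := by ring
      have i3 : (C0 + 1) * N = C0 * N + N := by ring
      have i4 : Fintype.card tm.K ≤ Fintype.card tm.K * D :=
        Nat.le_mul_of_pos_right _ (by omega)
      rw [i3] at hsum
      rw [i2]
      calc _ ≤ 200 * D + 10 * (C0 * D) + 2 * (Fintype.card tm.K * D) := by omega
        _ = _ := by ring

end Pool.Agent.Borwein
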