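import Pool.Agent.Lib_MP_8c8a5b_lc.Blocks

set_option autoImplicit false

/-!
Blocks acting on bits: stripping leading zeros, addition.
-/

namespace Pool.Agent.Borwein

open Turing Pool.Agent.PartSep.TM Pool.Agent.PartSep.TM.Prog

section

variable {K' : Type} {Γ' : K' → Type} {Λ' σ' : Type} {K : Type} [DecidableEq K]

/-- is it the bit one? -/
def isOne : Option (Sym Γ' Λ' σ') → Bool
  | some (Sum.inl (some true)) => true
  | _ => false

omit [DecidableEq K] in
@[simp] theorem isOne_bt (b : Bool) : isOne (some (bt b : Sym Γ' Λ' σ')) = b := by
  cases b <;> rfl

@[simp] theorem isOne_none : isOne (none : Option (Sym Γ' Λ' σ')) = false := rfl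

/-- push the bit `b` on `s` unless it is a leading zero -/
def stripBody (s : K) (b : Sym Γ' Λ' σ') : Prog K (Sym Γ' Λ' σ') :=
  bif isOne (some b) then .push s b else .case s (fun o => match o with
    | none => .skip
    | some g => .seq (.push s g) (.push s b))

theorem stripBody_runs (s : K) (b : Bool) (a : List Bool) (S : K → List (Sym Γ' Λ' σ'))
    (hS : S s = a.map bt) :
    Runs (stripBody s (bt b)) S (Function.update S s ((spush a b).map bt)) 3 := by
  cases b with
  | true =>
    refine ((Runs.push s (bt true) S).mono (by norm_num)).congr ?_
    rw [hS]
    simp [spush]
  | false =>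
    cases a with
    | nil =>
      refine ((Runs.case_nil (by simpa using hS) (Runs.skip S)).mono (by norm_num)).congr ?_
      have : Function.update S s ((spush [] false).map bt) = S := by
        simp only [spush, and_self, if_true, List.map_nil]
        rw [show ([] : List (Sym Γ' Λ' σ')) = S s by simpa using hS.symm,
          Function.update_eq_self]
      rw [this]
    | cons g a =>
      have g1 := (Runs.push s (bt g : Sym Γ' Λ' σ') (Function.update S s (a.map bt))).seq
        (Runs.push s (bt false) _)
      refine ((Runs.case_cons (a := bt g) (l := a.map bt) (by simpa using hS) g1)).congr ?_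
      funext i
      simp only [Function.update_apply, spush]
      split_ifs <;> simp_all

theorem strip_runs (k s : K) (hks : k ≠ s) (l : List Bool) : ∀ (a : List Bool)
    (S : K → List (Sym Γ' Λ' σ')), S k = l.map bt → S s = a.map bt →
    Runs (.loop k (stripBody s)) S
      (Function.update (Function.update S k []) s ((l.foldl spush a).map bt))
      (5 * l.length + 2) := by
  induction l with
  | nil =>
    intro a S hk hs
    refine (Runs.loop_nil hk).congr ?_
    funext i
    simp only [Function.update_apply]
    split_ifs <;> simp_all
  | cons b l ih =>
    intro a S hk hs
    have g1 := stripBody_runs s b a (Function.update S k (l.map bt))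
      (by rw [Function.update_of_ne hks.symm, hs])
    have g2 := ih (spush a b) _ (show (Function.update (Function.update S k (l.map bt)) s
      ((spush a b).map bt)) k = l.map bt by simp [Function.update_of_ne hks]) (by simp)
    refine ((Runs.loop_cons (by simpa using hk) g1 g2).mono (by
      simp only [List.length_cons]; omega)).congr ?_
    funext i
    simp only [Function.update_apply]
    split_ifs <;> simp_all

/-- copy reversed to `s'` and strip to `s` -/
theorem strip2_runs (k s s' : K) (hks : k ≠ s) (hks' : k ≠ s') (hss : s ≠ s') (l : List Bool) :
    ∀ (a : List Bool) (S : K → List (Sym Γ' Λ' σ')), S k = l.map bt → S s = a.map bt →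
    Runs (.loop k (fun b => .seq (.push s' b) (stripBody s b))) S
      (Function.update (Function.update (Function.update S k []) s
        ((l.foldl spush a).map bt)) s' ((l.reverse.map bt) ++ S s'))
      (6 * l.length + 2) := by
  induction l with
  | nil =>
    intro a S hk hs
    refine (Runs.loop_nil hk).congr ?_
    funext i
    simp only [Function.update_apply]
    split_ifs <;> simp_all
  | cons b l ih =>
    intro a S hk hs
    have g0 := Runs.push s' (bt b) (Function.update S k (l.map bt))
    have g1 := stripBody_runs s b a (Function.update (Function.update S k (l.map bt)) s'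
      (bt b :: Function.update S k (l.map bt) s'))
      (by rw [Function.update_of_ne hss, Function.update_of_ne hks.symm, hs])
    have g2 := ih (spush a b) _ (show (Function.update (Function.update (Function.update S k
      (l.map bt)) s' (bt b :: Function.update S k (l.map bt) s')) s
      ((spush a b).map bt)) k = l.map bt by
        simp [Function.update_of_ne hks, Function.update_of_ne hks']) (by simp)
    refine ((Runs.loop_cons (by simpa using hk) (g0.seq g1) g2).mono (by
      simp only [List.length_cons]; omega)).congr ?_
    funext i
    simp only [Function.update_apply]
    split_ifs <;> simp_all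

/-- body of the carry loop -/
def carryBody (cy t : K) (h : Sym Γ' Λ' σ') : Prog K (Sym Γ' Λ' σ') :=
  .case cy (fun c => .seq (.push t (bt (isOne (some h) ^^ isOne c)))
    (.push cy (bt (isOne (some h) && isOne c))))

/-- the last carry -/
def lastCarry (cy t : K) : Prog K (Sym Γ' Λ' σ') :=
  .case cy (fun c => bif isOne c then .push t (bt true) else .skip)

/-- second part of the addition: the carry runs through `d` -/
def carryP (d cy t : K) : Prog K (Sym Γ' Λ' σ') :=
  .seq (.loop d (carryBody cy t)) (lastCarry cy t)

/-- body of the addition loop -/
def addBody (d cy t : K) (r : Sym Γ' Λ' σ') : Prog K (Sym Γ' Λ' σ') :=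
  .case d (fun h => .case cy (fun c =>
    .seq (.push t (bt (isOne h ^^ isOne (some r) ^^ isOne c)))
      (.push cy (bt ((isOne h && isOne (some r)) || (isOne h && isOne c) ||
        (isOne (some r) && isOne c))))))

theorem carryP_runs (d cy t : K) (h1 : d ≠ cy) (h2 : d ≠ t) (h3 : cy ≠ t) (a : List Bool) :
    ∀ (c : Bool) (S : K → List (Sym Γ' Λ' σ')), S d = a.map bt → S cy = [bt c] →
    ∃ S' : K → List (Sym Γ' Λ' σ'),
      Runs (.loop d (carryBody cy t)) S S' (5 * a.length + 2) ∧
      Runs (lastCarry cy t) S'
        (Function.update (Function.update (Function.update S d []) cy []) t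
          (((addc a [] c).reverse.map bt) ++ S t)) 2 := by
  induction a with
  | nil =>
    intro c S hd hc
    refine ⟨S, Runs.loop_nil hd, ?_⟩
    have g1 : Runs (bif isOne (some (bt c : Sym Γ' Λ' σ')) then .push t (bt true) else .skip)
        (Function.update S cy []) (Function.update (Function.update S cy []) t
          (((addc [] [] c).reverse.map bt) ++ S t)) 1 := by
      cases c with
      | true =>
        refine (Runs.push t (bt true) _).congr ?_
        rw [Function.update_of_ne h3.symm]
        simp [addc]
      | false =>
        refine ((Runs.skip _).mono (by norm_num)).congr ?_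
        have : Function.update S cy [] = Function.update (Function.update S cy []) t
            (Function.update S cy [] t) := by rw [Function.update_eq_self]
        conv_lhs => rw [this]
        rw [Function.update_of_ne h3.symm]
        simp [addc]
    refine (Runs.case_cons (a := bt c) (l := []) hc g1).congr ?_
    funext i
    simp only [Function.update_apply]
    split_ifs <;> simp_all
  | cons b a ih =>
    intro c S hd hc
    have g1 : Runs (carryBody cy t (bt b)) (Function.update S d (a.map bt))
        (Function.update (Function.update (Function.update S d (a.map bt)) t
          (bt (b ^^ c) :: S t)) cy [bt (b && c)]) 3 := by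
      refine (Runs.case_cons (a := bt c) (l := []) (by simp [Function.update_of_ne h1.symm, hc])
        ((Runs.push _ _ _).seq (Runs.push _ _ _))).congr ?_
      funext i
      simp only [Function.update_apply, isOne_bt]
      split_ifs <;> simp_all
    obtain ⟨S', hr, hr'⟩ := ih (b && c) (Function.update (Function.update (Function.update S d
      (a.map bt)) t (bt (b ^^ c) :: S t)) cy [bt (b && c)])
      (by simp [Function.update_of_ne h1, Function.update_of_ne h2]) (by simp)
    refine ⟨S', (Runs.loop_cons (by simpa using hd) g1 hr).mono (by
      simp only [List.length_cons]; omega), hr'.congr ?_⟩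
    funext i
    simp only [Function.update_apply, addc]
    split_ifs <;> simp_all

/-- `d := d + s` (both least significant first); `cy`, `t` are scratch -/
def addP (d s cy t : K) : Prog K (Sym Γ' Λ' σ') :=
  .seq (.push cy (bt false)) <|
  .seq (.loop s (addBody d cy t)) <|
  .seq (carryP d cy t) (.loop t (fun a => .push d a))

theorem addLoop_runs (d s cy t : K) (h1 : d ≠ cy) (h2 : d ≠ t) (h3 : cy ≠ t) (h4 : s ≠ d)
    (h5 : s ≠ cy) (h6 : s ≠ t) (b : List Bool) :
    ∀ (a : List Bool) (c : Bool) (S : K → List (Sym Γ' Λ' σ')), S s = b.map bt →
      S d = a.map bt → S cy = [bt c] →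
    ∃ S' : K → List (Sym Γ' Λ' σ'),
      Runs (.loop s (addBody d cy t)) S S' (6 * b.length + 2) ∧
      Runs (carryP d cy t) S'
        (Function.update (Function.update (Function.update (Function.update S s []) d []) cy []) t
          (((addc a b c).reverse.map bt) ++ S t)) (5 * a.length + 4) := by
  induction b with
  | nil =>
    intro a c S hs hd hc
    obtain ⟨S', hr, hr'⟩ := carryP_runs d cy t h1 h2 h3 a c S hd hc
    refine ⟨S, Runs.loop_nil hs, (hr.seq hr').congr ?_⟩
    funext i
    simp only [Function.update_apply]
    split_ifs <;> simp_all
  | cons r b ih =>
    intro a c S hs hd hc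
    cases a with
    | nil =>
      have g1 : Runs (addBody d cy t (bt r)) (Function.update S s (b.map bt))
          (Function.update (Function.update (Function.update S s (b.map bt)) t
          (bt (r ^^ c) :: S t)) cy [bt (r && c)]) 4 := by
        refine (Runs.case_nil (by simpa [Function.update_of_ne h4.symm] using hd)
          (Runs.case_cons (a := bt c) (l := [])
            (by simp [Function.update_of_ne h5.symm, hc])
          ((Runs.push _ _ _).seq (Runs.push _ _ _)))).congr ?_
        funext i
        simp only [Function.update_apply, isOne_bt, isOne_none]
        split_ifs <;> simp_all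
      obtain ⟨S', hr, hr'⟩ := ih [] (r && c) (Function.update (Function.update
        (Function.update S s (b.map bt)) t (bt (r ^^ c) :: S t)) cy [bt (r && c)])
        (by simp [Function.update_of_ne h5, Function.update_of_ne h6])
        (by simp [Function.update_of_ne h1, Function.update_of_ne h2,
          Function.update_of_ne h4.symm, hd]) (by simp)
      refine ⟨S', (Runs.loop_cons (by simpa using hs) g1 hr).mono (by
        simp only [List.length_cons]; omega), hr'.congr ?_⟩
      funext i
      simp only [Function.update_apply, addc]
      split_ifs <;> simp_all
    | cons h a =>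
      have g1 : Runs (addBody d cy t (bt r)) (Function.update S s (b.map bt))
          (Function.update (Function.update (Function.update (Function.update S s (b.map bt)) d
            (a.map bt)) t (bt (h ^^ r ^^ c) :: S t)) cy
            [bt ((h && r) || (h && c) || (r && c))]) 4 := by
        refine (Runs.case_cons (a := bt h) (l := a.map bt)
          (by simpa [Function.update_of_ne h4.symm] using hd)
          (Runs.case_cons (a := bt c) (l := [])
            (by simp [Function.update_of_ne h5.symm, Function.update_of_ne h1.symm, hc])
          ((Runs.push _ _ _).seq (Runs.push _ _ _)))).congr ?_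
        funext i
        simp only [Function.update_apply, isOne_bt]
        split_ifs <;> simp_all
      obtain ⟨S', hr, hr'⟩ := ih a ((h && r) || (h && c) || (r && c)) (Function.update
        (Function.update (Function.update (Function.update S s (b.map bt)) d
            (a.map bt)) t (bt (h ^^ r ^^ c) :: S t)) cy
            [bt ((h && r) || (h && c) || (r && c))])
        (by simp [Function.update_of_ne h5, Function.update_of_ne h6, Function.update_of_ne h4])
        (by simp [Function.update_of_ne h1, Function.update_of_ne h2]) (by simp)
      refine ⟨S', (Runs.loop_cons (by simpa using hs) g1 hr).mono (by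
        simp only [List.length_cons]; omega), (hr'.mono (by
        simp only [List.length_cons]; omega)).congr ?_⟩
      funext i
      simp only [Function.update_apply, addc]
      split_ifs <;> simp_all

theorem addP_runs (d s cy t : K) (h1 : d ≠ cy) (h2 : d ≠ t) (h3 : cy ≠ t) (h4 : s ≠ d)
    (h5 : s ≠ cy) (h6 : s ≠ t) (a b : List Bool) (S : K → List (Sym Γ' Λ' σ'))
    (hs : S s = b.map bt) (hd : S d = a.map bt) (hc : S cy = []) (ht : S t = []) :
    Runs (addP d s cy t) S
      (Function.update (Function.update S s []) d ((addc a b false).map bt))
      (12 * (a.length + b.length) + 12) := by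
  obtain ⟨S', hr, hr'⟩ := addLoop_runs d s cy t h1 h2 h3 h4 h5 h6 b a false
    (Function.update S cy (bt false :: S cy)) (by rw [Function.update_of_ne h5, hs])
    (by rw [Function.update_of_ne h1, hd]) (by simp [hc])
  have g3 := runs_rev t d h2.symm ((addc a b false).reverse.map bt) _ (show
    (Function.update (Function.update (Function.update (Function.update (Function.update S cy
      (bt false :: S cy)) s []) d []) cy []) t
      (((addc a b false).reverse.map bt) ++ (Function.update S cy (bt false :: S cy)) t)) t = _ by
      simp [Function.update_of_ne h3.symm, ht])
  have hlen := addc_length a b false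
  refine (((Runs.push cy (bt false) S).seq (hr.seq (hr'.seq g3))).mono (by
    simp only [List.length_map, List.length_reverse]
    omega)).congr ?_
  funext i
  simp only [Function.update_apply]
  split_ifs <;> simp_all

end

end Pool.Agent.Borwein
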