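import Mathlib

set_option autoImplicit false

/-!
Definitions for the hand-in: multiplication machines and arithmetic computations.
-/

namespace Pool.Agent.Borwein

/-- number of binary digits of `|z|` -/
def len (z : ℤ) : ℕ := Nat.size z.natAbs

/-- coding of a pair of integers (the same as in the frozen statement) -/
def encIn (x y : ℤ) : List (Option Bool) :=
  (some (decide (x < 0)) :: (Nat.bits x.natAbs).map some) ++
    (none :: (some (decide (y < 0)) :: (Nat.bits y.natAbs).map some))

/-- coding of an integer (the same as in the frozen statement) -/
def encOut (z : ℤ) : List Bool := decide (z < 0) :: Nat.bits z.natAbs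

/-- The machine `tm` outputs `x * y` within `n` steps. -/
def MulWithin (tm : Turing.FinTM2) (ein : tm.Γ tm.k₀ ≃ Option Bool) (eout : tm.Γ tm.k₁ ≃ Bool)
    (x y : ℤ) (n : ℕ) : Prop :=
  Nonempty (Turing.TM2OutputsInTime tm ((encIn x y).map ein.symm)
    (some ((encOut (x * y)).map eout.symm)) n)

/-- `x` is available: it has at most `B` digits or it has been computed before. -/
def Usable (B : ℕ) (S : List ℤ) (x : ℤ) : Prop := len x ≤ B ∨ x ∈ S

/-- Arithmetic computations. `Comp t B S A c`: the integers in `S` have been computed, at the
charge `c`, and the free steps have lengthened their arguments by at most `A` digits in total.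

The restricted algorithms of the literature (every multiplication has two factors each of which is
small or the result of an earlier multiplication, everything else is unrestricted, the last step is
a multiplication) only need the steps `mul`, with `x` the longer factor. Here only the longer factor
must be available; the shorter one is arbitrary. The steps `other`, `lin`, `free` are further
extensions. -/
inductive Comp (t : ℕ → ℕ → ℕ) (B : ℕ) : List ℤ → ℕ → ℕ → Prop
  /-- nothing has been computed -/
  | nil : Comp t B [] 0 0
  /-- product of an available integer `x` and any integer `y` which is not longer than `x`,
  charged `t (length of x) (length of y)` -/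
  | mul {S A c} (x y : ℤ) : Comp t B S A c → Usable B S x → len y ≤ len x →
      Comp t B (x * y :: S) A (c + t (len x) (len y))
  /-- any integer at most `q` digits longer than an available integer `x`, `q ≤ len x`, charged
  like the product of `x` and an integer with `q` digits -/
  | other {S A c} (x z : ℤ) (q : ℕ) : Comp t B S A c → Usable B S x → q ≤ len x →
      len z ≤ len x + q → Comp t B (z :: S) A (c + t (len x) q)
  /-- any integer at most one digit longer than an available integer `x`, charged `len x` -/
  | lin {S A c} (x z : ℤ) : Comp t B S A c → Usable B S x → len z ≤ len x + 1 →
      Comp t B (z :: S) A (c + len x)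
  /-- any integer at most `k` digits longer than an available integer, not charged -/
  | free {S A c} (x z : ℤ) (k : ℕ) : Comp t B S A c → Usable B S x → len z ≤ len x + k →
      Comp t B (z :: S) (A + k) c

end Pool.Agent.Borwein
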