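import Pool.Agent.Lib_MP_8c8a5b_lc.Sim
import Pool.Agent.Lib_MP_8c8a5b_lc.Defs

set_option autoImplicit false

/-!
Values of lists of bits; association lists as states.
-/

namespace Pool.Agent.Borwein

/-- value of a list of bits, least significant first -/
def val : List Bool → ℕ
  | [] => 0
  | b :: l => b.toNat + 2 * val l

/-- push a bit (on the most significant first side) unless it is a leading zero -/
def spush (l : List Bool) (b : Bool) : List Bool := if l = [] ∧ b = false then [] else b :: l

/-- sum of two lists of bits with a carry -/
def addc : List Bool → List Bool → Bool → List Bool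
  | [], [], c => if c then [true] else []
  | a :: as, [], c => (a ^^ c) :: addc as [] (a && c)
  | [], b :: bs, c => (b ^^ c) :: addc [] bs (b && c)
  | a :: as, b :: bs, c => (a ^^ b ^^ c) :: addc as bs ((a && b) || (a && c) || (b && c))

section
variable {K' : Type} {Γ' : K' → Type} {Λ' σ' : Type}

/-- the unit symbol of unary counters -/
def uu : Sym Γ' Λ' σ' := ob none

/-- own stacks given by an association list (all others empty) -/
def W (l : List (Own × List (Sym Γ' Λ' σ'))) : Own → List (Sym Γ' Λ' σ') :=
  fun o => (l.lookup o).getD []

end

end Pool.Agent.Borwein
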