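import Pool.Agent.Lib_MP_8c8a5b_lc.Bits

set_option autoImplicit false

/-!
Lemmas on lists of bits.
-/

namespace Pool.Agent.Borwein

open Turing Pool.Agent.PartSep.TM Pool.Agent.PartSep.TM.Prog

@[simp] theorem val_nil : val [] = 0 := rfl
@[simp] theorem val_cons (b : Bool) (l : List Bool) : val (b :: l) = b.toNat + 2 * val l := rfl

theorem val_bits (n : ℕ) : val (Nat.bits n) = n := by
  induction n using Nat.binaryRec' with
  | zero => rfl
  | bit b n h ih =>
    rw [Nat.bits_append_bit n b h, val_cons, ih, Nat.bit_val]
    ring

theorem val_append (l m : List Bool) : val (l ++ m) = val l + 2 ^ l.length * val m := by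
  induction l with
  | nil => simp
  | cons b l ih =>
    simp only [List.cons_append, val_cons, ih, List.length_cons, pow_succ]
    ring

theorem val_lt (l : List Bool) : val l < 2 ^ l.length := by
  induction l with
  | nil => simp
  | cons b l ih =>
    simp only [val_cons, List.length_cons, pow_succ]
    have := Bool.toNat_lt b
    omega

theorem val_replicate_false (n : ℕ) : val (List.replicate n false) = 0 := by
  induction n with
  | zero => rfl
  | succ n ih => rw [List.replicate_succ, val_cons, ih]; rfl

theorem val_take_drop (l : List Bool) (n : ℕ) :
    val l = val (l.take n) + 2 ^ n * val (l.drop n) := by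
  by_cases h : n ≤ l.length
  · conv_lhs => rw [← List.take_append_drop n l, val_append]
    rw [List.length_take, min_eq_left h]
  · push Not at h
    rw [List.take_of_length_le h.le, List.drop_eq_nil_of_le h.le]
    simp

theorem bits_bit (b : Bool) (n : ℕ) (h : n = 0 → b = true) :
    Nat.bits (b.toNat + 2 * n) = b :: Nat.bits n := by
  have := Nat.bits_append_bit n b h
  rw [Nat.bit_val] at this
  rw [← this]
  congr 1
  ring

theorem foldl_spush (l : List Bool) : l.reverse.foldl spush [] = Nat.bits (val l) := by
  induction l with
  | nil => simp [Nat.zero_bits]
  | cons b l ih =>
    rw [List.reverse_cons, List.foldl_append, ih]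
    simp only [List.foldl_cons, List.foldl_nil, spush, val_cons]
    by_cases h : val l = 0
    · cases b with
      | false => simp [h, Nat.zero_bits]
      | true => simp [h, Nat.zero_bits, Nat.one_bits]
    · have hne : Nat.bits (val l) ≠ [] := by
        intro hb
        apply h
        rw [← val_bits (val l), hb]
        rfl
      rw [if_neg (fun hh => hne hh.1), bits_bit b _ (fun hh => absurd hh h)]

theorem addc_val (a b : List Bool) (c : Bool) :
    val (addc a b c) = val a + val b + c.toNat := by
  induction a generalizing b c with
  | nil =>
    induction b generalizing c with
    | nil => cases c <;> simp [addc]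
    | cons b bs ih =>
      simp only [addc, val_cons, ih, val_nil]
      cases b <;> cases c <;> simp <;> ring
  | cons a as iha =>
    cases b with
    | nil =>
      simp only [addc, val_cons, iha, val_nil]
      cases a <;> cases c <;> simp <;> ring
    | cons b bs =>
      simp only [addc, val_cons, iha]
      cases a <;> cases b <;> cases c <;> simp <;> ring

theorem addc_length (a b : List Bool) (c : Bool) :
    (addc a b c).length ≤ max a.length b.length + 1 := by
  induction a generalizing b c with
  | nil =>
    induction b generalizing c with
    | nil => cases c <;> simp [addc]
    | cons b bs ih =>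
      have := ih (b && c)
      simp only [addc, List.length_cons, List.length_nil] at *
      omega
  | cons a as iha =>
    cases b with
    | nil =>
      have := iha [] (a && c)
      simp only [addc, List.length_cons, List.length_nil] at *
      omega
    | cons b bs =>
      have := iha bs ((a && b) || (a && c) || (b && c))
      simp only [addc, List.length_cons] at *
      omega

theorem size_eq_length_bits (n : ℕ) : Nat.size n = (Nat.bits n).length :=
  Nat.size_eq_bits_len n |>.symm

theorem length_bits_le (n k : ℕ) (h : n < 2 ^ k) : (Nat.bits n).length ≤ k := by
  rw [← size_eq_length_bits]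
  exact Nat.size_le.2 h

section
variable {K' : Type} {Γ' : K' → Type} {Λ' σ' : Type}

theorem W_update (l : List (Own × List (Sym Γ' Λ' σ'))) (o : Own) (v : List (Sym Γ' Λ' σ')) :
    Function.update (W l) o v = W ((o, v) :: l) := by
  funext i
  by_cases h : i = o
  · subst h
    simp [W]
  · rw [Function.update_of_ne h]
    simp only [W, List.lookup_cons]
    have : (i == o) = false := by simpa using h
    rw [this]

end

end Pool.Agent.Borwein
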