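import Pool.Agent.Lib_MP_8c8a5b_lc.BitsLemmas

set_option autoImplicit false

/-!
Basic blocks of the multiplication machine.
-/

namespace Pool.Agent.Borwein

open Turing Pool.Agent.PartSep.TM Pool.Agent.PartSep.TM.Prog

section Generic

variable {K A : Type} [DecidableEq K]

theorem rep_cons (n : ℕ) (z : A) (L : List A) :
    List.replicate n z ++ z :: L = z :: (List.replicate n z ++ L) := by
  induction n with
  | zero => rfl
  | succ n ih => rw [List.replicate_succ, List.cons_append, ih]; rfl

/-- Take as many symbols from `k` as there are on `c`, pushing them on `s`;
`c` is moved to `t`. -/
def takeLoop (c k t s : K) : Prog K A :=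
  .loop c (fun a => .seq (.push t a) (.case k (fun o => match o with
    | none => .skip
    | some b => .push s b)))

theorem takeLoop_runs (c k t s : K) (h1 : c ≠ k) (h2 : c ≠ t) (h3 : c ≠ s) (h4 : k ≠ t)
    (h5 : k ≠ s) (h6 : t ≠ s) (l : List A) : ∀ S : K → List A, S c = l →
    Runs (takeLoop c k t s) S
      (Function.update (Function.update (Function.update (Function.update S c []) t
        (l.reverse ++ S t)) k ((S k).drop l.length)) s
        (((S k).take l.length).reverse ++ S s)) (5 * l.length + 2) := by
  induction l with
  | nil =>
    intro S hS
    refine (Runs.loop_nil hS).congr ?_
    funext i
    simp only [Function.update_apply]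
    split_ifs <;> simp_all
  | cons a l ih =>
    intro S hS
    have g1 := Runs.push t a (Function.update S c l)
    cases hk : S k with
    | nil =>
      have g2 : Runs (.case k (fun o => match o with
        | none => .skip
        | some b => .push s b)) (Function.update (Function.update S c l) t
          (a :: Function.update S c l t)) (Function.update (Function.update S c l) t
          (a :: Function.update S c l t)) 1 :=
        Runs.case_nil (by simp [Function.update_of_ne h4, Function.update_of_ne h1.symm, hk])
          (Runs.skip _)
      have g3 := ih (Function.update (Function.update S c l) t
          (a :: Function.update S c l t)) (by simp [Function.update_of_ne h2])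
      refine ((Runs.loop_cons hS (g1.seq g2) g3).mono (by
        simp only [List.length_cons]; omega)).congr ?_
      funext i
      simp only [Function.update_apply]
      split_ifs <;> simp_all
    | cons b m =>
      have g2 : Runs (.case k (fun o => match o with
        | none => .skip
        | some b => .push s b)) (Function.update (Function.update S c l) t
          (a :: Function.update S c l t)) (Function.update (Function.update (Function.update
          (Function.update S c l) t (a :: Function.update S c l t)) k m) s
          (b :: (Function.update (Function.update
          (Function.update S c l) t (a :: Function.update S c l t)) k m) s)) 2 :=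
        Runs.case_cons (a := b) (l := m)
          (by simp [Function.update_of_ne h4, Function.update_of_ne h1.symm, hk])
          (Runs.push _ _ _)
      have g3 := ih _ (show (Function.update (Function.update (Function.update
          (Function.update S c l) t (a :: Function.update S c l t)) k m) s
          (b :: (Function.update (Function.update
          (Function.update S c l) t (a :: Function.update S c l t)) k m) s)) c = l by
          simp [Function.update_of_ne h2, Function.update_of_ne h3, Function.update_of_ne h1])
      refine ((Runs.loop_cons hS (g1.seq g2) g3).mono (by
        simp only [List.length_cons]; omega)).congr ?_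
      funext i
      simp only [Function.update_apply]
      split_ifs <;> simp_all

/-- Take as many symbols from `k` as there are on `c`, pushing them on `s`; `t` is scratch. -/
def takeP (c k t s : K) : Prog K A :=
  .seq (takeLoop c k t s) (.loop t (fun a => .push c a))

theorem takeP_runs (c k t s : K) (h1 : c ≠ k) (h2 : c ≠ t) (h3 : c ≠ s) (h4 : k ≠ t)
    (h5 : k ≠ s) (h6 : t ≠ s) (S : K → List A) (ht : S t = []) :
    Runs (takeP c k t s) S
      (Function.update (Function.update S k ((S k).drop (S c).length)) s
        (((S k).take (S c).length).reverse ++ S s)) (8 * (S c).length + 4) := by
  have g1 := takeLoop_runs c k t s h1 h2 h3 h4 h5 h6 (S c) S rfl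
  have g2 := runs_rev t c h2.symm (S c).reverse _ (show (Function.update (Function.update
    (Function.update (Function.update S c []) t ((S c).reverse ++ S t)) k
    ((S k).drop (S c).length)) s (((S k).take (S c).length).reverse ++ S s)) t =
      (S c).reverse by simp [Function.update_of_ne h6, Function.update_of_ne h4.symm, ht])
  refine ((g1.seq g2).mono (by rw [List.length_reverse]; omega)).congr ?_
  funext i
  simp only [Function.update_apply]
  split_ifs <;> simp_all

/-- Shift as many symbols as there are on `c` from `k` to `s`, padding with `z`. -/
def shiftLoop (z : A) (c k t s : K) : Prog K A :=
  .loop c (fun a => .seq (.push t a) (.case k (fun o => match o with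
    | none => .push s z
    | some b => .push s b)))

theorem shiftLoop_runs (z : A) (c k t s : K) (h1 : c ≠ k) (h2 : c ≠ t) (h3 : c ≠ s) (h4 : k ≠ t)
    (h5 : k ≠ s) (h6 : t ≠ s) (l : List A) : ∀ S : K → List A, S c = l →
    Runs (shiftLoop z c k t s) S
      (Function.update (Function.update (Function.update (Function.update S c []) t
        (l.reverse ++ S t)) k ((S k).drop l.length)) s
        (((S k).take l.length ++ List.replicate (l.length - (S k).length) z).reverse ++ S s))
        (5 * l.length + 2) := by
  induction l with
  | nil =>
    intro S hS
    refine (Runs.loop_nil hS).congr ?_
    funext i
    simp only [Function.update_apply]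
    split_ifs <;> simp_all
  | cons a l ih =>
    intro S hS
    have g1 := Runs.push t a (Function.update S c l)
    cases hk : S k with
    | nil =>
      have g2 : Runs (.case k (fun o => match o with
        | none => .push s z
        | some b => .push s b)) (Function.update (Function.update S c l) t
          (a :: Function.update S c l t)) (Function.update (Function.update
          (Function.update S c l) t (a :: Function.update S c l t)) s
          (z :: (Function.update (Function.update S c l) t (a :: Function.update S c l t)) s)) 2 :=
        Runs.case_nil (by simp [Function.update_of_ne h4, Function.update_of_ne h1.symm, hk])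
          (Runs.push _ _ _)
      have g3 := ih _ (show (Function.update (Function.update
          (Function.update S c l) t (a :: Function.update S c l t)) s
          (z :: (Function.update (Function.update S c l) t (a :: Function.update S c l t)) s)) c = l
          by simp [Function.update_of_ne h2, Function.update_of_ne h3])
      refine ((Runs.loop_cons hS (g1.seq g2) g3).mono (by
        simp only [List.length_cons]; omega)).congr ?_
      funext i
      simp only [Function.update_apply]
      split_ifs <;> simp_all [List.replicate_succ, rep_cons]
    | cons b m =>
      have g2 : Runs (.case k (fun o => match o with
        | none => .push s z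
        | some b => .push s b)) (Function.update (Function.update S c l) t
          (a :: Function.update S c l t)) (Function.update (Function.update (Function.update
          (Function.update S c l) t (a :: Function.update S c l t)) k m) s
          (b :: (Function.update (Function.update
          (Function.update S c l) t (a :: Function.update S c l t)) k m) s)) 2 :=
        Runs.case_cons (a := b) (l := m)
          (by simp [Function.update_of_ne h4, Function.update_of_ne h1.symm, hk])
          (Runs.push _ _ _)
      have g3 := ih _ (show (Function.update (Function.update (Function.update
          (Function.update S c l) t (a :: Function.update S c l t)) k m) s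
          (b :: (Function.update (Function.update
          (Function.update S c l) t (a :: Function.update S c l t)) k m) s)) c = l by
          simp [Function.update_of_ne h2, Function.update_of_ne h3, Function.update_of_ne h1])
      refine ((Runs.loop_cons hS (g1.seq g2) g3).mono (by
        simp only [List.length_cons]; omega)).congr ?_
      funext i
      simp only [Function.update_apply]
      split_ifs <;> simp_all

/-- Shift as many symbols as there are on `c` from `k` to `s`, padding with `z`. -/
def shiftP (z : A) (c k t s : K) : Prog K A :=
  .seq (shiftLoop z c k t s) (.loop t (fun a => .push c a))

theorem shiftP_runs (z : A) (c k t s : K) (h1 : c ≠ k) (h2 : c ≠ t) (h3 : c ≠ s) (h4 : k ≠ t)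
    (h5 : k ≠ s) (h6 : t ≠ s) (S : K → List A) (ht : S t = []) :
    Runs (shiftP z c k t s) S
      (Function.update (Function.update S k ((S k).drop (S c).length)) s
        (((S k).take (S c).length ++
          List.replicate ((S c).length - (S k).length) z).reverse ++ S s))
        (8 * (S c).length + 4) := by
  have g1 := shiftLoop_runs z c k t s h1 h2 h3 h4 h5 h6 (S c) S rfl
  have g2 := runs_rev t c h2.symm (S c).reverse _ (show (Function.update (Function.update
    (Function.update (Function.update S c []) t ((S c).reverse ++ S t)) k
    ((S k).drop (S c).length)) s (((S k).take (S c).length ++
          List.replicate ((S c).length - (S k).length) z).reverse ++ S s)) t =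
      (S c).reverse by simp [Function.update_of_ne h6, Function.update_of_ne h4.symm, ht])
  refine ((g1.seq g2).mono (by rw [List.length_reverse]; omega)).congr ?_
  funext i
  simp only [Function.update_apply]
  split_ifs <;> simp_all

/-- double a unary counter -/
def doubleP (k t : K) : Prog K A :=
  .seq (.loop k (fun a => .seq (.push t a) (.push t a))) (.loop t (fun a => .push k a))

theorem doubleLoop_runs (k t : K) (h : k ≠ t) (u : A) (n : ℕ) : ∀ S : K → List A,
    S k = List.replicate n u →
    Runs (.loop k (fun a => .seq (.push t a) (.push t a))) S
      (Function.update (Function.update S k []) t (List.replicate (2 * n) u ++ S t))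
      (4 * n + 2) := by
  induction n with
  | zero =>
    intro S hS
    refine (Runs.loop_nil hS).congr ?_
    funext i
    simp only [Function.update_apply]
    split_ifs <;> simp_all
  | succ n ih =>
    intro S hS
    rw [List.replicate_succ] at hS
    have g1 := (Runs.push t u (Function.update S k (List.replicate n u))).seq (Runs.push t u _)
    have g2 := ih _ (show (Function.update (Function.update (Function.update S k
      (List.replicate n u)) t (u :: Function.update S k (List.replicate n u) t)) t
      (u :: (Function.update (Function.update S k
      (List.replicate n u)) t (u :: Function.update S k (List.replicate n u) t)) t)) k =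
      List.replicate n u by simp [Function.update_of_ne h])
    have e : List.replicate (2 * (n + 1)) u = u :: u :: List.replicate (2 * n) u := by
      rw [show 2 * (n + 1) = 2 * n + 1 + 1 by ring]
      rfl
    refine ((Runs.loop_cons hS g1 g2).mono (by omega)).congr ?_
    rw [e]
    funext i
    simp only [Function.update_apply]
    split_ifs <;> simp_all [rep_cons]

theorem doubleP_runs (k t : K) (h : k ≠ t) (u : A) (n : ℕ) (S : K → List A)
    (hS : S k = List.replicate n u) (ht : S t = []) :
    Runs (doubleP k t) S (Function.update S k (List.replicate (2 * n) u)) (10 * n + 4) := by
  have g1 := doubleLoop_runs k t h u n S hS
  have g2 := runs_rev t k h.symm (List.replicate (2 * n) u) _ (show (Function.update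
    (Function.update S k []) t (List.replicate (2 * n) u ++ S t)) t = _ by simp [ht])
  refine ((g1.seq g2).mono (by rw [List.length_replicate]; omega)).congr ?_
  funext i
  simp only [Function.update_apply]
  split_ifs <;> simp_all

/-- halve a unary counter -/
def halveP (k t : K) : Prog K A :=
  .seq (.loop k (fun a => .case k (fun o => match o with
    | none => .skip
    | some _ => .push t a))) (.loop t (fun a => .push k a))

theorem halveLoop_runs (k t : K) (h : k ≠ t) (u : A) (n : ℕ) : ∀ S : K → List A,
    S k = List.replicate n u →
    Runs (.loop k (fun a => .case k (fun o => match o with
      | none => .skip
      | some _ => .push t a))) S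
      (Function.update (Function.update S k []) t (List.replicate (n / 2) u ++ S t))
      (4 * n + 2) := by
  induction n using Nat.strong_induction_on with
  | _ n ih =>
    intro S hS
    match n, ih, hS with
    | 0, _, hS =>
      refine (Runs.loop_nil hS).congr ?_
      funext i
      simp only [Function.update_apply]
      split_ifs <;> simp_all
    | 1, _, hS =>
      rw [List.replicate_succ, List.replicate_zero] at hS
      have g1 : Runs (.case k (fun o => match o with
        | none => .skip
        | some _ => .push t u)) (Function.update S k []) (Function.update S k []) 1 :=
        Runs.case_nil (by simp) (Runs.skip _)
      have g2 := Runs.loop_nil (k := k) (c := fun a : A => (.case k (fun o => match o with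
        | none => .skip
        | some _ => .push t a) : Prog K A)) (S := Function.update S k []) (by simp)
      refine ((Runs.loop_cons hS g1 g2).mono (by omega)).congr ?_
      funext i
      simp only [Function.update_apply]
      split_ifs <;> simp_all
    | n + 2, ih, hS =>
      rw [List.replicate_succ, List.replicate_succ] at hS
      have g1 : Runs (.case k (fun o => match o with
        | none => .skip
        | some _ => .push t u)) (Function.update S k (u :: List.replicate n u))
        (Function.update (Function.update (Function.update S k (u :: List.replicate n u)) k
          (List.replicate n u)) t (u :: (Function.update (Function.update S k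
            (u :: List.replicate n u)) k (List.replicate n u)) t)) 2 :=
        Runs.case_cons (a := u) (l := List.replicate n u) (by simp) (Runs.push _ _ _)
      have g2 := ih n (by omega) _ (show (Function.update (Function.update (Function.update S k
        (u :: List.replicate n u)) k (List.replicate n u)) t (u :: (Function.update
        (Function.update S k (u :: List.replicate n u)) k (List.replicate n u)) t)) k =
        List.replicate n u by simp [Function.update_of_ne h])
      have e : List.replicate ((n + 2) / 2) u = u :: List.replicate (n / 2) u := by
        rw [show (n + 2) / 2 = n / 2 + 1 by omega]
        rfl
      refine ((Runs.loop_cons hS g1 g2).mono (by omega)).congr ?_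
      rw [e]
      funext i
      simp only [Function.update_apply]
      split_ifs <;> simp_all [rep_cons]

theorem halveP_runs (k t : K) (h : k ≠ t) (u : A) (n : ℕ) (S : K → List A)
    (hS : S k = List.replicate n u) (ht : S t = []) :
    Runs (halveP k t) S (Function.update S k (List.replicate (n / 2) u)) (6 * n + 4) := by
  have g1 := halveLoop_runs k t h u n S hS
  have g2 := runs_rev t k h.symm (List.replicate (n / 2) u) _ (show (Function.update
    (Function.update S k []) t (List.replicate (n / 2) u ++ S t)) t = _ by simp [ht])
  refine ((g1.seq g2).mono (by rw [List.length_replicate]; omega)).congr ?_
  funext i
  simp only [Function.update_apply]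
  split_ifs <;> simp_all

end Generic

end Pool.Agent.Borwein
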