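import Pool.Agent.Lib_MP_8c8a5b_lc.Bits
import Pool.Agent.Lib_MP_42fe4d_lc.TM.ToTM2

set_option autoImplicit false

/-!
From a structured program to a FinTM2.
-/

namespace Pool.Agent.Borwein

open Turing Pool.Agent.PartSep.TM Pool.Agent.PartSep.TM.Prog

/-- The stacks of the final machine. -/
inductive CStk (T : Type) : Type
  | inp | out | tmp | z (t : T)
  deriving DecidableEq, Fintype

section

variable {T A : Type}

/-- alphabets of the final machine -/
def cgam (T A : Type) : CStk T → Type
  | .inp => Option Bool
  | .out => Bool
  | _ => A

variable (f : Option Bool → A) (g : A → Option Bool)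

/-- decoding -/
def ciota : ∀ k : CStk T, A → cgam T A k
  | .inp => g
  | .out => fun a => (g a).getD false
  | .tmp => id
  | .z _ => id

/-- coding -/
def cpi : ∀ k : CStk T, cgam T A k → A
  | .inp => f
  | .out => fun b => f (some b)
  | .tmp => id
  | .z _ => id

open Classical in
/-- push representable symbols on the output -/
noncomputable def cfilt (a : A) : Prog (CStk T) A :=
  if f (some ((g a).getD false)) = a then .push .out a else .skip

theorem cfilt_pos {a : A} (h : f (some ((g a).getD false)) = a) :
    (cfilt f g a : Prog (CStk T) A) = .push .out a := if_pos h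

theorem cfilt_ok (a : A) : Ok (ciota (T := T) g) (cpi (T := T) f) (cfilt f g a) := by
  unfold cfilt
  split_ifs with h
  · exact h
  · trivial

/-- the program of the final machine -/
noncomputable def ctotal (i o : T) (P : Prog T A) : Prog (CStk T) A :=
  .seq (.loop .inp (fun a => .push .tmp a)) <|
  .seq (.loop .tmp (fun a => .push (.z i) a)) <|
  .seq (P.map .z) <|
  .seq (.loop (.z o) (fun a => .push .tmp a))
    (.loop .tmp (cfilt f g))

end

theorem W_single {K' : Type} {Γ' : K' → Type} {Λ' σ' : Type} (o : Own) (l : List (Sym Γ' Λ' σ'))
    (k : Own) : W [(o, l)] k = if k = o then l else [] := by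
  by_cases h : k = o
  · subst h
    simp [W, List.lookup]
  · have h' : (k == o) = false := beq_eq_false_iff_ne.2 h
    simp [W, List.lookup, h', h]

theorem len_eq_length (z : ℤ) : len z = (Nat.bits z.natAbs).length := by
  rw [len, Nat.size_eq_bits_len]

theorem length_encIn (x y : ℤ) : (encIn x y).length = len x + len y + 3 := by
  simp only [encIn, List.length_append, List.length_cons, List.length_map, ← len_eq_length]
  omega

theorem length_encOut (x y : ℤ) : (encOut (x * y)).length ≤ len x + len y + 1 := by
  simp only [encOut, List.length_cons, ← len_eq_length]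
  have h1 : x.natAbs < 2 ^ len x := Nat.lt_size_self _
  have h2 : y.natAbs < 2 ^ len y := Nat.lt_size_self _
  have h3 : len (x * y) ≤ len x + len y := by
    rw [len, Nat.size_le, Int.natAbs_mul, pow_add]
    exact Nat.mul_lt_mul'' h1 h2
  omega

/-- A program gives a machine. -/
theorem compile (tm : FinTM2) (hfin : ∀ k, Finite (tm.Γ k))
    (P : Prog (tm.K ⊕ Own) (Sym tm.Γ tm.Λ tm.σ)) :
    ∃ (tm' : FinTM2) (ein' : tm'.Γ tm'.k₀ ≃ Option Bool) (eout' : tm'.Γ tm'.k₁ ≃ Bool) (C : ℕ),
      (∀ k, Finite (tm'.Γ k)) ∧ ∀ (x y : ℤ) (n : ℕ),
        Runs P (Sta (fun _ => []) (W [(.inp, (encIn x y).map ob)]))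
          (Sta (fun _ => []) (W [(.out, (encOut (x * y)).map bt)])) n →
        MulWithin tm' ein' eout' x y (C * (n + len x + len y + 1)) := by
  classical
  have hΛf : Fintype tm.Λ := tm.ΛFin
  have hσf : Fintype tm.σ := tm.σFin
  have hKf : Fintype tm.K := tm.kFin
  let A := Sym tm.Γ tm.Λ tm.σ
  have hA : Finite A := inferInstanceAs
    (Finite (Option Bool ⊕ ((Σ k, tm.Γ k) ⊕ (Option tm.Λ × tm.σ))))
  let T := tm.K ⊕ Own
  let f : Option Bool → A := ob
  let g : A → Option Bool := Sum.elim id (fun _ => none)
  have hgf : ∀ o, g (f o) = o := fun o => rfl
  have hfinj : Function.Injective f := Function.LeftInverse.injective hgf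
  let i : T := Sum.inr .inp
  let o : T := Sum.inr .out
  let Ptot := ctotal f g i o P
  let ι := ciota (T := T) g
  let π := cpi (T := T) f
  let fin : TM2.Stmt (cgam T A) (Option (Lab Ptot)) (Option A) :=
    .load (fun _ => none) .halt
  let M : Option (Lab Ptot) → TM2.Stmt (cgam T A) (Option (Lab Ptot)) (Option A) :=
    fun l => match l with
    | none => Prog.comp ι π Ptot some fin
    | some l => body ι π Ptot some fin l
  have hΛ : Finite (Option (Lab Ptot)) := inferInstance
  have hσ : Finite (Option A) := inferInstance
  let tm' : FinTM2 :=
    { K := CStk T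
      k₀ := .inp
      k₁ := .out
      Γ := cgam T A
      Λ := Option (Lab Ptot)
      main := none
      ΛFin := Fintype.ofFinite _
      σ := Option A
      σFin := Fintype.ofFinite _
      initialState := none
      Γk₀Fin := inferInstanceAs (Fintype (Option Bool))
      m := M }
  have hinjE : Function.Injective (CStk.z : T → CStk T) := by
    intro a b hab; cases hab; rfl
  let St : List A → List A → List A → (T → List A) → CStk T → List A := fun a b c d k =>
    match k with
    | .inp => a
    | .out => b
    | .tmp => c
    | .z t => d t
  have hrun : ∀ (w v : List A) (n : ℕ), (∀ a ∈ v, f (some ((g a).getD false)) = a) →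
      Runs P (fun k => if k = i then w else []) (fun k => if k = o then v else []) n →
      Runs Ptot (fun k => if k = .inp then w else []) (fun k => if k = .out then v else [])
        (n + 6 * w.length + 6 * v.length + 8) := by
    intro w v n hv hP
    have g1 : Runs (.loop CStk.inp (fun a => .push CStk.tmp a)) (St w [] [] (fun _ => []))
        (St [] [] w.reverse (fun _ => [])) (3 * w.length + 2) := by
      have g1' := runs_rev (K := CStk T) CStk.inp CStk.tmp (by intro h; cases h) w
        (St w [] [] (fun _ => [])) rfl
      refine g1'.congr ?_
      funext k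
      cases k <;> simp [St, Function.update]
    have g2 : Runs (.loop CStk.tmp (fun a => .push (CStk.z i) a))
        (St [] [] w.reverse (fun _ => [])) (St [] [] [] (fun k => if k = i then w else []))
        (3 * w.length + 2) := by
      have g2' := runs_rev (K := CStk T) CStk.tmp (CStk.z i) (by intro h; cases h) w.reverse
        (St [] [] w.reverse (fun _ => [])) rfl
      refine (g2'.mono (by simp)).congr ?_
      funext k
      cases k with
      | z t =>
        by_cases ht : t = i
        · subst ht; simp [St]
        · rw [Function.update_of_ne (by intro h; cases h; exact ht rfl),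
            Function.update_of_ne (by intro h; cases h)]
          simp [St, ht]
      | inp => simp [St]
      | out => simp [St]
      | tmp => simp [St]
    have g3 : Runs (P.map CStk.z) (St [] [] [] (fun k => if k = i then w else []))
        (St [] [] [] (fun k => if k = o then v else [])) n := by
      refine hP.map hinjE ?_ ?_ ?_
      · intro k; rfl
      · intro k; rfl
      · rintro (_ | _ | _ | t) hk
        · rfl
        · rfl
        · rfl
        · exact absurd rfl (hk t)
    have g4 : Runs (.loop (CStk.z o) (fun a => .push CStk.tmp a))
        (St [] [] [] (fun k => if k = o then v else [])) (St [] [] v.reverse (fun _ => []))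
        (3 * v.length + 2) := by
      have g4' := runs_rev (K := CStk T) (CStk.z o) CStk.tmp (by intro h; cases h) v
        (St [] [] [] (fun k => if k = o then v else [])) (by simp [St])
      refine g4'.congr ?_
      funext k
      cases k with
      | z t =>
        by_cases ht : t = o
        · subst ht; simp [St]
        · rw [Function.update_of_ne (by intro h; cases h),
            Function.update_of_ne (by intro h; cases h; exact ht rfl)]
          simp [St, ht]
      | inp => simp [St]
      | out => simp [St]
      | tmp => simp [St]
    have g5 : Runs (.loop CStk.tmp (cfilt f g)) (St [] [] v.reverse (fun _ => []))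
        (St [] v [] (fun _ => [])) (3 * v.length + 2) := by
      have g5' := runs_rev' (K := CStk T) CStk.tmp CStk.out (by intro h; cases h)
        (cfilt f g) v.reverse
        (fun a ha => cfilt_pos f g (hv a (by simpa using ha))) (St [] [] v.reverse (fun _ => [])) rfl
      refine (g5'.mono (by simp)).congr ?_
      funext k
      cases k <;> simp [St, Function.update]
    refine ((g1.seq (g2.seq (g3.seq (g4.seq g5)))).congr₂ ?_ ?_).mono ?_
    · funext k
      cases k <;> simp [St]
    · funext k
      cases k <;> simp [St]
    · omega
  have hok : Ok ι π Ptot := by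
    refine ⟨fun a => rfl, fun a => rfl, ok_map _ ?_ P, fun a => rfl, cfilt_ok f g⟩
    intro k a
    rfl
  refine ⟨tm', Equiv.refl _, Equiv.refl _, 60, ?_, ?_⟩
  · rintro (_ | _ | _ | t)
    · exact inferInstanceAs (Finite (Option Bool))
    · exact inferInstanceAs (Finite Bool)
    · exact hA
    · exact hA
  intro x y n hP
  have hP' : Runs P (fun k => if k = i then (encIn x y).map f else [])
      (fun k => if k = o then ((encOut (x * y)).map (fun b => f (some b))) else []) n := by
    refine hP.congr₂ ?_ ?_
    · funext k
      rcases k with k | k
      · simp [Sta, i]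
      · simp [Sta, W_single, i, f]
    · funext k
      rcases k with k | k
      · simp [Sta, o]
      · simp only [Sta, W_single, o, f, Sum.elim_inr, Sum.inr.injEq]
        rfl
  obtain ⟨t, ht, hr⟩ := hrun _ _ n (by
    intro a ha
    obtain ⟨b, _, rfl⟩ := List.mem_map.1 ha
    rfl) hP'
  rw [List.length_map, List.length_map, length_encIn] at ht
  have hlo := length_encOut x y
  obtain ⟨v', T', m, hm, hT', hst⟩ := compile_correct (M := M) ι π hr hok some fin (fun l => rfl)
    none (initList tm' (List.map (Equiv.refl _).symm (encIn x y))).stk (by
      funext k
      cases k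
      · change List.map f (List.map (Equiv.refl _).symm (encIn x y)) = _
        simp
      all_goals rfl)
  refine ⟨⟨⟨1 + m, ?_⟩, ?_⟩⟩
  · have h0 : Steps M 1 (initList tm' (List.map (Equiv.refl _).symm (encIn x y)))
        (TM2.stepAux (Prog.comp ι π Ptot some fin) none
          (initList tm' (List.map (Equiv.refl _).symm (encIn x y))).stk) := rfl
    have h1 := h0.trans hst
    have hfinal : TM2.stepAux fin v' T' =
        haltList tm' (List.map (Equiv.refl _).symm (encOut (x * y))) := by
      change (⟨none, none, T'⟩ : TM2.Cfg _ _ _) = _
      have : T' = (haltList tm' (List.map (Equiv.refl _).symm (encOut (x * y)))).stk := by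
        funext k
        have hk := congrFun hT' k
        cases k
        · change List.map f (T' .inp) = [] at hk
          have : T' .inp = [] := List.map_eq_nil_iff.1 hk
          rw [this]; rfl
        · change List.map (fun b => f (some b)) (T' .out) =
            (encOut (x * y)).map (fun b => f (some b)) at hk
          have : T' .out = encOut (x * y) := List.map_injective_iff.2
            (fun a b hab => Option.some.inj (hfinj hab)) hk
          rw [this]
          change _ = List.map (Equiv.refl _).symm (encOut (x * y))
          simp
        all_goals
          change List.map _root_.id _ = [] at hk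
          rw [List.map_id] at hk
          rw [hk]; rfl
      rw [this]
      rfl
    rw [hfinal] at h1
    exact h1
  · change 1 + m ≤ _
    omega

end Pool.Agent.Borwein
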