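import Pool.Agent.Lib_MP_8c8a5b_lc.Defs

set_option autoImplicit false

/-!
Growth lemma: long integers are expensive.
-/

namespace Pool.Agent.Borwein

private theorem len_mul_le (x y : ℤ) : len (x * y) ≤ len x + len y := by
  unfold len
  rw [Int.natAbs_mul, Nat.size_le, pow_add]
  exact Nat.mul_lt_mul'' (Nat.lt_size_self _) (Nat.lt_size_self _)

/-- the effect of one step which lengthens by `q` digits at the charge `t u q` -/
private theorem growth_step {t : ℕ → ℕ → ℕ}
    (hmono : ∀ a a' b b', a ≤ a' → b ≤ b' → t a b ≤ t a' b')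
    {B' l c' A c u q v : ℕ} (hl : 1 ≤ l) (hlB : 2 * l ≤ B')
    (h1 : ∀ s, 1 ≤ s → s ≤ l → c' * s < l * t l s)
    (hu : c' * u ≤ c' * (B' + A) + l * c) (hq : q ≤ u) (hv : v ≤ u + q)
    (hc : c + t u q ≤ c') : c' * v ≤ c' * (B' + A) + l * (c + t u q) := by
  have h6 := Nat.mul_le_mul_left c' hv
  rw [Nat.mul_add c' u q] at h6
  rw [Nat.mul_add l c (t u q)]
  by_cases hq0 : q = 0
  · subst hq0
    omega
  rcases Nat.lt_or_ge l u with hlu | hlu
  · rcases Nat.lt_or_ge l q with hlq | hlq
    · exfalso
      have h3 := h1 l hl le_rfl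
      have h4 : t l l ≤ t u q := hmono _ _ _ _ (by omega) (by omega)
      have h5 : c' < t l l := by
        by_contra hcon
        push Not at hcon
        have := Nat.mul_le_mul_left l hcon
        nlinarith
      omega
    · have h3 := h1 q (by omega) hlq
      have h4 : t l q ≤ t u q := hmono _ _ _ _ (by omega) le_rfl
      have h5 := Nat.mul_le_mul_left l h4
      omega
  · have h7 : c' * v ≤ c' * (B' + A) := Nat.mul_le_mul_left _ (by omega)
    omega

/-- If all unbalanced products are expensive, the length of the computed integers is bounded. -/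
theorem growth {t : ℕ → ℕ → ℕ} (hmono : ∀ a a' b b', a ≤ a' → b ≤ b' → t a b ≤ t a' b')
    {B B' l c' : ℕ} (hB : B ≤ B') (hl : 1 ≤ l) (hlB : 2 * l ≤ B')
    (h1 : ∀ s, 1 ≤ s → s ≤ l → c' * s < l * t l s) (h2 : c' < l * l)
    {S : List ℤ} {A c : ℕ} (h : Comp t B S A c) (hc : c ≤ c') :
    ∀ z ∈ S, c' * len z ≤ c' * (B' + A) + l * c := by
  have hus : ∀ (S : List ℤ) (A c : ℕ), (∀ z ∈ S, c' * len z ≤ c' * (B' + A) + l * c) →
      ∀ w, Usable B S w → c' * len w ≤ c' * (B' + A) + l * c := by
    intro S A c ih w hw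
    rcases hw with hw | hw
    · calc c' * len w ≤ c' * (B' + A) := Nat.mul_le_mul_left _ (by omega)
        _ ≤ _ := Nat.le_add_right _ _
    · exact ih w hw
  have hold : ∀ (S : List ℤ) (A c e : ℕ), (∀ z ∈ S, c' * len z ≤ c' * (B' + A) + l * c) →
      ∀ z ∈ S, c' * len z ≤ c' * (B' + A) + l * (c + e) := by
    intro S A c e ih z hz
    calc c' * len z ≤ c' * (B' + A) + l * c := ih z hz
      _ ≤ _ := Nat.add_le_add_left (Nat.mul_le_mul_left _ (by omega)) _
  induction h with
  | nil => intro z hz; simp at hz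
  | @mul S A c x y h hx hy ih =>
    have ih := ih (by omega)
    intro z hz
    rcases List.mem_cons.1 hz with rfl | hz
    · exact growth_step hmono hl hlB h1 (hus S A c ih x hx) hy (len_mul_le x y) hc
    · exact hold S A c _ ih z hz
  | @other S A c x w q h hx hq hw ih =>
    have ih := ih (by omega)
    intro z hz
    rcases List.mem_cons.1 hz with rfl | hz
    · exact growth_step hmono hl hlB h1 (hus S A c ih x hx) hq hw hc
    · exact hold S A c _ ih z hz
  | @lin S A c x w h hx hw ih =>
    have ih := ih (by omega)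
    intro z hz
    rcases List.mem_cons.1 hz with rfl | hz
    · have hux := hus S A c ih x hx
      rcases Nat.lt_or_ge l (len x) with hlx | hlx
      · have h3 : l * l ≤ l * len x := Nat.mul_le_mul_left _ (by omega)
        have h6 := Nat.mul_le_mul_left c' hw
        rw [Nat.mul_add c' (len x) 1] at h6
        rw [Nat.mul_add l c (len x)]
        omega
      · calc c' * len z ≤ c' * (B' + A) := Nat.mul_le_mul_left _ (by omega)
          _ ≤ _ := Nat.le_add_right _ _
    · exact hold S A c _ ih z hz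
  | @free S A c x w k h hx hw ih =>
    have ih := ih hc
    intro z hz
    rcases List.mem_cons.1 hz with rfl | hz
    · have hux := hus S A c ih x hx
      have h6 := Nat.mul_le_mul_left c' hw
      rw [Nat.mul_add] at h6
      have : c' * (B' + (A + k)) = c' * (B' + A) + c' * k := by ring
      omega
    · have := ih z hz
      have h7 : c' * (B' + A) ≤ c' * (B' + (A + k)) := Nat.mul_le_mul_left _ (by omega)
      omega

/-- The form used in the end: a long integer gives a good pair `(l, s)`. -/
theorem exists_good {t : ℕ → ℕ → ℕ} (hmono : ∀ a a' b b', a ≤ a' → b ≤ b' → t a b ≤ t a' b')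
    {B B' l c' : ℕ} (hB : B ≤ B') (hl : 1 ≤ l) (hlB : 2 * l ≤ B')
    {S : List ℤ} {A c : ℕ} (h : Comp t B S A c) (hc : c ≤ c') (hc' : 1 ≤ c') {z : ℤ}
    (hz : z ∈ S) (hlen : B' + A + l < len z) :
    l * l ≤ c' ∨ ∃ s, 1 ≤ s ∧ s ≤ l ∧ l * t l s ≤ c' * s := by
  by_contra hcon
  push Not at hcon
  obtain ⟨h2, h1⟩ := hcon
  have hg := growth hmono hB hl hlB (fun s hs1 hs2 => h1 s hs1 hs2) h2 h hc z hz
  have h3 : l * c ≤ l * c' := Nat.mul_le_mul_left _ hc
  have h4 : c' * len z ≤ c' * (B' + A + l) := by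
    calc c' * len z ≤ c' * (B' + A) + l * c := hg
      _ ≤ c' * (B' + A) + l * c' := by omega
      _ = c' * (B' + A + l) := by ring
  have h5 := Nat.le_of_mul_le_mul_left h4 (by omega)
  omega

end Pool.Agent.Borwein
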