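import Pool.Agent.Lib_MP_8c8a5b_lc.Defs

set_option autoImplicit false

/-!
The length of `n!`.
-/

namespace Pool.Agent.Borwein

/-- a lower bound for the length of `n!` -/
theorem len_factorial (n : ℕ) (hn : 2 ≤ n) :
    (n : ℝ) * Real.logb 2 n - 2 * n ≤ len (n.factorial : ℤ) := by
  have hn0 : (0 : ℝ) < n := by exact_mod_cast (by omega : 0 < n)
  have hf0 : (0 : ℝ) < (n.factorial : ℝ) := by exact_mod_cast n.factorial_pos
  have h1 : (n : ℝ) ^ n / n.factorial ≤ Real.exp n :=
    Real.pow_div_factorial_le_exp (n : ℝ) hn0.le n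
  have h2 : (n : ℝ) * Real.log n - Real.log n.factorial ≤ n := by
    have := Real.log_le_log (by positivity) h1
    rwa [Real.log_div (by positivity) hf0.ne', Real.log_pow, Real.log_exp] at this
  have h3 : (n.factorial : ℝ) ≤ (2 : ℝ) ^ len (n.factorial : ℤ) := by
    have := (Nat.lt_size_self n.factorial).le
    have e : len (n.factorial : ℤ) = Nat.size n.factorial := by simp [len]
    rw [e]
    exact_mod_cast this
  have h4 : Real.log n.factorial ≤ len (n.factorial : ℤ) * Real.log 2 := by
    have := Real.log_le_log hf0 h3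
    rwa [Real.log_pow] at this
  have hl : (1 / 2 : ℝ) < Real.log 2 := by
    have := Real.log_two_gt_d9
    linarith
  have hl0 : (0 : ℝ) < Real.log 2 := by linarith
  have h5 : (n : ℝ) * Real.logb 2 n * Real.log 2 = n * Real.log n := by
    rw [Real.logb]
    field_simp
  have h6 : ((n : ℝ) * Real.logb 2 n - 2 * n) * Real.log 2 ≤
      len (n.factorial : ℤ) * Real.log 2 := by
    nlinarith
  exact le_of_mul_le_mul_right h6 hl0

end Pool.Agent.Borwein
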