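import Pool.Agent.Lib_MP_8c8a5b_lc.MachineThm
import Pool.Agent.Lib_MP_8c8a5b_lc.Growth
import Pool.Agent.Lib_MP_8c8a5b_lc.LenFact

set_option autoImplicit false
set_option linter.constructorNameAsVariable false

/-!
Assembly of the main theorem.
-/

namespace Pool.Agent.Borwein

theorem len_le_of_lt {x : ℤ} {a : ℕ} (h : x.natAbs < 2 ^ a) : len x ≤ a := Nat.size_le.2 h

/-- the length estimate for large `n` -/
theorem length_estimate {δ ρ : ℝ} (hδ : 0 ≤ δ) (hδρ : δ + ρ < 1) {d K n a N B A : ℕ}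
    (hd : 32 / (1 - δ - ρ) ≤ 2 ^ d) (hK : 5 / (1 - δ - ρ) ≤ K) (hn : 2 ^ K ≤ n) (hn2 : 2 ≤ n)
    (ha : (a : ℝ) ≤ (n : ℝ) * Real.logb 2 (n : ℝ)) (hN : N ≤ 2 * a)
    (hB : (B : ℝ) ≤ δ * (n * Real.logb 2 n)) (hA : (A : ℝ) ≤ ρ * (n * Real.logb 2 n)) :
    max B (2 * 2 ^ (Nat.log 2 N - d)) + A + 2 ^ (Nat.log 2 N - d) <
      len (n.factorial : ℤ) := by
  set L : ℝ := (n : ℝ) * Real.logb 2 (n : ℝ) with hL
  set e : ℝ := 1 - δ - ρ with he
  have he0 : 0 < e := by rw [he]; linarith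
  have hn0 : (2 : ℝ) ≤ n := by exact_mod_cast hn2
  have hlog : (K : ℝ) ≤ Real.logb 2 n := by
    have h1 : Real.logb 2 ((2 : ℝ) ^ K) = K := by
      rw [← Real.rpow_natCast, Real.logb_rpow (by norm_num) (by norm_num)]
    rw [← h1]
    refine Real.logb_le_logb_of_le (by norm_num) (by positivity) ?_
    exact_mod_cast hn
  have hLK : (K : ℝ) * n ≤ L := by
    rw [hL, mul_comm (K : ℝ)]
    exact mul_le_mul_of_nonneg_left hlog (by linarith)
  have hL0 : 0 ≤ L := le_trans (by positivity) hLK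
  have h5 : 5 * (n : ℝ) ≤ e * L := by
    have h1 : 5 ≤ e * K := by
      rw [div_le_iff₀ he0] at hK
      linarith
    calc 5 * (n : ℝ) ≤ e * K * n := mul_le_mul_of_nonneg_right h1 (by linarith)
      _ = e * (K * n) := by ring
      _ ≤ e * L := mul_le_mul_of_nonneg_left hLK he0.le
  -- the block length
  have hl : ((2 ^ (Nat.log 2 N - d) : ℕ) : ℝ) ≤ 1 + e * L / 16 := by
    by_cases hdN : d ≤ Nat.log 2 N
    · have hN0 : N ≠ 0 := by
        rintro rfl
        simp only [Nat.log_zero_right, nonpos_iff_eq_zero] at hdN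
        subst hdN
        have : 32 / e ≤ 1 := by simpa using hd
        rw [div_le_iff₀ he0] at this
        have hle : e ≤ 1 - ρ := by rw [he]; linarith
        -- `a` is then unused; use `L`
        nlinarith [h5, hL0]
      have h1 : 2 ^ (Nat.log 2 N - d) * 2 ^ d ≤ N := by
        rw [← pow_add, Nat.sub_add_cancel hdN]
        exact Nat.pow_log_le_self 2 hN0
      have h2 : ((2 ^ (Nat.log 2 N - d) : ℕ) : ℝ) * 2 ^ d ≤ 2 * L := by
        calc ((2 ^ (Nat.log 2 N - d) : ℕ) : ℝ) * 2 ^ d ≤ (N : ℝ) := by exact_mod_cast h1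
          _ ≤ ((2 * a : ℕ) : ℝ) := by exact_mod_cast hN
          _ = 2 * (a : ℝ) := by push_cast; ring
          _ ≤ 2 * L := by linarith
      have h3 : 32 ≤ e * 2 ^ d := by
        rw [div_le_iff₀ he0] at hd
        linarith
      have h0 : (0 : ℝ) ≤ ((2 ^ (Nat.log 2 N - d) : ℕ) : ℝ) := Nat.cast_nonneg _
      nlinarith [mul_le_mul_of_nonneg_left h2 he0.le, mul_le_mul_of_nonneg_left h3 h0]
    · rw [Nat.sub_eq_zero_of_le (by omega), pow_zero, Nat.cast_one]
      nlinarith [mul_nonneg he0.le hL0]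
  have hlen := len_factorial n hn2
  rw [← hL] at hlen
  set l := 2 ^ (Nat.log 2 N - d) with hldef
  have hmax : ((max B (2 * l) : ℕ) : ℝ) ≤ δ * L + 2 * l := by
    rw [Nat.cast_max]
    refine max_le ?_ ?_
    · have : (0 : ℝ) ≤ 2 * (l : ℝ) := by positivity
      linarith
    · push_cast
      have : 0 ≤ δ * L := mul_nonneg hδ hL0
      linarith
  have hfin : ((max B (2 * l) + A + l : ℕ) : ℝ) < (len (n.factorial : ℤ) : ℝ) := by
    push_cast
    push_cast at hmax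
    have h6 : δ * L + ρ * L = L - e * L := by rw [he]; ring
    linarith
  exact_mod_cast hfin

theorem logb_le_self (n : ℕ) (hn : 1 ≤ n) : Real.logb 2 (n : ℝ) ≤ n := by
  have h2 : (n : ℝ) ≤ (2 : ℝ) ^ (n : ℝ) := by
    rw [Real.rpow_natCast]
    exact_mod_cast (Nat.lt_two_pow_self (n := n)).le
  have h3 : Real.logb 2 (n : ℝ) ≤ Real.logb 2 ((2 : ℝ) ^ (n : ℝ)) :=
    Real.logb_le_logb_of_le (by norm_num) (by exact_mod_cast hn) h2
  rwa [Real.logb_rpow (by norm_num) (by norm_num)] at h3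

/-- The main theorem. -/
theorem main (tm : Turing.FinTM2) (ein : tm.Γ tm.k₀ ≃ Option Bool) (eout : tm.Γ tm.k₁ ≃ Bool)
    (hfin : ∀ k, Finite (tm.Γ k)) (t : ℕ → ℕ → ℕ)
    (hmono : ∀ p p' q q', p ≤ p' → q ≤ q' → t p q ≤ t p' q')
    (hM : ∀ x y : ℤ, MulWithin tm ein eout x y (t (max (len x) (len y)) (min (len x) (len y))))
    (δ ρ : ℝ) (hδ : 0 ≤ δ) (hδρ : δ + ρ < 1) :
    ∃ (tm' : Turing.FinTM2) (ein' : tm'.Γ tm'.k₀ ≃ Option Bool) (eout' : tm'.Γ tm'.k₁ ≃ Bool)
      (C : ℕ), (∀ k, Finite (tm'.Γ k)) ∧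
      ∀ (a n : ℕ) (B : ℕ) (S : List ℤ) (A c : ℕ), 1 ≤ a → (a : ℝ) ≤ n * Real.logb 2 n →
        Comp t B S A c → (n.factorial : ℤ) ∈ S → (B : ℝ) ≤ δ * (n * Real.logb 2 n) →
        (A : ℝ) ≤ ρ * (n * Real.logb 2 n) →
        ∀ x y : ℤ, x.natAbs < 2 ^ a → y.natAbs < 2 ^ a →
          MulWithin tm' ein' eout' x y (C * (c + a)) := by
  obtain ⟨d, hd⟩ := pow_unbounded_of_one_lt (32 / (1 - δ - ρ)) (one_lt_two (α := ℝ))
  obtain ⟨K, hK⟩ := exists_nat_ge (5 / (1 - δ - ρ))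
  obtain ⟨tm', ein', eout', C, hfin', hm⟩ := machine tm ein eout hfin t hmono hM d
  set n₁ := 2 ^ K with hn₁
  refine ⟨tm', ein', eout', C * (3 + 2 ^ (d + 1) + 2 * (2 * (n₁ * n₁) + 1)), hfin', ?_⟩
  intro a n B S A c ha han hcomp hmem hB hA x y hx hy
  have hn : 2 ≤ n := by
    by_contra hlt
    have h0 : n = 0 ∨ n = 1 := by omega
    have h1 : (1 : ℝ) ≤ a := by exact_mod_cast ha
    rcases h0 with rfl | rfl
    · simp only [CharP.cast_eq_zero, zero_mul] at han
      linarith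
    · simp only [Nat.cast_one, Real.logb_one, mul_zero] at han
      linarith
  have hlx := len_le_of_lt hx
  have hly := len_le_of_lt hy
  set N := len x + len y with hN
  obtain ⟨hb1, hb2⟩ := block_bounds N d
  set l := 2 ^ (Nat.log 2 N - d) with hl
  have hl1 : 1 ≤ l := Nat.one_le_two_pow
  set c' := c + a with hc'
  by_cases hnn : n₁ ≤ n
  · -- large `n`
    have hest := length_estimate hδ hδρ hd.le hK hnn hn han (by omega : N ≤ 2 * a) hB hA
    have hgood := exists_good hmono (le_max_left B (2 * l)) hl1 (le_max_right B (2 * l)) hcomp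
      (show c ≤ c' by omega) (by omega) hmem hest
    set R := c' / l + 1 with hR
    have hlR : c' ≤ l * R := by
      have := Nat.lt_mul_div_succ c' (show 0 < l by omega)
      rw [hR]
      exact this.le
    have hcond : l ≤ R ∨ ∃ s, 1 ≤ s ∧ s ≤ l ∧ t l s ≤ R * s := by
      rcases hgood with h | ⟨s, hs1, hs2, hs3⟩
      · left
        exact Nat.le_of_mul_le_mul_left (h.trans hlR) (by omega)
      · right
        refine ⟨s, hs1, hs2, Nat.le_of_mul_le_mul_left ?_ (show 0 < l by omega)⟩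
        calc l * t l s ≤ c' * s := hs3
          _ ≤ l * R * s := Nat.mul_le_mul_right _ hlR
          _ = l * (R * s) := by ring
    refine MulWithin_mono (hm x y l R (by rw [hR]; exact Nat.succ_pos _) hl hcond) ?_
    have h1 : N * (c' / l) ≤ 2 ^ (d + 1) * c' := by
      calc N * (c' / l) ≤ l * 2 ^ (d + 1) * (c' / l) := Nat.mul_le_mul_right _ hb1.le
        _ = 2 ^ (d + 1) * (l * (c' / l)) := by ring
        _ ≤ 2 ^ (d + 1) * c' := Nat.mul_le_mul_left _ (Nat.mul_div_le _ _)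
    have h2 : 1 + N * R ≤ (3 + 2 ^ (d + 1)) * c' := by
      calc 1 + N * R = 1 + N * (c' / l) + N := by rw [hR]; ring
        _ ≤ 1 + 2 ^ (d + 1) * c' + 2 * a := by omega
        _ ≤ 2 ^ (d + 1) * c' + 3 * c' := by omega
        _ = _ := by ring
    calc C * (1 + N * R) ≤ C * ((3 + 2 ^ (d + 1)) * c') := Nat.mul_le_mul_left _ h2
      _ ≤ C * ((3 + 2 ^ (d + 1) + 2 * (2 * (n₁ * n₁) + 1)) * c') :=
        Nat.mul_le_mul_left _ (Nat.mul_le_mul_right _ (by omega))
      _ = _ := by ring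
  · -- small `n`
    refine MulWithin_mono (hm x y l l hl1 hl (Or.inl le_rfl)) ?_
    have han2 : a ≤ n₁ * n₁ := by
      have h1 := logb_le_self n (by omega)
      have h4 : (a : ℝ) ≤ (n : ℝ) * n := han.trans (mul_le_mul_of_nonneg_left h1 (by positivity))
      have h5 : a ≤ n * n := by exact_mod_cast h4
      exact h5.trans (Nat.mul_le_mul (by omega) (by omega))
    have hNa : N ≤ 2 * c' := by omega
    have hc1 : 1 ≤ c' := by omega
    have hla : l ≤ 2 * (n₁ * n₁) + 1 := by omega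
    calc C * (1 + N * l) ≤ C * (1 + 2 * c' * (2 * (n₁ * n₁) + 1)) :=
          Nat.mul_le_mul_left _ (Nat.add_le_add_left (Nat.mul_le_mul hNa hla) _)
      _ ≤ C * (c' + 2 * c' * (2 * (n₁ * n₁) + 1)) :=
          Nat.mul_le_mul_left _ (Nat.add_le_add_right hc1 _)
      _ = C * ((1 + 2 * (2 * (n₁ * n₁) + 1)) * c') := by ring
      _ ≤ C * ((3 + 2 ^ (d + 1) + 2 * (2 * (n₁ * n₁) + 1)) * c') :=
          Nat.mul_le_mul_left _ (Nat.mul_le_mul_right _ (Nat.add_le_add_right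
            (le_trans (by norm_num : 1 ≤ 3) (Nat.le_add_right _ _)) _))
      _ = _ := by ring

end Pool.Agent.Borwein
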