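import Pool.Agent.Lib_MP_8c8a5b_lc.Pos

set_option autoImplicit false

/-!
Existence of a good position.
-/

namespace Pool.Agent.Borwein

open Turing Pool.Agent.PartSep.TM Pool.Agent.PartSep.TM.Prog

section

variable {K' : Type} {Γ' : K' → Type} {Λ' σ' : Type} [DecidableEq K']

/-- one statement lengthens every stack by at most its cost -/
theorem stepAux_len (s : TM2.Stmt Γ' Λ' σ') : ∀ (v : σ') (T : ∀ k, List (Γ' k)) (i : K'),
    ((TM2.stepAux s v T).stk i).length ≤ (T i).length + scost s := by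
  induction s with
  | push k f q ih =>
    intro v T i
    have h := ih v (Function.update T k (f v :: T k)) i
    simp only [TM2.stepAux, scost]
    by_cases hi : i = k
    · subst hi
      rw [Function.update_self, List.length_cons] at h
      omega
    · rw [Function.update_of_ne hi] at h
      omega
  | peek k f q ih =>
    intro v T i
    have h := ih (f v (T k).head?) T i
    simp only [TM2.stepAux, scost]
    omega
  | pop k f q ih =>
    intro v T i
    have h := ih (f v (T k).head?) (Function.update T k (T k).tail) i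
    simp only [TM2.stepAux, scost]
    by_cases hi : i = k
    · subst hi
      rw [Function.update_self, List.length_tail] at h
      omega
    · rw [Function.update_of_ne hi] at h
      omega
  | load f q ih =>
    intro v T i
    exact ih (f v) T i
  | branch p q₁ q₂ ih₁ ih₂ =>
    intro v T i
    simp only [TM2.stepAux, scost]
    cases p v with
    | true => exact (ih₁ v T i).trans (Nat.add_le_add_left (le_max_left _ _) _)
    | false => exact (ih₂ v T i).trans (Nat.add_le_add_left (le_max_right _ _) _)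
  | goto f =>
    intro v T i
    simp [TM2.stepAux]
  | halt =>
    intro v T i
    simp [TM2.stepAux]

theorem steps_len (M : Λ' → TM2.Stmt Γ' Λ' σ') (C : ℕ) (hC : ∀ l, scost (M l) ≤ C) (i : K')
    (c' : TM2.Cfg Γ' Λ' σ') : ∀ (n : ℕ) (c : TM2.Cfg Γ' Λ' σ'),
    (flip bind (TM2.step M))^[n] (some c) = some c' →
    (c'.stk i).length ≤ (c.stk i).length + C * n := by
  intro n
  induction n with
  | zero =>
    intro c h
    simp only [Function.iterate_zero, id_eq, Option.some.injEq] at h
    subst h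
    omega
  | succ n ih =>
    intro c h
    rw [Function.iterate_succ_apply] at h
    obtain ⟨l, v, T⟩ := c
    cases l with
    | none =>
      change (flip bind (TM2.step M))^[n] (none : Option (TM2.Cfg Γ' Λ' σ')) = some c' at h
      have : ∀ m, (flip bind (TM2.step M))^[m] (none : Option (TM2.Cfg Γ' Λ' σ')) = none := by
        intro m
        induction m with
        | zero => rfl
        | succ m ih => rw [Function.iterate_succ_apply]; exact ih
      rw [this] at h
      cases h
    | some l =>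
      change (flip bind (TM2.step M))^[n] (some (TM2.stepAux (M l) v T)) = some c' at h
      have h1 := ih _ h
      have h2 := stepAux_len (M l) v T i
      have h3 := hC l
      change (c'.stk i).length ≤ (T i).length + C * (n + 1)
      rw [Nat.mul_succ]
      omega

end

theorem mulWithin_mono {tm : FinTM2} {ein : tm.Γ tm.k₀ ≃ Option Bool} {eout : tm.Γ tm.k₁ ≃ Bool}
    {x y : ℤ} {m n : ℕ} (h : MulWithin tm ein eout x y m) (hmn : m ≤ n) :
    MulWithin tm ein eout x y n := by
  obtain ⟨⟨h1, h2⟩⟩ := h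
  exact ⟨⟨h1, h2.trans hmn⟩⟩

theorem k0_ne_k1 (tm : FinTM2) (ein : tm.Γ tm.k₀ ≃ Option Bool) (eout : tm.Γ tm.k₁ ≃ Bool) :
    tm.k₁ ≠ tm.k₀ := by
  intro h
  have h1 : Nat.card (tm.Γ tm.k₀) = 3 := by
    rw [Nat.card_congr ein]; simp
  have h2 : Nat.card (tm.Γ tm.k₁) = 2 := by
    rw [Nat.card_congr eout]; simp
  rw [h, h1] at h2
  omega

/-- the machine needs linear time -/
theorem linear_lower (tm : FinTM2) (ein : tm.Γ tm.k₀ ≃ Option Bool) (eout : tm.Γ tm.k₁ ≃ Bool)
    (C : ℕ) (hC : ∀ l, scost (tm.m l) ≤ C) (x y : ℤ) (n : ℕ)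
    (h : MulWithin tm ein eout x y n) : (encOut (x * y)).length ≤ C * n := by
  obtain ⟨⟨⟨m, h1⟩, h2⟩⟩ := h
  have h3 := steps_len tm.m C hC tm.k₁ (haltList tm ((encOut (x * y)).map eout.symm)) m
    (initList tm ((encIn x y).map ein.symm)) h1
  rw [haltList_stk, initList_stk, Function.update_self,
    Function.update_of_ne (k0_ne_k1 tm ein eout), List.length_map, List.length_nil] at h3
  have h4 : m ≤ n := h2
  calc (encOut (x * y)).length ≤ 0 + C * m := h3
    _ ≤ C * n := by rw [Nat.zero_add]; exact Nat.mul_le_mul_left _ h4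

theorem len_natCast (n : ℕ) : len (n : ℤ) = Nat.size n := by
  rw [len, Int.natAbs_natCast]

theorem good_pos (tm : FinTM2) (ein : tm.Γ tm.k₀ ≃ Option Bool) (eout : tm.Γ tm.k₁ ≃ Bool)
    (t : ℕ → ℕ → ℕ) (hmono : ∀ a a' b b', a ≤ a' → b ≤ b' → t a b ≤ t a' b')
    (hM : ∀ x y : ℤ, MulWithin tm ein eout x y (t (max (len x) (len y)) (min (len x) (len y)))) :
    ∃ C : ℕ, ∀ lam R : ℕ, 1 ≤ R →
      (2 ^ lam ≤ R ∨ ∃ s, 1 ≤ s ∧ s ≤ 2 ^ lam ∧ t (2 ^ lam) s ≤ R * s) →
      ∃ bg jg, jg ≤ bg ∧ Good tm ein eout (2 ^ lam) bg jg ∧ 2 ^ bg ≤ C * R := by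
  classical
  have hΛ : Fintype tm.Λ := tm.ΛFin
  obtain ⟨κ, hκ1, hκ⟩ : ∃ κ : ℕ, 1 ≤ κ ∧ ∀ l, scost (tm.m l) ≤ κ := by
    refine ⟨Finset.univ.sup (fun l => scost (tm.m l)) + 1, by omega, fun l => ?_⟩
    have := Finset.le_sup (f := fun l => scost (tm.m l)) (Finset.mem_univ l)
    exact this.trans (Nat.le_succ _)
  refine ⟨4 * κ + 2, ?_⟩
  intro lam R hR h
  rcases h with h | ⟨s, hs1, hs2, hs3⟩
  · refine ⟨lam + 1, 0, by omega, Or.inl ?_, ?_⟩
    · unfold sz
      rw [Nat.sub_zero]
      exact Nat.div_eq_of_lt (Nat.pow_lt_pow_right (by norm_num) (by omega))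
    · rw [pow_succ]
      calc 2 ^ lam * 2 ≤ R * 2 := Nat.mul_le_mul_right _ h
        _ ≤ (4 * κ + 2) * R := by rw [add_mul]; omega
  · set sg := Nat.log 2 s with hsg
    have h1 : 2 ^ sg ≤ s := Nat.pow_log_le_self 2 (by omega)
    have h2 : s < 2 * 2 ^ sg := by
      have := Nat.lt_pow_succ_log_self (b := 2) (by norm_num) s
      rw [← hsg, pow_succ] at this
      omega
    have hsl : sg ≤ lam := by
      have : 2 ^ sg ≤ 2 ^ lam := h1.trans hs2
      exact (Nat.pow_le_pow_iff_right (by norm_num)).1 this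
    have ht1 : t (2 ^ lam) (2 ^ sg) ≤ 2 * R * 2 ^ sg := by
      calc t (2 ^ lam) (2 ^ sg) ≤ t (2 ^ lam) s := hmono _ _ _ _ le_rfl h1
        _ ≤ R * s := hs3
        _ ≤ R * (2 * 2 ^ sg) := Nat.mul_le_mul_left _ h2.le
        _ = 2 * R * 2 ^ sg := by ring
    -- the linear lower bound
    have hlow : 2 ^ lam ≤ κ * t (2 ^ lam) (2 ^ sg) := by
      set l := 2 ^ lam with hl
      have hl1 : 1 ≤ l := Nat.one_le_two_pow
      have h3 := linear_lower tm ein eout κ hκ ((2 ^ l - 1 : ℕ) : ℤ) ((1 : ℕ) : ℤ) _ (hM _ _)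
      rw [encOut_nat, List.length_cons, ← size_eq_length_bits, mul_one] at h3
      have hsz1 : l ≤ Nat.size (2 ^ l - 1) := by
        have : l - 1 < Nat.size (2 ^ l - 1) := by
          rw [Nat.lt_size]
          have e : 2 ^ l = 2 * 2 ^ (l - 1) := by
            rw [← pow_succ']
            congr 1
            omega
          have : 1 ≤ 2 ^ (l - 1) := Nat.one_le_two_pow
          omega
        omega
      have hsz2 : Nat.size (2 ^ l - 1) ≤ l := by
        rw [Nat.size_le]
        have : 1 ≤ 2 ^ l := Nat.one_le_two_pow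
        omega
      have hsz3 : Nat.size 1 = 1 := by simp
      rw [len_natCast, len_natCast, hsz3] at h3
      have h4 : t (max (Nat.size (2 ^ l - 1)) 1) (min (Nat.size (2 ^ l - 1)) 1) ≤
          t l (2 ^ sg) := by
        refine hmono _ _ _ _ (by omega) ?_
        exact (min_le_right _ _).trans Nat.one_le_two_pow
      calc l ≤ Nat.size (2 ^ l - 1) + 1 := by omega
        _ ≤ κ * t (max (Nat.size (2 ^ l - 1)) 1) (min (Nat.size (2 ^ l - 1)) 1) := h3
        _ ≤ κ * t l (2 ^ sg) := Nat.mul_le_mul_left _ h4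
    set Q := 2 * κ * R with hQ
    have hQ1 : 2 ≤ Q := by
      rw [hQ]
      have : 1 ≤ κ * R := Nat.one_le_iff_ne_zero.2 (by positivity)
      calc 2 = 2 * 1 := rfl
        _ ≤ 2 * (κ * R) := Nat.mul_le_mul_left _ this
        _ = 2 * κ * R := by ring
    have hlQ : 2 ^ (lam - sg) ≤ Q := by
      have h5 : 2 ^ (lam - sg) * 2 ^ sg ≤ Q * 2 ^ sg := by
        rw [← pow_add, Nat.sub_add_cancel hsl]
        calc 2 ^ lam ≤ κ * t (2 ^ lam) (2 ^ sg) := hlow
          _ ≤ κ * (2 * R * 2 ^ sg) := Nat.mul_le_mul_left _ ht1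
          _ = Q * 2 ^ sg := by rw [hQ]; ring
      exact Nat.le_of_mul_le_mul_right h5 (by positivity)
    set bg := Nat.clog 2 Q with hbg
    have hb1 : Q ≤ 2 ^ bg := Nat.le_pow_clog (by norm_num) Q
    have hb2 : 2 ^ bg ≤ 2 * Q := by
      have := Nat.pow_pred_clog_lt_self (b := 2) (by norm_num) (x := Q) (by omega)
      have hpos : 0 < bg := Nat.clog_pos (by norm_num) hQ1
      rw [← hbg] at this
      have e : 2 ^ bg = 2 * 2 ^ (bg - 1) := by
        rw [← pow_succ']
        congr 1
        omega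
      rw [Nat.pred_eq_sub_one] at this
      omega
    have hb3 : lam - sg ≤ bg := by
      have : 2 ^ (lam - sg) ≤ 2 ^ bg := hlQ.trans hb1
      exact (Nat.pow_le_pow_iff_right (by norm_num)).1 this
    have hsz : sz (2 ^ lam) bg (bg - (lam - sg)) = 2 ^ sg := by
      unfold sz
      have e : bg - (bg - (lam - sg)) = lam - sg := by omega
      rw [e, Nat.pow_div (by omega) (by norm_num)]
      congr 1
      omega
    refine ⟨bg, bg - (lam - sg), by omega, Or.inr ?_, ?_⟩
    · rw [hsz]
      intro x y hx hy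
      refine mulWithin_mono (hM x y) ?_
      rw [len_natCast, len_natCast]
      have hx' : Nat.size x ≤ 2 ^ lam := Nat.size_le.2 hx
      have hy' : Nat.size y ≤ 2 ^ sg := Nat.size_le.2 hy
      have hsl2 : 2 ^ sg ≤ 2 ^ lam := h1.trans hs2
      calc t (max (Nat.size x) (Nat.size y)) (min (Nat.size x) (Nat.size y))
          ≤ t (2 ^ lam) (2 ^ sg) := hmono _ _ _ _ (by omega) (by omega)
        _ ≤ 2 * R * 2 ^ sg := ht1
        _ ≤ Q * 2 ^ sg := by
            refine Nat.mul_le_mul_right _ ?_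
            rw [hQ]
            calc 2 * R = 2 * 1 * R := by ring
              _ ≤ 2 * κ * R := Nat.mul_le_mul_right _ (Nat.mul_le_mul_left _ hκ1)
        _ ≤ 2 ^ bg * 2 ^ sg := Nat.mul_le_mul_right _ hb1
        _ = 2 ^ sg * 2 ^ bg := by ring
    · calc 2 ^ bg ≤ 2 * Q := hb2
        _ = 4 * κ * R := by rw [hQ]; ring
        _ ≤ (4 * κ + 2) * R := Nat.mul_le_mul_right _ (by omega)

end Pool.Agent.Borwein
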