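import Pool.Agent.Lib_MP_8c8a5b_lc.Attempt

set_option autoImplicit false
set_option linter.constructorNameAsVariable false

/-!
Multiplication of one block of `x` by `y`.
-/

namespace Pool.Agent.Borwein

open Turing Pool.Agent.PartSep.TM Pool.Agent.PartSep.TM.Prog

attribute [local instance] FinTM2.kFin

/-- the state after a multiplication of one block by `y` -/
def innerRes {tm : FinTM2} (w : Own → List (Sy tm)) (l b j : ℕ) (pr : List Bool) :
    Own → List (Sy tm) :=
  Function.update (Function.update (Function.update (Function.update (Function.update w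
    .yc []) .s (List.replicate (sz l b j) uu)) .b (List.replicate b uu)) .j
    (List.replicate j uu)) .hi (pr.map bt)

section

variable (tm : FinTM2) (ein : tm.Γ tm.k₀ ≃ Option Bool) (eout : tm.Γ tm.k₁ ≃ Bool)

/-- low digits shifted out -/
def lowp (h : List Bool) (k : ℕ) : List Bool :=
  (h.take k ++ List.replicate (k - h.length) false).reverse

theorem lowp_length (h : List Bool) (k : ℕ) : (lowp h k).length = k := by
  simp only [lowp, List.length_reverse, List.length_append, List.length_take,
    List.length_replicate]
  omega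

theorem step_val (x : ℕ) (yl hl hl1 : List Bool) (s : ℕ)
    (h : val hl1 = val hl + x * val (yl.take s)) (lo2 hl2 : List Bool)
    (h2 : val lo2.reverse + 2 ^ lo2.length * val hl2 =
      val (hl1.drop (yl.take s).length) + x * val (yl.drop s)) :
    val (lo2 ++ lowp hl1 (yl.take s).length).reverse +
      2 ^ (lo2 ++ lowp hl1 (yl.take s).length).length * val hl2 = val hl + x * val yl := by
  set k := (yl.take s).length with hk
  have e1 : val (lo2 ++ lowp hl1 k).reverse = val (hl1.take k) + 2 ^ k * val lo2.reverse := by
    rw [List.reverse_append, lowp, List.reverse_reverse, val_append, val_append,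
      val_replicate_false, List.length_append, List.length_take, List.length_replicate]
    rw [show min k hl1.length + (k - hl1.length) = k by omega]
    ring
  have e2 : val hl1 = val (hl1.take k) + 2 ^ k * val (hl1.drop k) := val_take_drop _ _
  have e3 : val yl = val (yl.take s) + 2 ^ k * val (yl.drop s) := by
    conv_lhs => rw [← List.take_append_drop s yl, val_append]
  rw [e1, List.length_append, lowp_length, pow_add, e3]
  have h3 : 2 ^ k * (val lo2.reverse + 2 ^ lo2.length * val hl2) =
      2 ^ k * (val (hl1.drop k) + x * val (yl.drop s)) := by rw [h2]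
  nlinarith [h3, e2, h]

/-- state of the inner loop -/
def ist (w : Own → List (Sy tm)) (yl hl lo : List Bool) (l b j : ℕ) : Own → List (Sy tm) :=
  Function.update (Function.update (Function.update (posUpd tm w l b j) .yc (yl.map bt)) .hi
    (hl.map bt)) .lo (lo.map bt)

/-- one digit of `y` -/
def bitP : Pr tm :=
  .seq (.case (Sum.inr .yc) (fun o => bif isOne o then
      (.seq (oCopy .xb .t2 .t1) (oAdd .hi .t2 .cy .t1)) else .skip))
    (.case (Sum.inr .hi) (fun o => match o with
      | none => oPush .lo (bt false)
      | some a => oPush .lo a))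

theorem bitP_runs (x l b j : ℕ) (w : Own → List (Sy tm)) (c : Bool) (yl hl lo : List Bool)
    (hxb : w .xb = (Nat.bits x).map bt) (h1 : w .t1 = []) (h2 : w .t2 = [])
    (hcy : w .cy = []) :
    ∃ hl1 : List Bool, val hl1 = val hl + x * val [c] ∧
      hl1.length ≤ max hl.length (Nat.bits x).length + 1 ∧
      Runs (bitP tm) (Sta (fun _ => []) (ist tm w (c :: yl) hl lo l b j))
        (Sta (fun _ => []) (ist tm w yl (hl1.drop 1) (lowp hl1 1 ++ lo) l b j))
        (30 * (1 + (Nat.bits x).length + hl.length)) := by
  have key : ∀ hl1 : List Bool, Runs (.case (Sum.inr .hi) (fun o => match o with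
      | none => oPush .lo (bt false)
      | some a => oPush .lo a) : Pr tm) (Sta (fun _ => []) (ist tm w yl hl1 lo l b j))
      (Sta (fun _ => []) (ist tm w yl (hl1.drop 1) (lowp hl1 1 ++ lo) l b j)) 2 := by
    intro hl1
    cases hl1 with
    | nil =>
      refine (oCase_nil (fun _ => [] : ∀ k, List (tm.Γ k)) (ist tm w yl [] lo l b j) .hi _ rfl
        (oPush_runs (fun _ => [] : ∀ k, List (tm.Γ k)) (ist tm w yl [] lo l b j) .lo
          (bt false))).congr ?_
      congr 1
      funext i
      simp only [Function.update_apply, ist, lowp]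
      split_ifs <;> simp_all
    | cons d hl1 =>
      refine (oCase_cons (fun _ => [] : ∀ k, List (tm.Γ k)) (ist tm w yl (d :: hl1) lo l b j)
        .hi _ (a := bt d) (l := hl1.map bt) rfl
        (oPush_runs (fun _ => [] : ∀ k, List (tm.Γ k)) _ .lo (bt d))).congr ?_
      congr 1
      funext i
      simp only [Function.update_apply, ist, lowp]
      split_ifs <;> simp_all
  have hpop : Function.update (ist tm w (c :: yl) hl lo l b j) .yc (yl.map bt) =
      ist tm w yl hl lo l b j := by
    funext i
    simp only [Function.update_apply, ist]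
    split_ifs <;> simp_all
  cases c with
  | false =>
    refine ⟨hl, by simp, by omega, ?_⟩
    have g1 : Runs (.case (Sum.inr .yc) (fun o => bif isOne o then
      (.seq (oCopy .xb .t2 .t1) (oAdd .hi .t2 .cy .t1)) else .skip) : Pr tm)
      (Sta (fun _ => []) (ist tm w (false :: yl) hl lo l b j))
      (Sta (fun _ => []) (ist tm w yl hl lo l b j)) 1 := by
      refine oCase_cons (fun _ => [] : ∀ k, List (tm.Γ k)) (ist tm w (false :: yl) hl lo l b j)
        .yc _ (a := bt false) (l := yl.map bt) rfl ?_
      rw [hpop]
      exact Runs.skip _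
    exact (g1.seq (key hl)).mono (by omega)
  | true =>
    refine ⟨addc hl (Nat.bits x) false, by simp [addc_val, val_bits], addc_length _ _ _, ?_⟩
    have g0 := oCopy_runs (fun _ => [] : ∀ k, List (tm.Γ k)) (ist tm w yl hl lo l b j)
      .xb .t2 .t1 h1 (by decide) (by decide) (by decide)
    have e0 : Function.update (ist tm w yl hl lo l b j) .t2 ((ist tm w yl hl lo l b j) .xb ++
        (ist tm w yl hl lo l b j) .t2) = Function.update (ist tm w yl hl lo l b j) .t2
        ((Nat.bits x).map bt) := by
      have e1 : (ist tm w yl hl lo l b j) .xb = (Nat.bits x).map bt := hxb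
      have e2 : (ist tm w yl hl lo l b j) .t2 = [] := h2
      rw [e1, e2, List.append_nil]
    rw [e0] at g0
    have e1 : (ist tm w yl hl lo l b j) .xb = (Nat.bits x).map bt := hxb
    rw [e1] at g0
    have g2 := oAdd_runs (fun _ => [] : ∀ k, List (tm.Γ k)) (Function.update
      (ist tm w yl hl lo l b j) .t2 ((Nat.bits x).map bt)) .hi .t2 .cy .t1 hl (Nat.bits x)
      (by rw [Function.update_self]) (by rw [Function.update_of_ne (by decide)]; rfl)
      (by rw [Function.update_of_ne (by decide)]; exact hcy)
      (by rw [Function.update_of_ne (by decide)]; exact h1)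
        (by decide) (by decide) (by decide) (by decide) (by decide) (by decide)
    have e2 : Function.update (Function.update (Function.update
      (ist tm w yl hl lo l b j) .t2 ((Nat.bits x).map bt)) .t2 []) .hi
      ((addc hl (Nat.bits x) false).map bt) = ist tm w yl (addc hl (Nat.bits x) false) lo l b j := by
      have e3 : (ist tm w yl hl lo l b j) .t2 = [] := h2
      funext i
      simp only [Function.update_apply, ist, posUpd]
      split_ifs <;> simp_all
    rw [e2] at g2
    have g1 : Runs (.case (Sum.inr .yc) (fun o => bif isOne o then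
      (.seq (oCopy .xb .t2 .t1) (oAdd .hi .t2 .cy .t1)) else .skip) : Pr tm)
      (Sta (fun _ => []) (ist tm w (true :: yl) hl lo l b j))
      (Sta (fun _ => []) (ist tm w yl (addc hl (Nat.bits x) false) lo l b j))
      ((7 * (Nat.bits x).length + 4 + (12 * (hl.length + (Nat.bits x).length) + 12)) + 1) := by
      refine oCase_cons (fun _ => [] : ∀ k, List (tm.Γ k)) (ist tm w (true :: yl) hl lo l b j)
        .yc _ (a := bt true) (l := yl.map bt) rfl ?_
      rw [hpop]
      refine (g0.seq g2).mono ?_
      simp only [List.length_map]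
      omega
    exact (g1.seq (key _)).mono (by omega)

/-- body of the inner loop -/
noncomputable def innerBody (a : Sy tm) : Pr tm :=
  .seq (oPush .yc a) (.case (Sum.inr .s) (fun o => match o with
    | none => bitP tm
    | some c => .seq (oPush .s c) (attP tm ein eout)))

/-- cost measure of the rest of `y` -/
def cst (l : ℕ) (yl : List Bool) : ℕ := if yl = [] then 0 else yl.length + l

theorem cst_drop (l s : ℕ) (yl : List Bool) (hyl : yl ≠ []) (hs : s ≤ l) :
    cst l (yl.drop s) + s ≤ cst l yl := by
  unfold cst
  rw [if_neg hyl]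
  split_ifs with h
  · omega
  · rw [List.length_drop]
    have : ¬ yl.length ≤ s := fun hh => h (List.drop_eq_nil_of_le hh)
    omega

theorem nxt_le (b j : ℕ) (hj : j ≤ b) : (nxt b j).2 ≤ (nxt b j).1 := by
  unfold nxt
  split_ifs with h
  · exact le_rfl
  · change j - 1 ≤ b
    omega

theorem nxt_bef (b j bg jg : ℕ) (hjg : jg ≤ bg) (h : Bef b j bg jg)
    (hne : ¬ (b = bg ∧ j = jg)) : Bef (nxt b j).1 (nxt b j).2 bg jg := by
  unfold nxt
  unfold Bef at h ⊢
  split_ifs with hj0
  · simp only
    omega
  · simp only
    omega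

/-- rank of a position -/
def rk (b j : ℕ) : ℕ := b * b + b - j

theorem rk_nxt (b j : ℕ) (hj : j ≤ b) : rk b j + 1 ≤ rk (nxt b j).1 (nxt b j).2 := by
  unfold nxt rk
  split_ifs with hj0
  · simp only
    have : (b + 1) * (b + 1) = b * b + 2 * b + 1 := by ring
    omega
  · simp only
    omega

theorem rk_le (b j bg jg : ℕ) (hjg : jg ≤ bg) (h : Bef b j bg jg) :
    rk b j ≤ rk bg jg := by
  unfold rk
  rcases h with h | ⟨rfl, h⟩
  · have : (b + 1) * (b + 1) ≤ bg * bg := Nat.mul_le_mul h h
    have : (b + 1) * (b + 1) = b * b + 2 * b + 1 := by ring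
    omega
  · omega

theorem used_nxt (l b j : ℕ) (hj : j ≤ b) :
    used l b j + l * 2 ^ j ≤ used l (nxt b j).1 (nxt b j).2 := by
  unfold used nxt
  rw [← Nat.mul_add]
  have hp : 2 ^ j ≤ 2 ^ b := Nat.pow_le_pow_right (by norm_num) hj
  split_ifs with hj0
  · subst hj0
    refine Nat.mul_le_mul_left _ ?_
    simp only [pow_succ, pow_zero]
    simp only [pow_zero] at hp
    omega
  · obtain ⟨i, rfl⟩ : ∃ i, j = i + 1 := ⟨j - 1, by omega⟩
    refine Nat.mul_le_mul_left _ ?_
    simp only [Nat.add_sub_cancel, pow_succ] at hp ⊢
    omega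

theorem sz_ne_zero (lam b j : ℕ) (h : sz (2 ^ lam) b j ≠ 0) : b - j ≤ lam := by
  by_contra hlt
  push Not at hlt
  apply h
  unfold sz
  rw [Nat.div_eq_zero_iff]
  right
  exact Nat.pow_lt_pow_right (by norm_num) hlt

theorem sz_zero (lam b j : ℕ) (h : sz (2 ^ lam) b j = 0) : 2 ^ lam < 2 ^ b := by
  unfold sz at h
  rw [Nat.div_eq_zero_iff] at h
  rcases h with h | h
  · exact absurd h (by positivity)
  · exact h.trans_le (Nat.pow_le_pow_right (by norm_num) (by omega))

theorem sz_mul (lam b j : ℕ) (hj : j ≤ b) (h : b - j ≤ lam) :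
    sz (2 ^ lam) b j * 2 ^ b = 2 ^ lam * 2 ^ j := by
  unfold sz
  rw [Nat.pow_div h (by norm_num), ← pow_add, ← pow_add]
  congr 1
  omega

theorem push_back (w : Own → List (Sy tm)) (k : Own) (a : Sy tm) (l : List (Sy tm))
    (hk : w k = a :: l) :
    Runs (oPush k a) (Sta (fun _ => [] : ∀ k, List (tm.Γ k)) (Function.update w k l))
      (Sta (fun _ => []) w) 1 := by
  refine (oPush_runs (fun _ => [] : ∀ k, List (tm.Γ k)) (Function.update w k l) k a).congr ?_
  rw [Function.update_self, Function.update_idem, ← hk, Function.update_eq_self]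

theorem innerLoop_runs (C0 : ℕ) (hC0 : ∀ l, scost (tm.m l) ≤ C0) (h1C : 1 ≤ C0)
    (hM : ∀ x y : ℤ, ∃ n, MulWithin tm ein eout x y n) (lam bg jg : ℕ) (hjg : jg ≤ bg)
    (hgood : Good tm ein eout (2 ^ lam) bg jg) (x : ℕ) (hx : x < 2 ^ (2 ^ lam))
    (w : Own → List (Sy tm)) (hxb : w .xb = (Nat.bits x).map bt)
    (hll : w .l = List.replicate (2 ^ lam) uu) (hclk : w .clk = []) (h1 : w .t1 = [])
    (h2 : w .t2 = []) (h3 : w .t3 = []) (h4 : w .t4 = []) (hcy : w .cy = []) (hq : w .q = [])
    (D : ℕ) (hD : 200 + 10 * C0 + 2 * Fintype.card tm.K ≤ D) :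
    ∀ (m b j : ℕ) (yl hl lo : List Bool), j ≤ b → Bef b j bg jg →
      rk bg jg - rk b j + yl.length ≤ m → hl.length ≤ 2 ^ lam + 1 →
      ∃ (b' j' n : ℕ) (hl' lo' : List Bool), j' ≤ b' ∧ Bef b' j' bg jg ∧
        lo'.length = yl.length ∧ hl'.length ≤ 2 ^ lam + 1 ∧
        val lo'.reverse + 2 ^ lo'.length * val hl' = val hl + x * val yl ∧
        Runs (.loop (Sum.inr .yc) (innerBody tm ein eout))
          (Sta (fun _ => []) (ist tm w yl hl lo (2 ^ lam) b j))
          (Sta (fun _ => []) (ist tm w [] hl' (lo' ++ lo) (2 ^ lam) b' j')) n ∧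
        n + 3 * yl.length + (8 * D + 8) * used (2 ^ lam) b j ≤
          (8 * D + 8) * (2 ^ bg * cst (2 ^ lam) yl) + (8 * D + 8) * used (2 ^ lam) b' j' + 2 := by
  have hbx : (Nat.bits x).length ≤ 2 ^ lam := length_bits_le _ _ hx
  have hlam : 1 ≤ 2 ^ lam := Nat.one_le_two_pow
  intro m
  induction m with
  | zero =>
    intro b j yl hl lo hj hbef hm hhl
    have hyl : yl = [] := List.eq_nil_of_length_eq_zero (by omega)
    subst hyl
    refine ⟨b, j, 2, hl, [], hj, hbef, rfl, hhl, by simp, ?_, ?_⟩
    · exact oLoop_nil (fun _ => [] : ∀ k, List (tm.Γ k)) _ .yc _ rfl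
    · simp only [List.length_nil]
      omega
  | succ m ih =>
    intro b j yl hl lo hj hbef hm hhl
    cases yl with
    | nil =>
      refine ⟨b, j, 2, hl, [], hj, hbef, rfl, hhl, by simp, ?_, ?_⟩
      · exact oLoop_nil (fun _ => [] : ∀ k, List (tm.Γ k)) _ .yc _ rfl
      · simp only [List.length_nil]
        omega
    | cons c yl =>
      set st := ist tm w (c :: yl) hl lo (2 ^ lam) b j with hst
      have hpb := push_back tm st .yc (bt c) (yl.map bt) rfl
      have hbbg : b ≤ bg := by unfold Bef at hbef; omega
      have hpbg : 2 ^ b ≤ 2 ^ bg := Nat.pow_le_pow_right (by norm_num) hbbg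
      by_cases hs : sz (2 ^ lam) b j = 0
      · -- one digit
        obtain ⟨hl1, hv1, hlen1, hr1⟩ := bitP_runs tm x (2 ^ lam) b j w c yl hl lo hxb h1 h2 hcy
        have hlt := sz_zero lam b j hs
        have hlen2 : (hl1.drop 1).length ≤ 2 ^ lam + 1 := by
          rw [List.length_drop]
          omega
        obtain ⟨b', j', n, hl', lo', hj', hbef', hlo', hhl', hval, hrun, hcost⟩ :=
          ih b j yl (hl1.drop 1) (lowp hl1 1 ++ lo) hj hbef
            (by simp only [List.length_cons] at hm; omega) hlen2
        have hbody : Runs (innerBody tm ein eout (bt c)) (Sta (fun _ => [])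
            (Function.update st .yc (yl.map bt))) (Sta (fun _ => [])
            (ist tm w yl (hl1.drop 1) (lowp hl1 1 ++ lo) (2 ^ lam) b j))
            (1 + (30 * (1 + (Nat.bits x).length + hl.length) + 1)) := by
          refine hpb.seq (oCase_nil (fun _ => [] : ∀ k, List (tm.Γ k)) st .s _ ?_ hr1)
          change List.replicate (sz (2 ^ lam) b j) uu = []
          rw [hs]; rfl
        refine ⟨b', j', _, hl', lo' ++ lowp hl1 1, hj', hbef', ?_, hhl', ?_,
          (oLoop_cons (fun _ => [] : ∀ k, List (tm.Γ k)) st .yc _ (a := bt c)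
            (l := yl.map bt) rfl hbody hrun).congr (by rw [List.append_assoc]), ?_⟩
        · simp only [List.length_append, lowp_length, hlo', List.length_cons]
        · exact step_val x (c :: yl) hl hl1 1 (by simpa using hv1) lo' hl' (by simpa using hval)
        · have hcst := cst_drop (2 ^ lam) 1 (c :: yl) (by simp) hlam
          rw [List.drop_one, List.tail_cons] at hcst
          have e1 : (8 * D + 8) * (2 ^ bg * cst (2 ^ lam) yl) + (8 * D + 8) * 2 ^ bg ≤
              (8 * D + 8) * (2 ^ bg * cst (2 ^ lam) (c :: yl)) := by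
            rw [← Nat.mul_add]
            refine Nat.mul_le_mul_left _ ?_
            calc 2 ^ bg * cst (2 ^ lam) yl + 2 ^ bg = 2 ^ bg * (cst (2 ^ lam) yl + 1) := by ring
              _ ≤ _ := Nat.mul_le_mul_left _ hcst
          have e2 : (8 * 200 + 8) * 2 ^ bg ≤ (8 * D + 8) * 2 ^ bg :=
            Nat.mul_le_mul_right _ (by omega)
          simp only [List.length_cons]
          omega
      · -- attempt
        have hle := sz_ne_zero lam b j hs
        set s := sz (2 ^ lam) b j with hsdef
        have hsl : s ≤ 2 ^ lam := sz_le _ _ _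
        have hmul : s * 2 ^ b = 2 ^ lam * 2 ^ j := sz_mul lam b j hj hle
        have hs1 : 1 ≤ s := Nat.one_le_iff_ne_zero.2 hs
        obtain ⟨s', hs'⟩ : ∃ s', s = s' + 1 := ⟨s - 1, by omega⟩
        have hss : st .s = uu :: List.replicate s' uu := by
          change List.replicate s uu = _
          rw [hs', List.replicate_succ]
        have hpb2 := push_back tm st .s uu (List.replicate s' uu) hss
        have hj2 : 1 ≤ 2 ^ j := Nat.one_le_two_pow
        have hl2j : 2 ^ lam ≤ 2 ^ lam * 2 ^ j := Nat.le_mul_of_pos_right _ (by positivity)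
        have hb2j : b ≤ 2 * (2 ^ lam * 2 ^ j) := by
          have a1 : lam < 2 ^ lam := Nat.lt_two_pow_self
          have a2 : j < 2 ^ j := Nat.lt_two_pow_self
          have a3 : 2 ^ j ≤ 2 ^ lam * 2 ^ j := Nat.le_mul_of_pos_left _ (by positivity)
          omega
        have hatt := attP_runs tm ein eout C0 hC0 h1C hM (2 ^ lam) b j hj st x (c :: yl) hl
          hxb rfl hll rfl rfl rfl rfl hclk h1 h2 h3 h4 hcy hq
        rw [← hsdef] at hatt
        have hE : 1 + s * 2 ^ b + (Nat.bits x).length + 2 ^ lam + hl.length + b ≤
            8 * (2 ^ lam * 2 ^ j) := by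
          rw [hmul]
          omega
        have hmul2 : 2 ^ lam * 2 ^ j ≤ s * 2 ^ bg := by
          rw [← hmul]
          exact Nat.mul_le_mul_left _ hpbg
        rcases hatt with hsucc | ⟨hno, hfail⟩
        · -- success
          set z := (c :: yl).take s with hz
          set hl1 := addc hl (Nat.bits (x * val z)) false with hl1def
          have hv1 : val hl1 = val hl + x * val z := by
            rw [hl1def, addc_val, val_bits]
            rfl
          have hzlen : 1 ≤ z.length := by
            rw [hz, List.length_take, List.length_cons]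
            omega
          have hzs : z.length ≤ s := by rw [hz, List.length_take]; exact min_le_left _ _
          have hbz : (Nat.bits (x * val z)).length ≤ 2 ^ lam + z.length := by
            refine length_bits_le _ _ ?_
            rw [pow_add]
            exact Nat.mul_lt_mul'' hx (val_lt z)
          have hlen2 : (hl1.drop z.length).length ≤ 2 ^ lam + 1 := by
            rw [List.length_drop]
            have := addc_length hl (Nat.bits (x * val z)) false
            rw [← hl1def] at this
            omega
          obtain ⟨b', j', n, hl', lo', hj', hbef', hlo', hhl', hval, hrun, hcost⟩ :=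
            ih b j ((c :: yl).drop s) (hl1.drop z.length) (lowp hl1 z.length ++ lo) hj hbef
              (by
                rw [List.length_drop]
                simp only [List.length_cons] at hm ⊢
                omega) hlen2
          have est : succUpd tm (Function.update (Function.update st .yc
              (((c :: yl).drop s).map bt)) .t3 (z.map bt)) hl (x * val z) =
              ist tm w ((c :: yl).drop s) (hl1.drop z.length) (lowp hl1 z.length ++ lo)
                (2 ^ lam) b j := by
            have e3 : (Function.update (Function.update st .yc (((c :: yl).drop s).map bt)) .t3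
              (z.map bt)) .t3 = z.map bt := by rw [Function.update_self]
            have e4 : (Function.update (Function.update st .yc (((c :: yl).drop s).map bt)) .t3
              (z.map bt)) .lo = lo.map bt := by
              rw [Function.update_of_ne (by decide), Function.update_of_ne (by decide)]
              rfl
            rw [succUpd, e3, e4, ← hl1def, List.length_map]
            rw [hst]
            funext i
            simp only [Function.update_apply, ist, lowp, posUpd]
            split_ifs <;> simp_all
          rw [est] at hsucc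
          have hbody : Runs (innerBody tm ein eout (bt c)) (Sta (fun _ => [])
              (Function.update st .yc (yl.map bt))) (Sta (fun _ => [])
              (ist tm w ((c :: yl).drop s) (hl1.drop z.length) (lowp hl1 z.length ++ lo)
                (2 ^ lam) b j)) (1 + ((1 + (200 + 10 * C0) * (1 + s * 2 ^ b +
                (Nat.bits x).length + 2 ^ lam + hl.length + b)) + 1)) :=
            hpb.seq (oCase_cons (fun _ => [] : ∀ k, List (tm.Γ k)) st .s _ hss
              (hpb2.seq hsucc))
          refine ⟨b', j', _, hl', lo' ++ lowp hl1 z.length, hj', hbef', ?_, hhl', ?_,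
            (oLoop_cons (fun _ => [] : ∀ k, List (tm.Γ k)) st .yc _ (a := bt c)
              (l := yl.map bt) rfl hbody hrun).congr (by rw [List.append_assoc]), ?_⟩
          · simp only [List.length_append, lowp_length, hlo']
            rw [List.length_drop, hz, List.length_take]
            omega
          · exact step_val x (c :: yl) hl hl1 s hv1 lo' hl' hval
          · have hcst := cst_drop (2 ^ lam) s (c :: yl) (by simp) hsl
            have e1 : (8 * D + 8) * (2 ^ bg * cst (2 ^ lam) ((c :: yl).drop s)) +
                (8 * D + 8) * (s * 2 ^ bg) ≤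
                (8 * D + 8) * (2 ^ bg * cst (2 ^ lam) (c :: yl)) := by
              rw [← Nat.mul_add]
              refine Nat.mul_le_mul_left _ ?_
              calc 2 ^ bg * cst (2 ^ lam) ((c :: yl).drop s) + s * 2 ^ bg =
                  2 ^ bg * (cst (2 ^ lam) ((c :: yl).drop s) + s) := by ring
                _ ≤ _ := Nat.mul_le_mul_left _ hcst
            have e2 : (200 + 10 * C0) * (1 + s * 2 ^ b + (Nat.bits x).length + 2 ^ lam +
                hl.length + b) ≤ D * (8 * (s * 2 ^ bg)) :=
              Nat.mul_le_mul (by omega) (by omega)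
            have e3 : (8 * D + 8) * (s * 2 ^ bg) = D * (8 * (s * 2 ^ bg)) + 8 * (s * 2 ^ bg) := by
              ring
            have e4 : s ≤ s * 2 ^ bg := Nat.le_mul_of_pos_right _ (by positivity)
            have e5 : (c :: yl).length ≤ ((c :: yl).drop s).length + s := by
              rw [List.length_drop]; omega
            omega
        · -- failure
          have hne : ¬ (b = bg ∧ j = jg) := by
            rintro ⟨rfl, rfl⟩
            rcases hgood with h0 | h0
            · exact hs h0
            · refine hno (h0 x _ hx ?_)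
              refine (val_lt _).trans_le (Nat.pow_le_pow_right (by norm_num) ?_)
              rw [List.length_take]
              exact min_le_left _ _
          have hbef2 := nxt_bef b j bg jg hjg hbef hne
          have hj2' := nxt_le b j hj
          have hrk := rk_nxt b j hj
          have hrk2 := rk_le _ _ bg jg hjg hbef2
          obtain ⟨b', j', n, hl', lo', hj', hbef', hlo', hhl', hval, hrun, hcost⟩ :=
            ih (nxt b j).1 (nxt b j).2 (c :: yl) hl lo hj2' hbef2 (by omega) hhl
          have est : posUpd tm st (2 ^ lam) (nxt b j).1 (nxt b j).2 =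
              ist tm w (c :: yl) hl lo (2 ^ lam) (nxt b j).1 (nxt b j).2 := by
            rw [hst]
            funext i
            simp only [Function.update_apply, ist, posUpd]
            split_ifs <;> simp_all
          rw [est] at hfail
          have hbody : Runs (innerBody tm ein eout (bt c)) (Sta (fun _ => [])
              (Function.update st .yc (yl.map bt))) (Sta (fun _ => [])
              (ist tm w (c :: yl) hl lo (2 ^ lam) (nxt b j).1 (nxt b j).2)) (1 + ((1 +
                (200 + 10 * C0 + 2 * Fintype.card tm.K) * (1 + s * 2 ^ b +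
                (Nat.bits x).length + 2 ^ lam + hl.length + b)) + 1)) :=
            hpb.seq (oCase_cons (fun _ => [] : ∀ k, List (tm.Γ k)) st .s _ hss
              (hpb2.seq hfail))
          refine ⟨b', j', _, hl', lo', hj', hbef', hlo', hhl', hval,
            oLoop_cons (fun _ => [] : ∀ k, List (tm.Γ k)) st .yc _ (a := bt c)
              (l := yl.map bt) rfl hbody hrun, ?_⟩
          have hused := used_nxt (2 ^ lam) b j hj
          have e1 : (8 * D + 8) * used (2 ^ lam) b j + (8 * D + 8) * (2 ^ lam * 2 ^ j) ≤
              (8 * D + 8) * used (2 ^ lam) (nxt b j).1 (nxt b j).2 := by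
            rw [← Nat.mul_add]
            exact Nat.mul_le_mul_left _ hused
          have e2 : (200 + 10 * C0 + 2 * Fintype.card tm.K) * (1 + s * 2 ^ b +
              (Nat.bits x).length + 2 ^ lam + hl.length + b) ≤ D * (8 * (2 ^ lam * 2 ^ j)) :=
            Nat.mul_le_mul hD hE
          have e3 : (8 * D + 8) * (2 ^ lam * 2 ^ j) = D * (8 * (2 ^ lam * 2 ^ j)) +
              8 * (2 ^ lam * 2 ^ j) := by ring
          omega

end

theorem inner_exists (tm : FinTM2) (ein : tm.Γ tm.k₀ ≃ Option Bool) (eout : tm.Γ tm.k₁ ≃ Bool)
    (hM : ∀ x y : ℤ, ∃ n, MulWithin tm ein eout x y n) :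
    ∃ (P : Pr tm) (C : ℕ), ∀ (lam bg jg b j : ℕ) (w : Own → List (Sy tm)) (xv : ℕ)
      (yl : List Bool), jg ≤ bg → j ≤ b → Bef b j bg jg → Good tm ein eout (2 ^ lam) bg jg →
      xv < 2 ^ (2 ^ lam) → w .xb = (Nat.bits xv).map bt → w .yc = yl.map bt →
      w .l = List.replicate (2 ^ lam) uu → w .s = List.replicate (sz (2 ^ lam) b j) uu →
      w .b = List.replicate b uu → w .j = List.replicate j uu → w .hi = [] → w .lo = [] →
      w .clk = [] → w .t1 = [] → w .t2 = [] → w .t3 = [] → w .t4 = [] → w .cy = [] →
      w .q = [] →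
      ∃ (b' j' n : ℕ) (pr : List Bool), j' ≤ b' ∧ Bef b' j' bg jg ∧ val pr = xv * val yl ∧
        pr.length ≤ yl.length + 2 ^ lam + 1 ∧
        Runs P (Sta (fun _ => []) w) (Sta (fun _ => []) (innerRes w (2 ^ lam) b' j' pr)) n ∧
        n + C * used (2 ^ lam) b j ≤
          C * (2 ^ bg * (yl.length + 2 ^ lam + 1) + used (2 ^ lam) b' j') := by
  have hfin : ∃ C0 : ℕ, (∀ l, scost (tm.m l) ≤ C0) ∧ 1 ≤ C0 := by
    have := tm.ΛFin
    refine ⟨Finset.univ.sup (fun l => scost (tm.m l)) + 1, fun l => ?_, by omega⟩
    exact (Finset.le_sup (f := fun l => scost (tm.m l)) (Finset.mem_univ l)).trans (by omega)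
  obtain ⟨C0, hC0, h1C⟩ := hfin
  set D := 200 + 10 * C0 + 2 * Fintype.card tm.K with hD
  refine ⟨.seq (.loop (Sum.inr .yc) (innerBody tm ein eout)) (oRev .lo .hi), 8 * D + 8, ?_⟩
  intro lam bg jg b j w xv yl hjg hj hbef hgood hx hxb hyc hll hs hb hjj hhi hlo hclk h1 h2 h3 h4
    hcy hq
  obtain ⟨b', j', n, hl', lo', hj', hbef', hlo', hhl', hval, hrun, hcost⟩ :=
    innerLoop_runs tm ein eout C0 hC0 h1C hM lam bg jg hjg hgood xv hx w hxb hll hclk h1 h2 h3 h4
      hcy hq D le_rfl (rk bg jg - rk b j + yl.length) b j yl [] [] hj hbef le_rfl (by simp)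
  have e0 : ist tm w yl [] [] (2 ^ lam) b j = w := by
    funext i
    simp only [Function.update_apply, ist, posUpd]
    split_ifs <;> simp_all
  rw [e0, List.append_nil] at hrun
  have g2 := oRev_runs (fun _ => [] : ∀ k, List (tm.Γ k)) (ist tm w [] hl' lo' (2 ^ lam) b' j')
    .lo .hi (by decide)
  have el : (ist tm w [] hl' lo' (2 ^ lam) b' j') .lo = lo'.map bt := rfl
  rw [el] at g2
  refine ⟨b', j', n + (3 * lo'.length + 2), lo'.reverse ++ hl', hj', hbef', ?_, ?_,
    ((hrun.seq g2).mono (by rw [List.length_map])).congr ?_, ?_⟩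
  · rw [val_append, List.length_reverse, hval, val_nil, zero_add]
  · rw [List.length_append, List.length_reverse]
    omega
  · congr 1
    funext i
    simp only [Function.update_apply, ist, posUpd, innerRes]
    split_ifs <;> simp_all
  · have hcst : cst (2 ^ lam) yl ≤ yl.length + 2 ^ lam := by
      unfold cst
      split_ifs
      · exact Nat.zero_le _
      · exact le_rfl
    have e1 : (8 * D + 8) * (2 ^ bg * cst (2 ^ lam) yl) ≤
        (8 * D + 8) * (2 ^ bg * (yl.length + 2 ^ lam)) :=
      Nat.mul_le_mul_left _ (Nat.mul_le_mul_left _ hcst)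
    have e2 : (8 * D + 8) * (2 ^ bg * (yl.length + 2 ^ lam + 1) + used (2 ^ lam) b' j') =
        (8 * D + 8) * (2 ^ bg * (yl.length + 2 ^ lam)) + (8 * D + 8) * 2 ^ bg +
          (8 * D + 8) * used (2 ^ lam) b' j' := by ring
    have e3 : (8 * 1 + 0) * 1 ≤ (8 * D + 8) * 2 ^ bg :=
      Nat.mul_le_mul (by omega) Nat.one_le_two_pow
    rw [e2, hlo']
    omega

end Pool.Agent.Borwein
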