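import Pool.Agent.Lib_MP_8c8a5b_lc.Bits

set_option autoImplicit false

/-!
Computing the block length.
-/

namespace Pool.Agent.Borwein

open Turing Pool.Agent.PartSep.TM Pool.Agent.PartSep.TM.Prog

variable {K' : Type} {Γ' : K' → Type} {Λ' σ' : Type}

/-- own stacks with the four stacks used here replaced -/
def LZ (w : Own → List (Sym Γ' Λ' σ')) (a b c e : List (Sym Γ' Λ' σ')) :
    Own → List (Sym Γ' Λ' σ') := fun o => match o with
  | .nn => a
  | .t1 => b
  | .g => c
  | .l => e
  | o => w o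

section
variable [DecidableEq K']

theorem LZ_nn (T : ∀ k, List (Γ' k)) (w : Own → List (Sym Γ' Λ' σ'))
    (a b c e x : List (Sym Γ' Λ' σ')) :
    Function.update (Sta T (LZ w a b c e)) (Sum.inr .nn) x = Sta T (LZ w x b c e) := by
  rw [Sta_update_inr]
  congr 1
  funext o
  cases o <;> simp [LZ, Function.update]

theorem LZ_t1 (T : ∀ k, List (Γ' k)) (w : Own → List (Sym Γ' Λ' σ'))
    (a b c e x : List (Sym Γ' Λ' σ')) :
    Function.update (Sta T (LZ w a b c e)) (Sum.inr .t1) x = Sta T (LZ w a x c e) := by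
  rw [Sta_update_inr]
  congr 1
  funext o
  cases o <;> simp [LZ, Function.update]

theorem LZ_g (T : ∀ k, List (Γ' k)) (w : Own → List (Sym Γ' Λ' σ'))
    (a b c e x : List (Sym Γ' Λ' σ')) :
    Function.update (Sta T (LZ w a b c e)) (Sum.inr .g) x = Sta T (LZ w a b x e) := by
  rw [Sta_update_inr]
  congr 1
  funext o
  cases o <;> simp [LZ, Function.update]

theorem LZ_l (T : ∀ k, List (Γ' k)) (w : Own → List (Sym Γ' Λ' σ'))
    (a b c e x : List (Sym Γ' Λ' σ')) :
    Function.update (Sta T (LZ w a b c e)) (Sum.inr .l) x = Sta T (LZ w a b c x) := by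
  rw [Sta_update_inr]
  congr 1
  funext o
  cases o <;> simp [LZ, Function.update]

end

section
variable [DecidableEq K'] {T : ∀ k, List (Γ' k)} {w : Own → List (Sym Γ' Λ' σ')}
  {b c e l : List (Sym Γ' Λ' σ')} {x : Sym Γ' Λ' σ'} {S' S'' : K' ⊕ Own → List (Sym Γ' Λ' σ')}
  {t t' : ℕ} {body : Sym Γ' Λ' σ' → Prog (K' ⊕ Own) (Sym Γ' Λ' σ')}

theorem LZ_nn_cons (h : Runs (body x) (Sta T (LZ w l b c e)) S' t)
    (h' : Runs (.loop (Sum.inr .nn) body) S' S'' t') :
    Runs (.loop (Sum.inr .nn) body) (Sta T (LZ w (x :: l) b c e)) S'' (t + t' + 2) := by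
  refine Runs.loop_cons (S := Sta T (LZ w (x :: l) b c e)) (a := x) (l := l) rfl ?_ h'
  rw [LZ_nn]
  exact h

theorem LZ_g_cons (h : Runs (body x) (Sta T (LZ w b c l e)) S' t)
    (h' : Runs (.loop (Sum.inr .g) body) S' S'' t') :
    Runs (.loop (Sum.inr .g) body) (Sta T (LZ w b c (x :: l) e)) S'' (t + t' + 2) := by
  refine Runs.loop_cons (S := Sta T (LZ w b c (x :: l) e)) (a := x) (l := l) rfl ?_ h'
  rw [LZ_g]
  exact h

theorem LZ_l_cons (h : Runs (body x) (Sta T (LZ w b c e l)) S' t)
    (h' : Runs (.loop (Sum.inr .l) body) S' S'' t') :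
    Runs (.loop (Sum.inr .l) body) (Sta T (LZ w b c e (x :: l))) S'' (t + t' + 2) := by
  refine Runs.loop_cons (S := Sta T (LZ w b c e (x :: l))) (a := x) (l := l) rfl ?_ h'
  rw [LZ_l]
  exact h

theorem LZ_nn_case {body : Option (Sym Γ' Λ' σ') → Prog (K' ⊕ Own) (Sym Γ' Λ' σ')}
    (h : Runs (body (some x)) (Sta T (LZ w l b c e)) S' t) :
    Runs (.case (Sum.inr .nn) body) (Sta T (LZ w (x :: l) b c e)) S' (t + 1) := by
  refine Runs.case_cons (S := Sta T (LZ w (x :: l) b c e)) (a := x) (l := l) rfl ?_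
  rw [LZ_nn]
  exact h

theorem LZ_g_case {body : Option (Sym Γ' Λ' σ') → Prog (K' ⊕ Own) (Sym Γ' Λ' σ')}
    (h : Runs (body (some x)) (Sta T (LZ w b c l e)) S' t) :
    Runs (.case (Sum.inr .g) body) (Sta T (LZ w b c (x :: l) e)) S' (t + 1) := by
  refine Runs.case_cons (S := Sta T (LZ w b c (x :: l) e)) (a := x) (l := l) rfl ?_
  rw [LZ_g]
  exact h

theorem LZ_nn_push : Runs (.push (Sum.inr .nn) x) (Sta T (LZ w b c e l))
    (Sta T (LZ w (x :: b) c e l)) 1 := by
  refine (Runs.push _ _ _).congr ?_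
  rw [LZ_nn]; rfl

theorem LZ_t1_push : Runs (.push (Sum.inr .t1) x) (Sta T (LZ w b c e l))
    (Sta T (LZ w b (x :: c) e l)) 1 := by
  refine (Runs.push _ _ _).congr ?_
  rw [LZ_t1]; rfl

theorem LZ_g_push : Runs (.push (Sum.inr .g) x) (Sta T (LZ w b c e l))
    (Sta T (LZ w b c (x :: e) l)) 1 := by
  refine (Runs.push _ _ _).congr ?_
  rw [LZ_g]; rfl

theorem LZ_l_push : Runs (.push (Sum.inr .l) x) (Sta T (LZ w b c e l))
    (Sta T (LZ w b c e (x :: l))) 1 := by
  refine (Runs.push _ _ _).congr ?_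
  rw [LZ_l]; rfl

end

/-- take every second symbol -/
def halfLoop : Prog (K' ⊕ Own) (Sym Γ' Λ' σ') :=
  .loop (Sum.inr .nn) (fun _ => .seq (.case (Sum.inr .nn) (fun _ => .skip))
    (.push (Sum.inr .t1) uu))

/-- halve the counter until it is zero, counting the steps -/
def logProg : Prog (K' ⊕ Own) (Sym Γ' Λ' σ') :=
  .loop (Sum.inr .nn) (fun _ => .seq halfLoop (.seq (.loop (Sum.inr .t1)
    (fun a => .push (Sum.inr .nn) a)) (.push (Sum.inr .g) uu)))

/-- remove symbols -/
def dropProg : ℕ → Prog (K' ⊕ Own) (Sym Γ' Λ' σ')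
  | 0 => .skip
  | n + 1 => .case (Sum.inr .g) (fun _ => dropProg n)

/-- repeated doubling -/
def powProg : Prog (K' ⊕ Own) (Sym Γ' Λ' σ') :=
  .loop (Sum.inr .g) (fun _ => .seq (.loop (Sum.inr .l) (fun _ => .seq
    (.push (Sum.inr .t1) uu) (.push (Sum.inr .t1) uu)))
    (.loop (Sum.inr .t1) (fun a => .push (Sum.inr .l) a)))

variable [DecidableEq K']

theorem halfLoop_runs (T : ∀ k, List (Γ' k)) (w : Own → List (Sym Γ' Λ' σ'))
    (c e : List (Sym Γ' Λ' σ')) : ∀ (M : ℕ) (b : List (Sym Γ' Λ' σ')),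
    Runs halfLoop (Sta T (LZ w (List.replicate M uu) b c e))
      (Sta T (LZ w [] (List.replicate ((M + 1) / 2) uu ++ b) c e)) (4 * ((M + 1) / 2) + 2) := by
  intro M
  induction M using Nat.strong_induction_on with
  | _ M ih =>
    intro b
    match M, ih with
    | 0, _ => exact Runs.loop_nil rfl
    | 1, ih =>
      have h1 : Runs (.seq (.case (Sum.inr .nn) (fun _ => .skip)) (.push (Sum.inr .t1) uu))
          (Sta T (LZ w [] b c e)) (Sta T (LZ w [] (uu :: b) c e)) 2 := by
        exact (Runs.case_nil (S := Sta T (LZ w [] b c e)) rfl (Runs.skip _)).seq LZ_t1_push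
      exact (LZ_nn_cons (x := uu) (l := []) h1 (ih 0 (by omega) (uu :: b))).mono (by norm_num)
    | M + 2, ih =>
      have h1 : Runs (.seq (.case (Sum.inr .nn) (fun _ => .skip)) (.push (Sum.inr .t1) uu))
          (Sta T (LZ w (List.replicate (M + 1) uu) b c e))
          (Sta T (LZ w (List.replicate M uu) (uu :: b) c e)) 2 :=
        (LZ_nn_case (x := uu) (l := List.replicate M uu) (Runs.skip _)).seq LZ_t1_push
      have h2 := ih M (by omega) (uu :: b)
      have e1 : (M + 2 + 1) / 2 = (M + 1) / 2 + 1 := by omega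
      refine ((LZ_nn_cons (x := uu) (l := List.replicate (M + 1) uu) h1 h2).mono
        (by omega)).congr ?_
      rw [e1, List.replicate_succ', List.append_assoc]
      rfl

theorem logProg_runs (T : ∀ k, List (Γ' k)) (w : Own → List (Sym Γ' Λ' σ'))
    (e : List (Sym Γ' Λ' σ')) : ∀ (N : ℕ) (c : List (Sym Γ' Λ' σ')),
    Runs logProg (Sta T (LZ w (List.replicate N uu) [] c e))
      (Sta T (LZ w [] [] (List.replicate (if N = 0 then 0 else Nat.log 2 N + 1) uu ++ c) e))
      (22 * N + 2) := by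
  intro N
  induction N using Nat.strong_induction_on with
  | _ N ih =>
    intro c
    match N, ih with
    | 0, _ => exact Runs.loop_nil rfl
    | N + 1, ih =>
      have h1 := halfLoop_runs T w c e N []
      rw [List.append_nil] at h1
      have h2 := runs_rev (Sum.inr .t1) (Sum.inr .nn) (by simp) (List.replicate ((N + 1) / 2) uu)
        (Sta T (LZ w [] (List.replicate ((N + 1) / 2) uu) c e)) rfl
      rw [LZ_t1, LZ_nn] at h2
      have h2' : Runs (.loop (Sum.inr .t1) (fun a => .push (Sum.inr .nn) a))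
          (Sta T (LZ w [] (List.replicate ((N + 1) / 2) uu) c e))
          (Sta T (LZ w (List.replicate ((N + 1) / 2) uu) [] c e)) (3 * ((N + 1) / 2) + 2) := by
        refine (h2.mono (by simp)).congr ?_
        simp [LZ]
      have h3 : Runs (.push (Sum.inr .g) uu) (Sta T (LZ w (List.replicate ((N + 1) / 2) uu) [] c e))
          (Sta T (LZ w (List.replicate ((N + 1) / 2) uu) [] (uu :: c) e)) 1 := LZ_g_push
      have h4 := ih ((N + 1) / 2) (by omega) (uu :: c)
      refine ((LZ_nn_cons (x := uu) (l := List.replicate N uu) (h1.seq (h2'.seq h3)) h4).mono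
        (by omega)).congr ?_
      have e1 : (if N + 1 = 0 then 0 else Nat.log 2 (N + 1) + 1) =
          (if (N + 1) / 2 = 0 then 0 else Nat.log 2 ((N + 1) / 2) + 1) + 1 := by
        rw [if_neg (by omega)]
        by_cases h : (N + 1) / 2 = 0
        · rw [if_pos h]
          have : N = 0 := by omega
          subst this
          simp
        · rw [if_neg h, Nat.log_of_one_lt_of_le (by omega) (by omega : 2 ≤ N + 1)]
      rw [e1, List.replicate_succ', List.append_assoc]
      rfl

theorem dropProg_runs (T : ∀ k, List (Γ' k)) (w : Own → List (Sym Γ' Λ' σ'))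
    (e : List (Sym Γ' Λ' σ')) : ∀ (n k : ℕ),
    Runs (dropProg n) (Sta T (LZ w [] [] (List.replicate k uu) e))
      (Sta T (LZ w [] [] (List.replicate (k - n) uu) e)) n := by
  intro n
  induction n with
  | zero => intro k; exact Runs.skip _
  | succ n ih =>
    intro k
    cases k with
    | zero =>
      refine (Runs.case_nil (S := Sta T (LZ w [] [] [] e)) rfl (ih 0)).congr ?_
      simp
    | succ k =>
      refine (LZ_g_case (x := uu) (l := List.replicate k uu) (ih k)).congr ?_
      rw [Nat.succ_sub_succ]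

theorem dbl1_runs (T : ∀ k, List (Γ' k)) (w : Own → List (Sym Γ' Λ' σ'))
    (c : List (Sym Γ' Λ' σ')) : ∀ (p : ℕ) (b : List (Sym Γ' Λ' σ')),
    Runs (.loop (Sum.inr .l) (fun _ => .seq (.push (Sum.inr .t1) uu) (.push (Sum.inr .t1) uu)))
      (Sta T (LZ w [] b c (List.replicate p uu)))
      (Sta T (LZ w [] (List.replicate (2 * p) uu ++ b) c [])) (4 * p + 2) := by
  intro p
  induction p with
  | zero => intro b; exact Runs.loop_nil rfl
  | succ p ih =>
    intro b
    have h1 : Runs (.seq (.push (Sum.inr .t1) uu) (.push (Sum.inr .t1) uu))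
        (Sta T (LZ w [] b c (List.replicate p uu)))
        (Sta T (LZ w [] (uu :: uu :: b) c (List.replicate p uu))) 2 :=
      LZ_t1_push.seq LZ_t1_push
    have h2 := ih (uu :: uu :: b)
    refine ((LZ_l_cons (x := uu) (l := List.replicate p uu) h1 h2).mono (by omega)).congr ?_
    have e1 : 2 * (p + 1) = 2 * p + 1 + 1 := by omega
    rw [e1, List.replicate_succ', List.replicate_succ', List.append_assoc, List.append_assoc]
    rfl

theorem powProg_runs (T : ∀ k, List (Γ' k)) (w : Own → List (Sym Γ' Λ' σ')) :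
    ∀ (k p : ℕ), 1 ≤ p → Runs powProg
      (Sta T (LZ w [] [] (List.replicate k uu) (List.replicate p uu)))
      (Sta T (LZ w [] [] [] (List.replicate (2 ^ k * p) uu))) (32 * (2 ^ k * p) + 2 - 16 * p) := by
  intro k
  induction k with
  | zero =>
    intro p _
    refine ((Runs.loop_nil rfl).mono (by omega)).congr ?_
    simp
  | succ k ih =>
    intro p hp
    have h1 := dbl1_runs T w (List.replicate k uu) p []
    rw [List.append_nil] at h1
    have h2 := runs_rev (Sum.inr .t1) (Sum.inr .l) (by simp) (List.replicate (2 * p) uu)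
      (Sta T (LZ w [] (List.replicate (2 * p) uu) (List.replicate k uu) [])) rfl
    rw [LZ_t1, LZ_l] at h2
    have h2' : Runs (.loop (Sum.inr .t1) (fun a => .push (Sum.inr .l) a))
        (Sta T (LZ w [] (List.replicate (2 * p) uu) (List.replicate k uu) []))
        (Sta T (LZ w [] [] (List.replicate k uu) (List.replicate (2 * p) uu)))
        (3 * (2 * p) + 2) := by
      refine (h2.mono (by simp)).congr ?_
      simp [LZ]
    have h3 := ih (2 * p) (by omega)
    have hk : 1 ≤ 2 ^ k := Nat.one_le_two_pow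
    have e1 : 2 ^ (k + 1) * p = 2 ^ k * (2 * p) := by rw [pow_succ]; ring
    have e2 : p ≤ 2 ^ k * p := Nat.le_mul_of_pos_left _ hk
    have e3 : 2 ^ k * (2 * p) = 2 * (2 ^ k * p) := by ring
    refine ((LZ_g_cons (x := uu) (l := List.replicate k uu) (h1.seq h2') h3).mono ?_).congr ?_
    · omega
    · rw [e1]

variable (Γ' Λ' σ') in
theorem lpow_exists (d : ℕ) : ∃ (P : Prog (K' ⊕ Own) (Sym Γ' Λ' σ')) (C : ℕ),
    ∀ (T : ∀ k, List (Γ' k)) (w : Own → List (Sym Γ' Λ' σ')) (N : ℕ),
      w .nn = List.replicate N uu → w .l = [] → w .g = [] → w .t1 = [] →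
      Runs P (Sta T w)
        (Sta T (Function.update (Function.update w .nn []) .l
          (List.replicate (2 ^ (Nat.log 2 N - d)) uu))) (C * (1 + N)) := by
  refine ⟨.seq logProg (.seq (dropProg (d + 1)) (.seq (.push (Sum.inr .l) uu) powProg)),
    d + 100, ?_⟩
  intro T w N h1 h2 h3 h4
  have e0 : w = LZ w (List.replicate N uu) [] [] [] := by
    funext o
    cases o <;> simp [LZ, h1, h2, h3, h4]
  have e1 : Function.update (Function.update w .nn []) .l
      (List.replicate (2 ^ (Nat.log 2 N - d)) uu) =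
      LZ w [] [] [] (List.replicate (2 ^ (Nat.log 2 N - d)) uu) := by
    funext o
    cases o <;> simp [LZ, Function.update, h3, h4]
  rw [e1]
  have g1 := logProg_runs T w [] N []
  rw [← e0, List.append_nil] at g1
  have g2 := dropProg_runs T w [] (d + 1) (if N = 0 then 0 else Nat.log 2 N + 1)
  have e2 : (if N = 0 then 0 else Nat.log 2 N + 1) - (d + 1) = Nat.log 2 N - d := by
    by_cases hN : N = 0
    · subst hN; simp
    · rw [if_neg hN]; omega
  rw [e2] at g2
  have g3 : Runs (.push (Sum.inr .l) uu)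
      (Sta T (LZ w [] [] (List.replicate (Nat.log 2 N - d) uu) []))
      (Sta T (LZ w [] [] (List.replicate (Nat.log 2 N - d) uu) (List.replicate 1 uu))) 1 :=
    LZ_l_push
  have g4 := powProg_runs T w (Nat.log 2 N - d) 1 le_rfl
  rw [mul_one] at g4
  have hle : 2 ^ (Nat.log 2 N - d) ≤ 1 + N := by
    by_cases hN : N = 0
    · subst hN; simp
    · calc 2 ^ (Nat.log 2 N - d) ≤ 2 ^ Nat.log 2 N := Nat.pow_le_pow_right (by norm_num) (by omega)
        _ ≤ N := Nat.pow_log_le_self 2 hN
        _ ≤ 1 + N := by omega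
  refine (g1.seq (g2.seq (g3.seq g4))).mono ?_
  have : (d + 100) * (1 + N) = d * N + d + 100 + 100 * N := by ring
  rw [this]
  have : 0 ≤ d * N := Nat.zero_le _
  omega

end Pool.Agent.Borwein
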