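import Pool.Agent.Lib_MP_8c8a5b_lc.BitBlocks

set_option autoImplicit false

/-!
Loading the input of the small machine, preparing the clock, reading the output.
-/

namespace Pool.Agent.Borwein

open Turing Pool.Agent.PartSep.TM Pool.Agent.PartSep.TM.Prog

variable (tm : FinTM2) (ein : tm.Γ tm.k₀ ≃ Option Bool) (eout : tm.Γ tm.k₁ ≃ Bool)

/-- symbols of the big program -/
abbrev Sy : Type := Sym tm.Γ tm.Λ tm.σ

/-- programs -/
abbrev Pr : Type := Prog (tm.K ⊕ Own) (Sy tm)

theorem initList_stk (inp : List (tm.Γ tm.k₀)) :
    (initList tm inp).stk = Function.update (fun _ => []) tm.k₀ inp := by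
  funext k
  by_cases h : k = tm.k₀
  · subst h
    simp [initList]
  · rw [Function.update_of_ne h]
    simp [initList, h]

theorem haltList_stk (out : List (tm.Γ tm.k₁)) :
    (haltList tm out).stk = Function.update (fun _ => []) tm.k₁ out := by
  funext k
  by_cases h : k = tm.k₁
  · subst h
    simp [haltList]
  · rw [Function.update_of_ne h]
    simp [haltList, h]

/-- conversion of a bit to an input symbol of the small machine -/
def conv (b : Sy tm) : Sy tm := gs tm.k₀ (ein.symm (some (isOne (some b))))

/-- move bits from `t1` (most significant on top) to the input stack -/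
theorem loadLoop_runs (l : List Bool) : ∀ (w : Own → List (Sy tm)) (inp : List (tm.Γ tm.k₀)),
    w .t1 = l.map bt →
    Runs (.loop (Sum.inr .t1) (fun b => .push (Sum.inl tm.k₀) (conv tm ein b)) : Pr tm)
      (Sta (Function.update (fun _ => []) tm.k₀ inp) w)
      (Sta (Function.update (fun _ => []) tm.k₀ ((l.reverse.map fun b => ein.symm (some b)) ++ inp))
        (Function.update w .t1 [])) (3 * l.length + 2) := by
  induction l with
  | nil =>
    intro w inp hw
    refine (Runs.loop_nil (by simpa using hw)).congr ?_
    have : Function.update w .t1 [] = w := by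
      rw [show ([] : List (Sy tm)) = w .t1 by simpa using hw.symm, Function.update_eq_self]
    rw [this]
    rfl
  | cons b l ih =>
    intro w inp hw
    have g1 := Runs.push (Sum.inl tm.k₀) (conv tm ein (bt b)) (Sta (Function.update (fun _ => [])
      tm.k₀ inp) (Function.update w .t1 (l.map bt)))
    have e1 : conv tm ein (bt b) = gs tm.k₀ (ein.symm (some b)) := by simp [conv]
    rw [Sta_inl, Function.update_self, e1, ← List.map_cons, Sta_update_inl,
      Function.update_idem] at g1
    have g2 := ih (Function.update w .t1 (l.map bt)) (ein.symm (some b) :: inp) (by simp)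
    have e : Function.update (Sta (Function.update (fun _ => []) tm.k₀ inp) w) (Sum.inr .t1)
        (l.map bt) = Sta (Function.update (fun _ => []) tm.k₀ inp)
        (Function.update w .t1 (l.map bt)) := Sta_update_inr _ _ _ _
    refine ((Runs.loop_cons (a := bt b) (l := l.map bt) (by simpa using hw)
      (e ▸ (e1 ▸ g1)) g2).mono (by simp only [List.length_cons]; omega)).congr ?_
    simp

/-- move bits from `t1` to `xb` and to the input stack -/
theorem loadLoop2_runs (l : List Bool) : ∀ (w : Own → List (Sy tm)) (inp : List (tm.Γ tm.k₀)),
    w .t1 = l.map bt →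
    Runs (.loop (Sum.inr .t1) (fun b => .seq (.push (Sum.inr .xb) b)
      (.push (Sum.inl tm.k₀) (conv tm ein b))) : Pr tm)
      (Sta (Function.update (fun _ => []) tm.k₀ inp) w)
      (Sta (Function.update (fun _ => []) tm.k₀ ((l.reverse.map fun b => ein.symm (some b)) ++ inp))
        (Function.update (Function.update w .t1 []) .xb (l.reverse.map bt ++ w .xb)))
      (4 * l.length + 2) := by
  induction l with
  | nil =>
    intro w inp hw
    refine (Runs.loop_nil (by simpa using hw)).congr ?_
    have : Function.update w .t1 [] = w := by
      rw [show ([] : List (Sy tm)) = w .t1 by simpa using hw.symm, Function.update_eq_self]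
    rw [this]
    simp
  | cons b l ih =>
    intro w inp hw
    have g0 := Runs.push (Sum.inr .xb) (bt b : Sy tm) (Sta (Function.update (fun _ => [])
      tm.k₀ inp) (Function.update w .t1 (l.map bt)))
    rw [Sta_update_inr, Sta_inr] at g0
    have g1 := Runs.push (Sum.inl tm.k₀) (conv tm ein (bt b)) (Sta (Function.update (fun _ => [])
      tm.k₀ inp) (Function.update (Function.update w .t1 (l.map bt)) .xb
        (bt b :: Function.update w .t1 (l.map bt) .xb)))
    have e1 : conv tm ein (bt b) = gs tm.k₀ (ein.symm (some b)) := by simp [conv]
    rw [Sta_inl, Function.update_self, e1, ← List.map_cons, Sta_update_inl,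
      Function.update_idem] at g1
    have g2 := ih (Function.update (Function.update w .t1 (l.map bt)) .xb
        (bt b :: Function.update w .t1 (l.map bt) .xb)) (ein.symm (some b) :: inp)
        (by rw [Function.update_of_ne (by decide)]; simp)
    have e : Function.update (Sta (Function.update (fun _ => []) tm.k₀ inp) w) (Sum.inr .t1)
        (l.map bt) = Sta (Function.update (fun _ => []) tm.k₀ inp)
        (Function.update w .t1 (l.map bt)) := Sta_update_inr _ _ _ _
    refine ((Runs.loop_cons (a := bt b) (l := l.map bt) (by simpa using hw)
      (e ▸ (g0.seq (e1 ▸ g1))) g2).mono (by simp only [List.length_cons]; omega)).congr ?_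
    congr 1
    · simp
    · funext i
      simp only [Function.update_apply]
      split_ifs <;> simp_all

/-- load the two factors: `t4` (second factor) is emptied, `xb` (first factor) is kept -/
def loadP : Pr tm :=
  .seq (.loop (Sum.inr .t4) (fun a => .push (Sum.inr .t1) a)) <|
  .seq (.loop (Sum.inr .t1) (fun b => .push (Sum.inl tm.k₀) (conv tm ein b))) <|
  .seq (.push (Sum.inl tm.k₀) (gs tm.k₀ (ein.symm (some false)))) <|
  .seq (.push (Sum.inl tm.k₀) (gs tm.k₀ (ein.symm none))) <|
  .seq (.loop (Sum.inr .xb) (fun a => .push (Sum.inr .t1) a)) <|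
  .seq (.loop (Sum.inr .t1) (fun b => .seq (.push (Sum.inr .xb) b)
      (.push (Sum.inl tm.k₀) (conv tm ein b))))
    (.push (Sum.inl tm.k₀) (gs tm.k₀ (ein.symm (some false))))

theorem encIn_nat (x y : ℕ) : encIn x y = some false :: ((Nat.bits x).map some ++
    (none :: some false :: (Nat.bits y).map some)) := by
  simp [encIn]

theorem encOut_nat (x y : ℕ) : encOut ((x : ℤ) * y) = false :: Nat.bits (x * y) := by
  have h : ((x : ℤ) * y).natAbs = x * y := by
    rw [Int.natAbs_mul, Int.natAbs_natCast, Int.natAbs_natCast]
  have h2 : ¬ ((x : ℤ) * y < 0) := not_lt.2 (by positivity)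
  simp [encOut, h, h2]

theorem loadP_runs (x y : ℕ) (w : Own → List (Sy tm)) (hx : w .xb = (Nat.bits x).map bt)
    (hy : w .t4 = (Nat.bits y).map bt) (h1 : w .t1 = []) :
    Runs (loadP tm ein) (Sta (fun _ => []) w)
      (Sta (initList tm ((encIn x y).map ein.symm)).stk (Function.update w .t4 []))
      (7 * ((Nat.bits x).length + (Nat.bits y).length) + 11) := by
  have e0 : (fun _ => [] : ∀ k, List (tm.Γ k)) = Function.update (fun _ => []) tm.k₀ [] := by
    rw [Function.update_eq_self]
  have g1 := runs_rev (Sum.inr .t4) (Sum.inr .t1) (by simp) ((Nat.bits y).map bt)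
    (Sta (Function.update (fun _ => []) tm.k₀ []) w) (by simpa using hy)
  rw [Sta_update_inr, Sta_update_inr, Sta_inr, h1, List.append_nil, ← List.map_reverse] at g1
  have g2 := loadLoop_runs tm ein (Nat.bits y).reverse (Function.update (Function.update w .t4 [])
    .t1 ((Nat.bits y).reverse.map bt)) [] (by simp)
  rw [List.reverse_reverse, List.append_nil, Function.update_idem] at g2
  have g3 := Runs.push (Sum.inl tm.k₀) (gs tm.k₀ (ein.symm (some false)))
    (Sta (Function.update (fun _ => []) tm.k₀ ((Nat.bits y).map fun b => ein.symm (some b)))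
      (Function.update (Function.update w .t4 []) .t1 []))
  rw [Sta_inl, Function.update_self, ← List.map_cons, Sta_update_inl, Function.update_idem] at g3
  have g4 := Runs.push (Sum.inl tm.k₀) (gs tm.k₀ (ein.symm none))
    (Sta (Function.update (fun _ => []) tm.k₀ (ein.symm (some false) ::
      (Nat.bits y).map fun b => ein.symm (some b)))
      (Function.update (Function.update w .t4 []) .t1 []))
  rw [Sta_inl, Function.update_self, ← List.map_cons, Sta_update_inl, Function.update_idem] at g4
  have g5 := runs_rev (Sum.inr .xb) (Sum.inr .t1) (by simp) ((Nat.bits x).map bt)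
    (Sta (Function.update (fun _ => []) tm.k₀ (ein.symm none :: ein.symm (some false) ::
      (Nat.bits y).map fun b => ein.symm (some b)))
      (Function.update (Function.update w .t4 []) .t1 []))
      (by
        rw [Sta_inr, Function.update_of_ne (by decide), Function.update_of_ne (by decide), hx])
  rw [Sta_update_inr, Sta_update_inr, Sta_inr, Function.update_self, List.append_nil,
    ← List.map_reverse] at g5
  have g6 := loadLoop2_runs tm ein (Nat.bits x).reverse (Function.update (Function.update
    (Function.update (Function.update w .t4 []) .t1 []) .xb []) .t1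
    ((Nat.bits x).reverse.map bt)) (ein.symm none :: ein.symm (some false) ::
      (Nat.bits y).map fun b => ein.symm (some b)) (by simp)
  rw [List.reverse_reverse] at g6
  have e6 : Function.update (Function.update (Function.update (Function.update
    (Function.update (Function.update w .t4 []) .t1 []) .xb []) .t1
    ((Nat.bits x).reverse.map bt)) .t1 []) .xb ((Nat.bits x).map bt ++ (Function.update
    (Function.update
    (Function.update (Function.update w .t4 []) .t1 []) .xb []) .t1
    ((Nat.bits x).reverse.map bt)) .xb) = Function.update w .t4 [] := by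
    funext i
    simp only [Function.update_apply]
    split_ifs <;> simp_all
  rw [e6] at g6
  have g7 := Runs.push (Sum.inl tm.k₀) (gs tm.k₀ (ein.symm (some false)))
    (Sta (Function.update (fun _ => []) tm.k₀ (((Nat.bits x).map fun b => ein.symm (some b)) ++
      (ein.symm none :: ein.symm (some false) ::
      (Nat.bits y).map fun b => ein.symm (some b)))) (Function.update w .t4 []))
  rw [Sta_inl, Function.update_self, ← List.map_cons, Sta_update_inl, Function.update_idem] at g7
  rw [← e0] at g1 g2
  refine ((g1.seq (g2.seq (g3.seq (g4.seq (g5.seq (g6.seq g7)))))).mono ?_).congr ?_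
  · simp only [List.length_map, List.length_reverse]
    omega
  · rw [initList_stk, encIn_nat]
    congr 2
    simp [Function.comp_def]

/-- prepare the clock: `clk := s * 2 ^ b` -/
def clockSetP : Pr tm :=
  .seq (copy (Sum.inr .s) (Sum.inr .clk) (Sum.inr .t1)) <|
  .seq (.loop (Sum.inr .b) (fun a => .seq (.push (Sum.inr .t1) a)
    (doubleP (Sum.inr .clk) (Sum.inr .t2))))
    (.loop (Sum.inr .t1) (fun a => .push (Sum.inr .b) a))

theorem clockLoop_runs {K A : Type} [DecidableEq K] (u : A) (b t1 clk t2 : K) (h1 : b ≠ t1)
    (h2 : b ≠ clk) (h3 : b ≠ t2) (h4 : t1 ≠ clk) (h5 : t1 ≠ t2) (h6 : clk ≠ t2) (β : ℕ) :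
    ∀ (n : ℕ) (S : K → List A), S b = List.replicate β u → S clk = List.replicate n u →
      S t2 = [] →
    Runs (.loop b (fun a => .seq (.push t1 a) (doubleP clk t2))) S
      (Function.update (Function.update (Function.update S b []) t1
        (List.replicate β u ++ S t1)) clk (List.replicate (n * 2 ^ β) u))
      (10 * (n * 2 ^ β - n) + 7 * β + 2) := by
  induction β with
  | zero =>
    intro n S hb hclk ht
    refine ((Runs.loop_nil (by simpa using hb)).mono (by omega)).congr ?_
    funext i
    simp only [Function.update_apply]
    split_ifs <;> simp_all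
  | succ β ih =>
    intro n S hb hclk ht
    rw [List.replicate_succ] at hb
    have g1 := Runs.push t1 u (Function.update S b (List.replicate β u))
    have g2 := doubleP_runs clk t2 h6 u n (Function.update (Function.update S b
      (List.replicate β u)) t1 (u :: Function.update S b (List.replicate β u) t1))
      (by simp [Function.update_of_ne h4.symm, Function.update_of_ne h2.symm, hclk])
      (by simp [Function.update_of_ne h5.symm, Function.update_of_ne h3.symm, ht])
    have g3 := ih (2 * n) _ (show (Function.update (Function.update (Function.update S b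
      (List.replicate β u)) t1 (u :: Function.update S b (List.replicate β u) t1)) clk
      (List.replicate (2 * n) u)) b = List.replicate β u by
        simp [Function.update_of_ne h2, Function.update_of_ne h1]) (by simp)
        (by simp [Function.update_of_ne h6.symm, Function.update_of_ne h5.symm,
          Function.update_of_ne h3.symm, ht])
    have e : 2 * n * 2 ^ β = n * 2 ^ (β + 1) := by rw [pow_succ]; ring
    have e2 : n ≤ n * 2 ^ β := Nat.le_mul_of_pos_right n (by positivity)
    have e3 : n * 2 ^ (β + 1) = n * 2 ^ β + n * 2 ^ β := by rw [pow_succ]; ring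
    rw [e] at g3
    refine ((Runs.loop_cons hb (g1.seq g2) g3).mono (by omega)).congr ?_
    funext i
    simp only [Function.update_apply]
    split_ifs <;> simp_all [List.replicate_succ, rep_cons]

theorem clockSetP_runs (n β : ℕ) (w : Own → List (Sy tm)) (T : ∀ k, List (tm.Γ k))
    (hs : w .s = List.replicate n uu) (hb : w .b = List.replicate β uu) (hc : w .clk = [])
    (h1 : w .t1 = []) (h2 : w .t2 = []) :
    Runs (clockSetP tm) (Sta T w)
      (Sta T (Function.update w .clk (List.replicate (n * 2 ^ β) uu)))
      (10 * (n * 2 ^ β) + 10 * β + 8) := by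
  have g1 := runs_copy (Sum.inr .s) (Sum.inr .clk) (Sum.inr .t1) (by simp) (by simp) (by simp)
    (Sta T w) (by simpa using h1)
  rw [Sta_update_inr, Sta_inr, Sta_inr, hs, hc, List.append_nil] at g1
  have g2 := clockLoop_runs (uu : Sy tm) (Sum.inr .b : tm.K ⊕ Own) (Sum.inr .t1) (Sum.inr .clk)
    (Sum.inr .t2) (by simp) (by simp) (by simp) (by simp) (by simp) (by simp) β n
    (Sta T (Function.update w .clk (List.replicate n uu)))
    (by rw [Sta_inr, Function.update_of_ne (by decide), hb])
    (by rw [Sta_inr, Function.update_self])
    (by rw [Sta_inr, Function.update_of_ne (by decide), h2])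
  rw [Sta_update_inr, Sta_update_inr, Sta_update_inr] at g2
  have g3 := runs_rev (Sum.inr .t1 : tm.K ⊕ Own) (Sum.inr .b) (by simp)
    (List.replicate β (uu : Sy tm)) _ (show Sta T (Function.update (Function.update
      (Function.update (Function.update w .clk (List.replicate n uu)) .b []) .t1
      (List.replicate β uu ++ (Sta T (Function.update w .clk (List.replicate n uu)))
        (Sum.inr .t1))) .clk (List.replicate (n * 2 ^ β) uu)) (Sum.inr .t1) =
        List.replicate β uu by
      rw [Sta_inr, Function.update_of_ne (by decide), Function.update_self, Sta_inr,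
        Function.update_of_ne (by decide), h1, List.append_nil])
  have e : n ≤ n * 2 ^ β := Nat.le_mul_of_pos_right n (by positivity)
  refine ((g1.seq (g2.seq g3)).mono ?_).congr ?_
  · simp only [List.length_replicate]
    omega
  · rw [Sta_update_inr, Sta_update_inr]
    congr 1
    funext i
    simp only [Function.update_apply, Sta_inr]
    split_ifs <;> simp_all

end Pool.Agent.Borwein
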