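import Pool.Agent.Lib_MP_8c8a5b_lc.OwnBlocks

set_option autoImplicit false
set_option linter.constructorNameAsVariable false

/-!
Writing the result.
-/

namespace Pool.Agent.Borwein

open Turing Pool.Agent.PartSep.TM Pool.Agent.PartSep.TM.Prog

variable {K' : Type} {Γ' : K' → Type} {Λ' σ' : Type}

/-- write the sign -/
def signP : OPr K' Γ' Λ' σ' :=
  .case (Sum.inr .out) (fun o => match o with
    | none => .case (Sum.inr .sg) (fun _ => .push (Sum.inr .out) (bt false))
    | some a => .seq (.push (Sum.inr .out) a)
        (.case (Sum.inr .sg) (fun o => .push (Sum.inr .out) (bt (isOne o)))))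

theorem W_cons' (o : Own) (v : List (Sym Γ' Λ' σ')) (l : List (Own × List (Sym Γ' Λ' σ')))
    (k : Own) : W ((o, v) :: l) k = if k = o then v else W l k := by
  rw [← W_update, Function.update_apply]

theorem W_nil' (k : Own) : W ([] : List (Own × List (Sym Γ' Λ' σ'))) k = [] := rfl

variable [DecidableEq K']

variable (Λ' σ') in
theorem signP_runs (T : ∀ k, List (Γ' k)) (m : List Bool) (b : Bool) :
    Runs (signP : OPr K' Γ' Λ' σ') (Sta T (W [(.out, m.map bt), (.sg, [bt b])]))
      (Sta T (W [(.out, ((b && decide (m ≠ [])) :: m).map bt)])) 5 := by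
  cases m with
  | nil =>
    refine Runs.mono (oCase_nil T _ .out _ (by simp [W_cons']) ?_ :
      Runs signP _ _ (2 + 1)) (by norm_num)
    refine oCase_cons T _ .sg _ (a := bt b) (l := []) (by simp [W_cons']) ?_
    refine (oPush_runs T _ .out (bt false)).congr ?_
    congr 1
    funext o
    cases o <;> simp [W_cons', W_nil', Function.update]
  | cons a m =>
    have h1 := oPush_runs T (Function.update (W [(.out, (a :: m).map bt), (.sg, [bt b])]) .out
      (m.map bt)) .out (bt a : Sym Γ' Λ' σ')
    have h2 : Runs (.case (Sum.inr .sg) (fun o => .push (Sum.inr .out) (bt (isOne o))) :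
        OPr K' Γ' Λ' σ') (Sta T (W [(.out, (a :: m).map bt), (.sg, [bt b])]))
        (Sta T (W [(.out, (b :: a :: m).map bt)])) 2 := by
      refine oCase_cons T _ .sg _ (a := bt b) (l := []) (by simp [W_cons']) ?_
      rw [isOne_bt]
      refine (oPush_runs T _ .out (bt b)).congr ?_
      congr 1
      funext o
      cases o <;> simp [W_cons', W_nil', Function.update]
    have e1 : Function.update (Function.update (W [(.out, (a :: m).map bt), (.sg, [bt b])]) .out
      (m.map bt)) .out (bt a :: (Function.update (W [(.out, (a :: m).map bt), (.sg, [bt b])]) .out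
      (m.map bt)) .out) = (W [(.out, (a :: m).map bt), (.sg, [bt b])] :
      Own → List (Sym Γ' Λ' σ')) := by
      funext o
      cases o <;> simp [W_cons', W_nil', Function.update]
    rw [e1] at h1
    refine Runs.mono (oCase_cons T _ .out _ (a := bt a) (l := m.map bt) (by simp [W_cons'])
      (h1.seq h2) : Runs signP _ _ _) (by norm_num) |>.congr ?_
    simp

variable (Γ' Λ' σ') in
theorem output_exists : ∃ (P : Prog (K' ⊕ Own) (Sym Γ' Λ' σ')) (C : ℕ),
    ∀ (T : ∀ k, List (Γ' k)) (l : List Bool) (b : Bool),
      Runs P (Sta T (W [(.th, l.map bt), (.sg, [bt b])]))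
        (Sta T (W [(.out, ((b && decide (val l ≠ 0)) :: Nat.bits (val l)).map bt)]))
        (C * (1 + l.length)) := by
  refine ⟨.seq (oRev .th .t1) (.seq (oStrip .t1 .out) signP), 20, ?_⟩
  intro T l b
  have g1 := oRev_runs T (W [(.th, l.map bt), (.sg, [bt b])] : Own → List (Sym Γ' Λ' σ')) .th .t1
    (by decide)
  have e1 : Function.update (Function.update (W [(.th, l.map bt), (.sg, [bt b])]) .th []) .t1
      (((W [(.th, l.map bt), (.sg, [bt b])]) .th).reverse ++
        (W [(.th, l.map bt), (.sg, [bt b])]) .t1) =
      (W [(.t1, l.reverse.map bt), (.sg, [bt b])] : Own → List (Sym Γ' Λ' σ')) := by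
    funext o
    cases o <;> simp [W_cons', W_nil', Function.update]
  rw [e1] at g1
  have g2 := oStrip_runs T (W [(.t1, l.reverse.map bt), (.sg, [bt b])] :
    Own → List (Sym Γ' Λ' σ')) .t1 .out l
    (by simp [W_cons']) (by simp [W_cons', W_nil']) (by decide)
  have e2 : Function.update (Function.update (W [(.t1, l.reverse.map bt), (.sg, [bt b])]) .t1 [])
      .out ((Nat.bits (val l)).map bt) =
      (W [(.out, (Nat.bits (val l)).map bt), (.sg, [bt b])] : Own → List (Sym Γ' Λ' σ')) := by
    funext o
    cases o <;> simp [W_cons', W_nil', Function.update]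
  rw [e2] at g2
  have g3 := signP_runs Λ' σ' T (Nat.bits (val l)) b
  have e3 : decide (Nat.bits (val l) ≠ []) = decide (val l ≠ 0) := by
    by_cases h : val l = 0
    · simp [h, Nat.zero_bits]
    · have : Nat.bits (val l) ≠ [] := by
        intro hb
        apply h
        rw [← val_bits (val l), hb]
        rfl
      simp [h, this]
  rw [e3] at g3
  refine (g1.seq (g2.seq g3)).mono ?_
  have : ((W [(.th, l.map bt), (.sg, [bt b])] : Own → List (Sym Γ' Λ' σ')) .th).length =
      l.length := by simp [W_cons']
  rw [this]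
  omega

end Pool.Agent.Borwein
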