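import Pool.Agent.Lib_MP_8c8a5b_lc.OwnBlocks

set_option autoImplicit false
set_option linter.constructorNameAsVariable false

/-!
Reading the input.
-/

namespace Pool.Agent.Borwein

open Turing Pool.Agent.PartSep.TM Pool.Agent.PartSep.TM.Prog

variable {K' : Type} {Γ' : K' → Type} {Λ' σ' : Type} [DecidableEq K']

/-- own stacks during the reading of the input -/
private def ps (inp sg md nn t1 t2 x y : List (Sym Γ' Λ' σ')) : Own → List (Sym Γ' Λ' σ')
  | .inp => inp
  | .sg => sg
  | .md => md
  | .nn => nn
  | .t1 => t1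
  | .t2 => t2
  | .x => x
  | .y => y
  | _ => []

section
variable (inp sg md nn t1 t2 x y v : List (Sym Γ' Λ' σ'))

omit [DecidableEq K']

private theorem ps_inp : Function.update (ps inp sg md nn t1 t2 x y) .inp v =
    ps v sg md nn t1 t2 x y := by
  funext o; cases o <;> rfl
private theorem ps_sg : Function.update (ps inp sg md nn t1 t2 x y) .sg v =
    ps inp v md nn t1 t2 x y := by
  funext o; cases o <;> rfl
private theorem ps_md : Function.update (ps inp sg md nn t1 t2 x y) .md v =
    ps inp sg v nn t1 t2 x y := by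
  funext o; cases o <;> rfl
private theorem ps_nn : Function.update (ps inp sg md nn t1 t2 x y) .nn v =
    ps inp sg md v t1 t2 x y := by
  funext o; cases o <;> rfl
private theorem ps_t1 : Function.update (ps inp sg md nn t1 t2 x y) .t1 v =
    ps inp sg md nn v t2 x y := by
  funext o; cases o <;> rfl
private theorem ps_t2 : Function.update (ps inp sg md nn t1 t2 x y) .t2 v =
    ps inp sg md nn t1 v x y := by
  funext o; cases o <;> rfl
private theorem ps_x : Function.update (ps inp sg md nn t1 t2 x y) .x v =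
    ps inp sg md nn t1 t2 v y := by
  funext o; cases o <;> rfl
private theorem ps_y : Function.update (ps inp sg md nn t1 t2 x y) .y v =
    ps inp sg md nn t1 t2 x v := by
  funext o; cases o <;> rfl

end

/-- is it the separator? -/
private def isSep : Sym Γ' Λ' σ' → Bool
  | Sum.inl none => true
  | _ => false

/-- body of the reading loop -/
private def rdBody (a : Sym Γ' Λ' σ') : OPr K' Γ' Λ' σ' :=
  bif isSep a then
    .case (Sum.inr .inp) (fun o => .case (Sum.inr .sg) (fun s =>
      .seq (oPush .sg (bt (isOne s ^^ isOne o))) (oPush .md uu)))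
  else
    .case (Sum.inr .md) (fun m => match m with
      | none => .seq (oPush .t1 a) (oPush .nn uu)
      | some m => .seq (oPush .md m) (.seq (oPush .t2 a) (oPush .nn uu)))

private theorem rd2 (T : ∀ k, List (Γ' k)) (sg : List (Sym Γ' Λ' σ')) (m : List Bool) :
    ∀ (nn t1 t2 : List (Sym Γ' Λ' σ')),
      Runs (.loop (Sum.inr .inp) rdBody : OPr K' Γ' Λ' σ')
        (Sta T (ps (m.map bt) sg [uu] nn t1 t2 [] []))
        (Sta T (ps [] sg [uu] (List.replicate m.length uu ++ nn) t1
          (m.reverse.map bt ++ t2) [] [])) (6 * m.length + 2) := by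
  induction m with
  | nil =>
    intro nn t1 t2
    exact Runs.loop_nil rfl
  | cons a m ih =>
    intro nn t1 t2
    have g1 : Runs (rdBody (bt a) : OPr K' Γ' Λ' σ')
        (Sta T (Function.update (ps ((a :: m).map bt) sg [uu] nn t1 t2 [] []) .inp (m.map bt)))
        (Sta T (ps (m.map bt) sg [uu] (uu :: nn) t1 (bt a :: t2) [] [])) 4 := by
      rw [ps_inp]
      have h1 := oPush_runs T (ps (m.map bt) sg ([] : List (Sym Γ' Λ' σ')) nn t1 t2 [] []) .md uu
      have h2 := oPush_runs T (ps (m.map bt) sg ([uu] : List (Sym Γ' Λ' σ')) nn t1 t2 [] []) .t2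
        (bt a)
      have h3 := oPush_runs T (ps (m.map bt) sg ([uu] : List (Sym Γ' Λ' σ')) nn t1
        (bt a :: t2) [] []) .nn uu
      rw [ps_md] at h1
      rw [ps_t2] at h2
      rw [ps_nn] at h3
      refine oCase_cons T _ .md _ (a := uu) (l := []) rfl ?_
      rw [ps_md]
      exact (h1.seq (h2.seq h3))
    have g2 := ih (uu :: nn) t1 (bt a :: t2)
    refine ((oLoop_cons T _ .inp rdBody (a := bt a) (l := m.map bt) rfl g1 g2).mono (by
      simp only [List.length_cons]; omega)).congr ?_
    congr 2
    · rw [List.length_cons, rep_cons, List.replicate_succ]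
      rfl
    · simp

private theorem rd1 (T : ∀ k, List (Γ' k)) (s sy : Bool) (m : List Bool) (l : List Bool) :
    ∀ (nn t1 : List (Sym Γ' Λ' σ')),
      Runs (.loop (Sum.inr .inp) rdBody : OPr K' Γ' Λ' σ')
        (Sta T (ps (l.map bt ++ (ob none :: bt sy :: m.map bt)) [bt s] [] nn t1 [] [] []))
        (Sta T (ps [] [bt (s ^^ sy)] [uu]
          (List.replicate (l.length + m.length) uu ++ nn) (l.reverse.map bt ++ t1)
          (m.reverse.map bt) [] [])) (6 * (l.length + m.length) + 8) := by
  induction l with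
  | nil =>
    intro nn t1
    have g1 : Runs (rdBody (ob none) : OPr K' Γ' Λ' σ')
        (Sta T (Function.update (ps (ob none :: bt sy :: m.map bt) [bt s] [] nn t1 [] [] []) .inp
          (bt sy :: m.map bt)))
        (Sta T (ps (m.map bt) [bt (s ^^ sy)] [uu] nn t1 [] [] [])) 4 := by
      rw [ps_inp]
      have h1 := oPush_runs T (ps (m.map bt) ([] : List (Sym Γ' Λ' σ')) [] nn t1 [] [] []) .sg
        (bt (s ^^ sy))
      have h2 := oPush_runs T (ps (m.map bt) ([bt (s ^^ sy)] : List (Sym Γ' Λ' σ')) [] nn t1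
        [] [] []) .md uu
      rw [ps_sg] at h1
      rw [ps_md] at h2
      refine oCase_cons T _ .inp _ (a := bt sy) (l := m.map bt) rfl ?_
      rw [ps_inp]
      refine oCase_cons T _ .sg _ (a := bt s) (l := []) rfl ?_
      rw [ps_sg, isOne_bt, isOne_bt]
      exact h1.seq h2
    have g2 := rd2 T [bt (s ^^ sy)] m nn t1 []
    refine ((oLoop_cons T _ .inp rdBody (a := ob none) (l := bt sy :: m.map bt) rfl g1 g2).mono (by
      simp only [List.length_nil]; omega)).congr ?_
    simp
  | cons a l ih =>
    intro nn t1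
    have g1 : Runs (rdBody (bt a) : OPr K' Γ' Λ' σ')
        (Sta T (Function.update (ps ((a :: l).map bt ++ (ob none :: bt sy :: m.map bt)) [bt s] []
          nn t1 [] [] []) .inp (l.map bt ++ (ob none :: bt sy :: m.map bt))))
        (Sta T (ps (l.map bt ++ (ob none :: bt sy :: m.map bt)) [bt s] [] (uu :: nn)
          (bt a :: t1) [] [] [])) 3 := by
      rw [ps_inp]
      have h2 := oPush_runs T (ps (l.map bt ++ (ob none :: bt sy :: m.map bt))
        ([bt s] : List (Sym Γ' Λ' σ')) [] nn t1 [] [] []) .t1 (bt a)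
      have h3 := oPush_runs T (ps (l.map bt ++ (ob none :: bt sy :: m.map bt))
        ([bt s] : List (Sym Γ' Λ' σ')) [] nn (bt a :: t1) [] [] []) .nn uu
      rw [ps_t1] at h2
      rw [ps_nn] at h3
      refine oCase_nil T _ .md _ rfl ?_
      exact h2.seq h3
    have g2 := ih (uu :: nn) (bt a :: t1)
    refine ((oLoop_cons T _ .inp rdBody (a := bt a)
      (l := l.map bt ++ (ob none :: bt sy :: m.map bt)) rfl g1 g2).mono (by
      simp only [List.length_cons]; omega)).congr ?_
    congr 2
    · rw [List.length_cons, show l.length + 1 + m.length = l.length + m.length + 1 by ring,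
        rep_cons, List.replicate_succ]
      rfl
    · simp

variable (Γ' Λ' σ') in
theorem parse_exists : ∃ (P : Prog (K' ⊕ Own) (Sym Γ' Λ' σ')) (C : ℕ),
    ∀ (T : ∀ k, List (Γ' k)) (x y : ℤ),
      Runs P (Sta T (W [(.inp, (encIn x y).map ob)]))
        (Sta T (W [(.x, (Nat.bits x.natAbs).map bt), (.y, (Nat.bits y.natAbs).map bt),
          (.sg, [bt (decide (x < 0) ^^ decide (y < 0))]),
          (.nn, List.replicate (len x + len y) uu)])) (C * (1 + len x + len y)) := by
  refine ⟨.seq (.case (Sum.inr .inp) (fun o => oPush .sg (bt (isOne o))))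
    (.seq (.loop (Sum.inr .inp) rdBody) (.seq (oRev .t1 .x) (.seq (oRev .t2 .y) (oClear .md)))),
    30, fun T x y => ?_⟩
  have e0 : (W [(.inp, (encIn x y).map ob)] : Own → List (Sym Γ' Λ' σ')) =
      ps (bt (decide (x < 0)) :: ((Nat.bits x.natAbs).map bt ++
        (ob none :: bt (decide (y < 0)) :: (Nat.bits y.natAbs).map bt))) [] [] [] [] [] [] [] := by
    have e : (encIn x y).map (ob : Option Bool → Sym Γ' Λ' σ') =
        bt (decide (x < 0)) :: ((Nat.bits x.natAbs).map bt ++
        (ob none :: bt (decide (y < 0)) :: (Nat.bits y.natAbs).map bt)) := by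
      simp only [encIn, List.map_cons, List.map_append, List.map_map, List.cons_append]
      rfl
    rw [e]
    funext o; cases o <;> rfl
  have hlx : (Nat.bits x.natAbs).length = len x := (size_eq_length_bits _).symm
  have hly : (Nat.bits y.natAbs).length = len y := (size_eq_length_bits _).symm
  rw [e0]
  have g0 : Runs (.case (Sum.inr .inp) (fun o => oPush .sg (bt (isOne o))) : OPr K' Γ' Λ' σ')
      (Sta T (ps (bt (decide (x < 0)) :: ((Nat.bits x.natAbs).map bt ++
        (ob none :: bt (decide (y < 0)) :: (Nat.bits y.natAbs).map bt))) [] [] [] [] [] [] []))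
      (Sta T (ps ((Nat.bits x.natAbs).map bt ++
        (ob none :: bt (decide (y < 0)) :: (Nat.bits y.natAbs).map bt)) [bt (decide (x < 0))]
        [] [] [] [] [] [])) 2 := by
    refine oCase_cons T _ .inp _ (a := bt (decide (x < 0))) (l := (Nat.bits x.natAbs).map bt ++
        (ob none :: bt (decide (y < 0)) :: (Nat.bits y.natAbs).map bt)) rfl ?_
    rw [ps_inp, isOne_bt]
    have := oPush_runs T (ps ((Nat.bits x.natAbs).map bt ++
        (ob none :: bt (decide (y < 0)) :: (Nat.bits y.natAbs).map bt))
        ([] : List (Sym Γ' Λ' σ')) [] [] [] [] [] []) .sg (bt (decide (x < 0)))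
    rw [ps_sg] at this
    exact this
  have g1 := rd1 T (decide (x < 0)) (decide (y < 0)) (Nat.bits y.natAbs) (Nat.bits x.natAbs)
    ([] : List (Sym Γ' Λ' σ')) []
  rw [List.append_nil, List.append_nil] at g1
  have g2 := oRev_runs T (ps [] ([bt (decide (x < 0) ^^ decide (y < 0))] : List (Sym Γ' Λ' σ'))
    [uu] (List.replicate ((Nat.bits x.natAbs).length + (Nat.bits y.natAbs).length) uu)
    ((Nat.bits x.natAbs).reverse.map bt) ((Nat.bits y.natAbs).reverse.map bt) [] []) .t1 .x
      (by decide)
  rw [ps_t1, ps_x] at g2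
  have g3 := oRev_runs T (ps [] ([bt (decide (x < 0) ^^ decide (y < 0))] : List (Sym Γ' Λ' σ'))
    [uu] (List.replicate ((Nat.bits x.natAbs).length + (Nat.bits y.natAbs).length) uu)
    [] ((Nat.bits y.natAbs).reverse.map bt) ((Nat.bits x.natAbs).map bt) []) .t2 .y (by decide)
  rw [ps_t2, ps_y] at g3
  have g4 := oClear_runs T (ps [] ([bt (decide (x < 0) ^^ decide (y < 0))] :
    List (Sym Γ' Λ' σ')) [uu]
    (List.replicate ((Nat.bits x.natAbs).length + (Nat.bits y.natAbs).length) uu)
    [] [] ((Nat.bits x.natAbs).map bt) ((Nat.bits y.natAbs).map bt)) .md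
  rw [ps_md] at g4
  have e2 : ps [] ([bt (decide (x < 0) ^^ decide (y < 0))] : List (Sym Γ' Λ' σ'))
    [uu] (List.replicate ((Nat.bits x.natAbs).length + (Nat.bits y.natAbs).length) uu)
    [] ((Nat.bits y.natAbs).reverse.map bt) (((Nat.bits x.natAbs).reverse.map bt).reverse ++ [])
    [] = ps [] ([bt (decide (x < 0) ^^ decide (y < 0))] : List (Sym Γ' Λ' σ'))
    [uu] (List.replicate ((Nat.bits x.natAbs).length + (Nat.bits y.natAbs).length) uu)
    [] ((Nat.bits y.natAbs).reverse.map bt) ((Nat.bits x.natAbs).map bt) [] := by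
    simp
  have e3 : ps [] ([bt (decide (x < 0) ^^ decide (y < 0))] : List (Sym Γ' Λ' σ'))
    [uu] (List.replicate ((Nat.bits x.natAbs).length + (Nat.bits y.natAbs).length) uu)
    [] [] ((Nat.bits x.natAbs).map bt) (((Nat.bits y.natAbs).reverse.map bt).reverse ++ []) =
    ps [] ([bt (decide (x < 0) ^^ decide (y < 0))] : List (Sym Γ' Λ' σ'))
    [uu] (List.replicate ((Nat.bits x.natAbs).length + (Nat.bits y.natAbs).length) uu)
    [] [] ((Nat.bits x.natAbs).map bt) ((Nat.bits y.natAbs).map bt) := by
    simp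
  have g2' := g2.congr (congrArg (Sta T) e2)
  have g3' := g3.congr (congrArg (Sta T) e3)
  refine ((g0.seq (g1.seq (g2'.seq (g3'.seq g4)))).mono ?_).congr ?_
  · simp only [hlx, hly, ps, List.length_map, List.length_reverse, List.length_singleton]
    omega
  · rw [hlx, hly]
    congr 1
    funext o; cases o <;> rfl

end Pool.Agent.Borwein
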