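import Pool.Agent.Lib_MP_8c8a5b_lc.Outer
import Pool.Agent.Lib_MP_8c8a5b_lc.GoodPos
import Pool.Agent.Lib_MP_8c8a5b_lc.Parse
import Pool.Agent.Lib_MP_8c8a5b_lc.LPow
import Pool.Agent.Lib_MP_8c8a5b_lc.Output
import Pool.Agent.Lib_MP_8c8a5b_lc.Compile

set_option autoImplicit false
set_option linter.constructorNameAsVariable false

/-!
The machine theorem.
-/

namespace Pool.Agent.Borwein

open Turing Pool.Agent.PartSep.TM Pool.Agent.PartSep.TM.Prog

theorem encOut_mul (x y : ℤ) (n : ℕ) (hn : n = x.natAbs * y.natAbs) :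
    encOut (x * y) = ((decide (x < 0) ^^ decide (y < 0)) && decide (n ≠ 0)) :: Nat.bits n := by
  unfold encOut
  rw [Int.natAbs_mul, ← hn]
  congr 1
  subst hn
  rcases lt_trichotomy x 0 with hx | hx | hx <;> rcases lt_trichotomy y 0 with hy | hy | hy
  · have h1 : ¬ (x * y < 0) := not_lt.2 (mul_pos_of_neg_of_neg hx hy).le
    simp [hx, hy, h1]
  · simp [hy]
  · have h1 : x * y < 0 := mul_neg_of_neg_of_pos hx hy
    have h2 : ¬ (y < 0) := not_lt.2 hy.le
    simp [hx, h2, h1, hx.ne, hy.ne']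
  · simp [hx]
  · simp [hx]
  · simp [hx]
  · have h1 : x * y < 0 := mul_neg_of_pos_of_neg hx hy
    have h2 : ¬ (x < 0) := not_lt.2 hx.le
    simp [h2, hy, h1, hx.ne', hy.ne]
  · simp [hy]
  · have h1 : ¬ (x * y < 0) := not_lt.2 (mul_pos hx hy).le
    have h2 : ¬ (x < 0) := not_lt.2 hx.le
    have h3 : ¬ (y < 0) := not_lt.2 hy.le
    simp [h1, h2, h3]

theorem MulWithin_mono {tm : FinTM2} {ein : tm.Γ tm.k₀ ≃ Option Bool}
    {eout : tm.Γ tm.k₁ ≃ Bool} {x y : ℤ} {m n : ℕ} (h : MulWithin tm ein eout x y m)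
    (hmn : m ≤ n) : MulWithin tm ein eout x y n := by
  obtain ⟨hh⟩ := h
  exact ⟨⟨hh.toEvalsTo, hh.steps_le_m.trans hmn⟩⟩

/-- the block length -/
theorem block_bounds (N d : ℕ) : N < 2 ^ (Nat.log 2 N - d) * 2 ^ (d + 1) ∧
    2 ^ (Nat.log 2 N - d) ≤ N + 1 := by
  constructor
  · have h1 : N < 2 ^ (Nat.log 2 N + 1) := Nat.lt_pow_succ_log_self (by norm_num) N
    refine h1.trans_le ?_
    rw [← pow_add]
    exact Nat.pow_le_pow_right (by norm_num) (by omega)
  · by_cases hN : N = 0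
    · subst hN
      simp
    · have h1 : 2 ^ Nat.log 2 N ≤ N := Nat.pow_log_le_self 2 hN
      have h2 : 2 ^ (Nat.log 2 N - d) ≤ 2 ^ Nat.log 2 N :=
        Nat.pow_le_pow_right (by norm_num) (by omega)
      omega

/-- A self-adjusting multiplication machine. -/
theorem machine (tm : Turing.FinTM2) (ein : tm.Γ tm.k₀ ≃ Option Bool) (eout : tm.Γ tm.k₁ ≃ Bool)
    (hfin : ∀ k, Finite (tm.Γ k)) (t : ℕ → ℕ → ℕ)
    (hmono : ∀ a a' b b', a ≤ a' → b ≤ b' → t a b ≤ t a' b')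
    (hM : ∀ x y : ℤ, MulWithin tm ein eout x y (t (max (len x) (len y)) (min (len x) (len y))))
    (d : ℕ) :
    ∃ (tm' : Turing.FinTM2) (ein' : tm'.Γ tm'.k₀ ≃ Option Bool) (eout' : tm'.Γ tm'.k₁ ≃ Bool)
      (C : ℕ), (∀ k, Finite (tm'.Γ k)) ∧ ∀ (x y : ℤ) (l R : ℕ), 1 ≤ R →
        l = 2 ^ (Nat.log 2 (len x + len y) - d) →
        (l ≤ R ∨ ∃ s, 1 ≤ s ∧ s ≤ l ∧ t l s ≤ R * s) →
        MulWithin tm' ein' eout' x y (C * (1 + (len x + len y) * R)) := by
  obtain ⟨Pp, Cp, hp⟩ := parse_exists (K' := tm.K) tm.Γ tm.Λ tm.σ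
  obtain ⟨Pl, Cl, hl⟩ := lpow_exists (K' := tm.K) (Γ' := tm.Γ) (Λ' := tm.Λ) (σ' := tm.σ) d
  obtain ⟨Po, Co, ho⟩ := outer_exists tm ein eout (fun x y => ⟨_, hM x y⟩)
  obtain ⟨Pu, Cu, hu⟩ := output_exists (K' := tm.K) tm.Γ tm.Λ tm.σ
  obtain ⟨Cg, hg⟩ := good_pos tm ein eout t hmono hM
  obtain ⟨tm', ein', eout', Cc, hfin', hc⟩ := compile tm hfin
    (.seq Pp (.seq Pl (.seq Po Pu)))
  refine ⟨tm', ein', eout', Cc * (1 + 2 * (Cp + Cl + Co * ((2 ^ (d + 1) + 1) * 4 * Cg) +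
    Cu * (1 + 4 * Co))), hfin', ?_⟩
  -- the main estimate
  have main : ∀ (x y : ℤ) (R : ℕ), 1 ≤ R → (len x + len y ≠ 0 ∨ R = 1) →
      (2 ^ (Nat.log 2 (len x + len y) - d) ≤ R ∨ ∃ s, 1 ≤ s ∧
        s ≤ 2 ^ (Nat.log 2 (len x + len y) - d) ∧
        t (2 ^ (Nat.log 2 (len x + len y) - d)) s ≤ R * s) →
      MulWithin tm' ein' eout' x y (Cc * (1 + 2 * (Cp + Cl + Co * ((2 ^ (d + 1) + 1) * 4 * Cg) +
        Cu * (1 + 4 * Co))) * (1 + (len x + len y) * R)) := by
    intro x y R hR hNR hcond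
    set N := len x + len y with hN
    set lam := Nat.log 2 N - d with hlam
    obtain ⟨bg, jg, hjg, hgood, hbg⟩ := hg lam R hR hcond
    have hlx : (Nat.bits x.natAbs).length = len x := (len_eq_length x).symm
    have hly : (Nat.bits y.natAbs).length = len y := (len_eq_length y).symm
    have r1 := hp (fun _ => []) x y
    set w1 : Own → List (Sy tm) := W [(.x, (Nat.bits x.natAbs).map bt),
      (.y, (Nat.bits y.natAbs).map bt), (.sg, [bt (decide (x < 0) ^^ decide (y < 0))]),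
      (.nn, List.replicate (len x + len y) uu)] with hw1
    have r2 := hl (fun _ => []) w1 N rfl rfl rfl rfl
    have e2 : Function.update (Function.update w1 .nn []) .l
        (List.replicate (2 ^ (Nat.log 2 N - d)) uu) =
        W [(.x, (Nat.bits x.natAbs).map bt), (.y, (Nat.bits y.natAbs).map bt),
          (.l, List.replicate (2 ^ lam) uu), (.sg, [bt (decide (x < 0) ^^ decide (y < 0))])] := by
      funext o
      cases o <;> rfl
    rw [e2] at r2
    obtain ⟨n, pr, hval, hlen, r3, hn⟩ := ho lam bg jg (Nat.bits x.natAbs) (Nat.bits y.natAbs)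
      (decide (x < 0) ^^ decide (y < 0)) hjg hgood
    rw [val_bits, val_bits] at hval
    have r4 := hu (fun _ => []) pr (decide (x < 0) ^^ decide (y < 0))
    rw [← encOut_mul x y (val pr) hval] at r4
    have r := r1.seq (r2.seq (r3.seq r4))
    have hres := hc x y _ r
    refine MulWithin_mono hres ?_
    obtain ⟨hb1, hb2⟩ := block_bounds N d
    rw [← hlam] at hb1 hb2
    rw [hlx, hly] at hn hlen
    have hNR1 : N ≤ N * R := Nat.le_mul_of_pos_right N hR
    set M := 1 + N * R with hMdef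
    have hxl : len x / 2 ^ lam + 1 ≤ 2 ^ (d + 1) + 1 := by
      have : len x / 2 ^ lam < 2 ^ (d + 1) := by
        rw [Nat.div_lt_iff_lt_mul (by positivity), mul_comm]
        omega
      omega
    have hyl : (len y + 2 ^ lam + 1) * R ≤ 4 * M := by
      rcases hNR with h0 | h0
      · have a1 : len y + 2 ^ lam + 1 ≤ 4 * N := by omega
        calc (len y + 2 ^ lam + 1) * R ≤ 4 * N * R := Nat.mul_le_mul_right _ a1
          _ = 4 * (N * R) := by ring
          _ ≤ 4 * M := by omega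
      · subst h0
        omega
    have hn2 : n ≤ Co * ((2 ^ (d + 1) + 1) * 4 * Cg) * M := by
      refine hn.trans ?_
      calc Co * ((len x / 2 ^ lam + 1) * (len y + 2 ^ lam + 1) * 2 ^ bg)
          ≤ Co * ((2 ^ (d + 1) + 1) * (len y + 2 ^ lam + 1) * (Cg * R)) := by
            refine Nat.mul_le_mul_left _ (Nat.mul_le_mul (Nat.mul_le_mul_right _ hxl) hbg)
        _ = Co * ((2 ^ (d + 1) + 1) * Cg * ((len y + 2 ^ lam + 1) * R)) := by ring
        _ ≤ Co * ((2 ^ (d + 1) + 1) * Cg * (4 * M)) :=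
            Nat.mul_le_mul_left _ (Nat.mul_le_mul_left _ hyl)
        _ = _ := by ring
    have hpr : 1 + pr.length ≤ (1 + 4 * Co) * M := by
      have a1 : Co * (len x + len y + 2 ^ lam + 1) ≤ Co * (4 * M) :=
        Nat.mul_le_mul_left _ (by omega)
      calc 1 + pr.length ≤ M + Co * (4 * M) := by omega
        _ = _ := by ring
    have hu1 : Cu * (1 + pr.length) ≤ Cu * (1 + 4 * Co) * M := by
      calc Cu * (1 + pr.length) ≤ Cu * ((1 + 4 * Co) * M) := Nat.mul_le_mul_left _ hpr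
        _ = _ := by ring
    have hp1 : Cp * (1 + len x + len y) ≤ Cp * M := Nat.mul_le_mul_left _ (by omega)
    have hl1 : Cl * (1 + N) ≤ Cl * M := Nat.mul_le_mul_left _ (by omega)
    have e : Cc * (1 + 2 * (Cp + Cl + Co * ((2 ^ (d + 1) + 1) * 4 * Cg) +
        Cu * (1 + 4 * Co))) * M = Cc * (M + 2 * (Cp * M + Cl * M +
          Co * ((2 ^ (d + 1) + 1) * 4 * Cg) * M + Cu * (1 + 4 * Co) * M)) := by ring
    rw [e]
    refine Nat.mul_le_mul_left _ ?_
    omega
  intro x y l R hR hl' hcond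
  subst hl'
  by_cases hN : len x + len y = 0
  · have h1 := main x y 1 le_rfl (Or.inr rfl) (Or.inl (by rw [hN]; simp))
    rw [hN] at h1 ⊢
    simpa using h1
  · exact main x y R hR (Or.inl hN) hcond

end Pool.Agent.Borwein
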