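import Pool.Agent.Lib_MP_8c8a5b_lc.Inner

set_option autoImplicit false

/-!
Multiplication of `x` by `y`, one block of `x` at a time.
-/

namespace Pool.Agent.Borwein

open Turing Pool.Agent.PartSep.TM Pool.Agent.PartSep.TM.Prog

section

variable {tm : FinTM2}

/-- the own stacks used here -/
def OS (x y l xb yc s b j hi th tl t1 t2 sg : List (Sy tm)) : Own → List (Sy tm)
  | .x => x
  | .y => y
  | .l => l
  | .xb => xb
  | .yc => yc
  | .s => s
  | .b => b
  | .j => j
  | .hi => hi
  | .th => th
  | .tl => tl
  | .t1 => t1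
  | .t2 => t2
  | .sg => sg
  | _ => []

variable (tm) in
/-- preparation of the factors of the block multiplication -/
def prepP : Pr tm :=
  .seq (takeP (Sum.inr .l) (Sum.inr .x) (Sum.inr .t1) (Sum.inr .t2)) <|
  .seq (.loop (Sum.inr .t2) (stripBody (Sum.inr .xb)))
    (copy (Sum.inr .y) (Sum.inr .yc) (Sum.inr .t1))

variable (tm) in
/-- accumulation of the block product -/
def accP : Pr tm :=
  .seq (.loop (Sum.inr .xb) (fun _ => .skip)) <|
  .seq (addP (Sum.inr .th) (Sum.inr .hi) (Sum.inr .cy) (Sum.inr .t1))
    (shiftP (bt false) (Sum.inr .l) (Sum.inr .th) (Sum.inr .t1) (Sum.inr .tl))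

theorem prepP_runs (L : ℕ) (r yl : List Bool) (s b j th tl sg : List (Sy tm)) :
    Runs (prepP tm) (Sta (fun _ => []) (OS (r.map bt) (yl.map bt) (List.replicate L uu) [] []
        s b j [] th tl [] [] sg))
      (Sta (fun _ => []) (OS ((r.drop L).map bt) (yl.map bt) (List.replicate L uu)
        ((Nat.bits (val (r.take L))).map bt) (yl.map bt) s b j [] th tl [] [] sg))
      (13 * L + 7 * yl.length + 10) := by
  have g1 := takeP_runs (Sum.inr .l : tm.K ⊕ Own) (Sum.inr .x) (Sum.inr .t1) (Sum.inr .t2)
    (by simp) (by simp) (by simp) (by simp) (by simp) (by simp)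
    (Sta (fun _ => []) (OS (r.map bt) (yl.map bt) (List.replicate L uu) [] []
        s b j [] th tl [] [] sg)) rfl
  rw [Sta_update_inr, Sta_update_inr] at g1
  have e1 : Function.update (Function.update (OS (r.map bt) (yl.map bt) (List.replicate L uu) [] []
        s b j [] th tl [] [] sg) .x (((Sta (fun _ => []) (OS (r.map bt) (yl.map bt)
        (List.replicate L uu) [] [] s b j [] th tl [] [] sg) : tm.K ⊕ Own → List (Sy tm))
        (Sum.inr .x)).drop (((Sta (fun _ => []) (OS (r.map bt) (yl.map bt)
        (List.replicate L uu) [] [] s b j [] th tl [] [] sg) : tm.K ⊕ Own → List (Sy tm))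
        (Sum.inr .l)).length))) .t2 ((((Sta (fun _ => []) (OS (r.map bt) (yl.map bt)
        (List.replicate L uu) [] [] s b j [] th tl [] [] sg) : tm.K ⊕ Own → List (Sy tm))
        (Sum.inr .x)).take (((Sta (fun _ => []) (OS (r.map bt) (yl.map bt)
        (List.replicate L uu) [] [] s b j [] th tl [] [] sg) : tm.K ⊕ Own → List (Sy tm))
        (Sum.inr .l)).length)).reverse ++ ((Sta (fun _ => []) (OS (r.map bt) (yl.map bt)
        (List.replicate L uu) [] [] s b j [] th tl [] [] sg) : tm.K ⊕ Own → List (Sy tm))
        (Sum.inr .t2))) = OS ((r.drop L).map bt) (yl.map bt) (List.replicate L uu) [] []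
        s b j [] th tl [] ((r.take L).reverse.map bt) sg := by
    funext o
    cases o <;> simp [OS, Function.update, Sta]
  rw [e1] at g1
  have g2 := strip_runs (Sum.inr .t2 : tm.K ⊕ Own) (Sum.inr .xb) (by simp) (r.take L).reverse []
    (Sta (fun _ => []) (OS ((r.drop L).map bt) (yl.map bt) (List.replicate L uu) [] []
        s b j [] th tl [] ((r.take L).reverse.map bt) sg)) rfl rfl
  rw [foldl_spush, Sta_update_inr, Sta_update_inr] at g2
  have e2 : Function.update (Function.update (OS ((r.drop L).map bt) (yl.map bt)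
      (List.replicate L uu) [] [] s b j [] th tl [] ((r.take L).reverse.map bt) sg) .t2 []) .xb
      ((Nat.bits (val (r.take L))).map bt) = OS ((r.drop L).map bt) (yl.map bt)
      (List.replicate L uu) ((Nat.bits (val (r.take L))).map bt) [] s b j [] th tl [] [] sg := by
    funext o
    cases o <;> simp [OS, Function.update]
  rw [e2] at g2
  have g3 := runs_copy (Sum.inr .y : tm.K ⊕ Own) (Sum.inr .yc) (Sum.inr .t1) (by simp) (by simp)
    (by simp) (Sta (fun _ => []) (OS ((r.drop L).map bt) (yl.map bt)
      (List.replicate L uu) ((Nat.bits (val (r.take L))).map bt) [] s b j [] th tl [] [] sg)) rfl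
  rw [Sta_update_inr] at g3
  refine ((g1.seq (g2.seq g3)).mono ?_).congr ?_
  · have h1 : (((Sta (fun _ => []) (OS (r.map bt) (yl.map bt)
        (List.replicate L uu) [] [] s b j [] th tl [] [] sg) : tm.K ⊕ Own → List (Sy tm))
        (Sum.inr .l)).length) = L := by simp [Sta, OS]
    have h2 : (((Sta (fun _ => []) (OS ((r.drop L).map bt) (yl.map bt)
      (List.replicate L uu) ((Nat.bits (val (r.take L))).map bt) [] s b j [] th tl [] [] sg) :
      tm.K ⊕ Own → List (Sy tm)) (Sum.inr .y)).length) = yl.length := by simp [Sta, OS]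
    rw [h1, h2, List.length_reverse, List.length_take]
    have := min_le_left L r.length
    omega
  · congr 1
    funext o
    cases o <;> simp [OS, Function.update, Sta]

theorem accP_runs (L : ℕ) (r yl xbl pr th : List Bool) (s b j tl sg : List (Sy tm)) :
    Runs (accP tm) (Sta (fun _ => []) (OS (r.map bt) (yl.map bt) (List.replicate L uu)
        (xbl.map bt) [] s b j (pr.map bt) (th.map bt) tl [] [] sg))
      (Sta (fun _ => []) (OS (r.map bt) (yl.map bt) (List.replicate L uu) [] [] s b j []
        (((addc th pr false).drop L).map bt)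
        (((addc th pr false).take L ++ List.replicate (L - (addc th pr false).length)
          false).reverse.map bt ++ tl) [] [] sg))
      (2 * xbl.length + 12 * (th.length + pr.length) + 8 * L + 18) := by
  have g1 := runs_clear1 (Sum.inr .xb : tm.K ⊕ Own) (xbl.map bt) (Sta (fun _ => []) (OS (r.map bt)
    (yl.map bt) (List.replicate L uu) (xbl.map bt) [] s b j (pr.map bt) (th.map bt) tl
    [] [] sg)) rfl
  rw [Sta_update_inr] at g1
  have e1 : Function.update (OS (r.map bt)
    (yl.map bt) (List.replicate L uu) (xbl.map bt) [] s b j (pr.map bt) (th.map bt) tl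
    [] [] sg) .xb [] = (OS (r.map bt)
    (yl.map bt) (List.replicate L uu) [] [] s b j (pr.map bt) (th.map bt) tl
    [] [] sg : Own → List (Sy tm)) := by
    funext o
    cases o <;> simp [OS, Function.update]
  rw [e1] at g1
  have g2 := addP_runs (Sum.inr .th : tm.K ⊕ Own) (Sum.inr .hi) (Sum.inr .cy) (Sum.inr .t1)
    (by simp) (by simp) (by simp) (by simp) (by simp) (by simp) th pr
    (Sta (fun _ => []) (OS (r.map bt)
    (yl.map bt) (List.replicate L uu) [] [] s b j (pr.map bt) (th.map bt) tl
    [] [] sg)) rfl rfl rfl rfl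
  rw [Sta_update_inr, Sta_update_inr] at g2
  have e2 : Function.update (Function.update (OS (r.map bt)
    (yl.map bt) (List.replicate L uu) [] [] s b j (pr.map bt) (th.map bt) tl
    [] [] sg) .hi []) .th ((addc th pr false).map bt) = (OS (r.map bt)
    (yl.map bt) (List.replicate L uu) [] [] s b j [] ((addc th pr false).map bt) tl
    [] [] sg : Own → List (Sy tm)) := by
    funext o
    cases o <;> simp [OS, Function.update]
  rw [e2] at g2
  have g3 := shiftP_runs (bt false) (Sum.inr .l : tm.K ⊕ Own) (Sum.inr .th) (Sum.inr .t1)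
    (Sum.inr .tl) (by simp) (by simp) (by simp) (by simp) (by simp) (by simp)
    (Sta (fun _ => []) (OS (r.map bt)
    (yl.map bt) (List.replicate L uu) [] [] s b j [] ((addc th pr false).map bt) tl
    [] [] sg)) rfl
  rw [Sta_update_inr, Sta_update_inr] at g3
  refine ((g1.seq (g2.seq g3)).mono ?_).congr ?_
  · have h1 : (((Sta (fun _ => []) (OS (r.map bt)
      (yl.map bt) (List.replicate L uu) [] [] s b j [] ((addc th pr false).map bt) tl
      [] [] sg) : tm.K ⊕ Own → List (Sy tm)) (Sum.inr .l)).length) = L := by simp [Sta, OS]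
    rw [h1, List.length_map]
    omega
  · congr 1
    funext o
    cases o <;> simp [OS, Function.update, Sta]

/-- one block -/
def blockP (PI : Pr tm) : Pr tm := .seq (prepP tm) (.seq PI (accP tm))

/-- all blocks -/
def blocksP (PI : Pr tm) : Pr tm :=
  .loop (Sum.inr .x) (fun a => .seq (.push (Sum.inr .x) a) (blockP PI))

end

/-- number of blocks -/
def nblk (L n : ℕ) : ℕ := (n + L - 1) / L

theorem nblk_succ (L n : ℕ) (hL : 1 ≤ L) (hn : 1 ≤ n) : nblk L n = nblk L (n - L) + 1 := by
  unfold nblk
  by_cases h : L ≤ n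
  · obtain ⟨k, rfl⟩ : ∃ k, n = k + L := ⟨n - L, by omega⟩
    have e1 : k + L + L - 1 = (k + L - 1) + L := by omega
    have e2 : k + L - L + L - 1 = k + L - 1 := by omega
    rw [e1, e2, Nat.add_div_right _ (by omega)]
  · push Not at h
    have e1 : n - L = 0 := by omega
    have e2 : n + L - 1 = (n - 1) + L := by omega
    rw [e1, e2, Nat.add_div_right _ (by omega), Nat.div_eq_of_lt (by omega : n - 1 < L),
      Nat.div_eq_of_lt (by omega : 0 + L - 1 < L)]

theorem nblk_zero (L : ℕ) : nblk L 0 = 0 := by
  unfold nblk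
  rcases Nat.eq_zero_or_pos L with h | h
  · subst h; simp
  · rw [Nat.div_eq_of_lt (by omega)]

theorem nblk_le (L n : ℕ) (hL : 1 ≤ L) : nblk L n ≤ n / L + 1 := by
  unfold nblk
  have : (n + L - 1) / L ≤ (n + L) / L := Nat.div_le_div_right (by omega)
  rwa [Nat.add_div_right _ (by omega)] at this


/-- the specification of the inner program -/
def InnerSpec (tm : FinTM2) (ein : tm.Γ tm.k₀ ≃ Option Bool) (eout : tm.Γ tm.k₁ ≃ Bool)
    (P : Pr tm) (C : ℕ) : Prop :=
  ∀ (lam bg jg b j : ℕ) (w : Own → List (Sy tm)) (xv : ℕ)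
      (yl : List Bool), jg ≤ bg → j ≤ b → Bef b j bg jg → Good tm ein eout (2 ^ lam) bg jg →
      xv < 2 ^ (2 ^ lam) → w .xb = (Nat.bits xv).map bt → w .yc = yl.map bt →
      w .l = List.replicate (2 ^ lam) uu → w .s = List.replicate (sz (2 ^ lam) b j) uu →
      w .b = List.replicate b uu → w .j = List.replicate j uu → w .hi = [] → w .lo = [] →
      w .clk = [] → w .t1 = [] → w .t2 = [] → w .t3 = [] → w .t4 = [] → w .cy = [] →
      w .q = [] →
      ∃ (b' j' n : ℕ) (pr : List Bool), j' ≤ b' ∧ Bef b' j' bg jg ∧ val pr = xv * val yl ∧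
        pr.length ≤ yl.length + 2 ^ lam + 1 ∧
        Runs P (Sta (fun _ => []) w) (Sta (fun _ => []) (innerRes w (2 ^ lam) b' j' pr)) n ∧
        n + C * used (2 ^ lam) b j ≤
          C * (2 ^ bg * (yl.length + 2 ^ lam + 1) + used (2 ^ lam) b' j')

theorem val_pad (l : List Bool) (n : ℕ) : val (l ++ List.replicate n false) = val l := by
  rw [val_append, val_replicate_false]
  simp

theorem blocks_runs {tm : FinTM2} {ein : tm.Γ tm.k₀ ≃ Option Bool} {eout : tm.Γ tm.k₁ ≃ Bool}
    (PI : Pr tm) (C : ℕ) (hPI : InnerSpec tm ein eout PI C) (lam bg jg : ℕ) (yl : List Bool)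
    (hjg : jg ≤ bg) (hG : Good tm ein eout (2 ^ lam) bg jg) (sg : List (Sy tm)) :
    ∀ (N : ℕ) (r : List Bool), r.length = N → ∀ (b j : ℕ) (th tl : List Bool), j ≤ b →
      Bef b j bg jg → th.length ≤ yl.length + 2 ^ lam + 2 →
      ∃ (n b' j' : ℕ) (th' tl' : List Bool), j' ≤ b' ∧ Bef b' j' bg jg ∧
        val tl'.reverse + 2 ^ tl'.length * val th' =
          val tl.reverse + 2 ^ tl.length * (val th + val r * val yl) ∧
        th'.length ≤ yl.length + 2 ^ lam + 2 ∧
        tl'.length = tl.length + nblk (2 ^ lam) N * 2 ^ lam ∧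
        Runs (blocksP PI)
          (Sta (fun _ => []) (OS (r.map bt) (yl.map bt) (List.replicate (2 ^ lam) uu) [] []
            (List.replicate (sz (2 ^ lam) b j) uu) (List.replicate b uu) (List.replicate j uu) []
            (th.map bt) (tl.map bt) [] [] sg))
          (Sta (fun _ => []) (OS [] (yl.map bt) (List.replicate (2 ^ lam) uu) [] []
            (List.replicate (sz (2 ^ lam) b' j') uu) (List.replicate b' uu)
            (List.replicate j' uu) [] (th'.map bt) (tl'.map bt) [] [] sg)) n ∧
        n + C * used (2 ^ lam) b j ≤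
          nblk (2 ^ lam) N * ((C + 100) * (2 ^ bg * (yl.length + 2 ^ lam + 1)))
            + C * used (2 ^ lam) b' j' + 2 := by
  intro N
  induction N using Nat.strong_induction_on with
  | _ N ih =>
    intro r hr b j th tl hjb hbef hth
    have hL : 1 ≤ 2 ^ lam := Nat.one_le_two_pow
    cases r with
    | nil =>
      have hN : N = 0 := by simpa using hr.symm
      subst hN
      refine ⟨2, b, j, th, tl, hjb, hbef, by simp, hth, by rw [nblk_zero]; simp, ?_, ?_⟩
      · exact Runs.loop_nil rfl
      · rw [nblk_zero]; omega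
    | cons a r0 =>
      set r : List Bool := a :: r0 with hrdef
      have hNpos : 1 ≤ N := by rw [← hr, hrdef]; simp
      set L := 2 ^ lam with hLdef
      -- the block
      have hval : val (r.take L) < 2 ^ L := by
        refine (val_lt _).trans_le (Nat.pow_le_pow_right (by norm_num) ?_)
        rw [List.length_take]
        exact min_le_left _ _
      have g1 := prepP_runs (tm := tm) L r yl (List.replicate (sz L b j) uu)
        (List.replicate b uu) (List.replicate j uu) (th.map bt) (tl.map bt) sg
      obtain ⟨b1, j1, n1, pr, hj1, hbef1, hprv, hprl, hrun1, hn1⟩ := hPI lam bg jg b j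
        (OS ((r.drop L).map bt) (yl.map bt) (List.replicate L uu)
          ((Nat.bits (val (r.take L))).map bt) (yl.map bt) (List.replicate (sz L b j) uu)
          (List.replicate b uu) (List.replicate j uu) [] (th.map bt) (tl.map bt) [] [] sg)
        (val (r.take L)) yl hjg hjb hbef hG hval rfl rfl rfl rfl rfl rfl rfl rfl rfl rfl rfl rfl
        rfl rfl rfl
      rw [← hLdef] at hrun1 hn1 hprl
      have e1 : innerRes (OS ((r.drop L).map bt) (yl.map bt) (List.replicate L uu)
          ((Nat.bits (val (r.take L))).map bt) (yl.map bt) (List.replicate (sz L b j) uu)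
          (List.replicate b uu) (List.replicate j uu) [] (th.map bt) (tl.map bt) [] [] sg)
          L b1 j1 pr = OS ((r.drop L).map bt) (yl.map bt) (List.replicate L uu)
          ((Nat.bits (val (r.take L))).map bt) [] (List.replicate (sz L b1 j1) uu)
          (List.replicate b1 uu) (List.replicate j1 uu) (pr.map bt) (th.map bt) (tl.map bt)
          [] [] sg := by
        funext o
        cases o <;> simp [OS, innerRes, Function.update]
      rw [e1] at hrun1
      have g3 := accP_runs (tm := tm) L (r.drop L) yl (Nat.bits (val (r.take L))) pr th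
        (List.replicate (sz L b1 j1) uu) (List.replicate b1 uu) (List.replicate j1 uu)
        (tl.map bt) sg
      rw [← List.map_append] at g3
      set th1 := addc th pr false with hth1
      set tl2 := (th1.take L ++ List.replicate (L - th1.length) false).reverse ++ tl with htl2
      have hth1len : th1.length ≤ yl.length + L + 3 := by
        have := addc_length th pr false
        rw [← hth1] at this
        omega
      have hth2len : (th1.drop L).length ≤ yl.length + L + 2 := by
        rw [List.length_drop]; omega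
      have htl2len : tl2.length = tl.length + L := by
        rw [htl2, List.length_append, List.length_reverse, List.length_append, List.length_take,
          List.length_replicate]
        omega
      have hdl : (r.drop L).length = N - L := by rw [List.length_drop, hr]
      obtain ⟨n2, b', j', th', tl', hj', hbef', hv', hth', htl', hrun2, hn2⟩ :=
        ih (N - L) (by omega) (r.drop L) hdl b1 j1 (th1.drop L) tl2 hj1 hbef1 hth2len
      have hblk := nblk_succ L N hL hNpos
      have hbits : (Nat.bits (val (r.take L))).length ≤ L := length_bits_le _ _ hval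
      refine ⟨((1 + ((13 * L + 7 * yl.length + 10) + (n1 + (2 * (Nat.bits (val (r.take L))).length
        + 12 * (th.length + pr.length) + 8 * L + 18)))) + n2 + 2), b', j', th', tl', hj', hbef',
        ?_, hth', ?_, ?_, ?_⟩
      · rw [hv', htl2len]
        have e2 : val tl2.reverse = val tl.reverse + 2 ^ tl.length * val (th1.take L) := by
          rw [htl2, List.reverse_append, List.reverse_reverse, val_append, val_pad,
            List.length_reverse]
        have e3 := val_take_drop th1 L
        have e4 : val th1 = val th + val (r.take L) * val yl := by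
          rw [hth1, addc_val, hprv]; simp
        have e5 := val_take_drop r L
        rw [e2, e5, pow_add]
        calc val tl.reverse + 2 ^ tl.length * val (th1.take L) + 2 ^ tl.length * 2 ^ L *
              (val (th1.drop L) + val (r.drop L) * val yl)
            = val tl.reverse + 2 ^ tl.length * (val (th1.take L) + 2 ^ L * val (th1.drop L)
                + 2 ^ L * val (r.drop L) * val yl) := by ring
          _ = val tl.reverse + 2 ^ tl.length * (val th + (val (r.take L)
                + 2 ^ L * val (r.drop L)) * val yl) := by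
              rw [← e3, e4]; ring
      · rw [htl', htl2len, hblk]; ring
      · have h0 : Runs (.push (Sum.inr .x) (bt a)) (Function.update (Sta (fun _ => [])
            (OS (r.map bt) (yl.map bt) (List.replicate L uu) [] []
            (List.replicate (sz L b j) uu) (List.replicate b uu) (List.replicate j uu) []
            (th.map bt) (tl.map bt) [] [] sg)) (Sum.inr .x) (r0.map bt))
            (Sta (fun _ => []) (OS (r.map bt) (yl.map bt) (List.replicate L uu) [] []
            (List.replicate (sz L b j) uu) (List.replicate b uu) (List.replicate j uu) []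
            (th.map bt) (tl.map bt) [] [] sg) : tm.K ⊕ Own → List (Sy tm)) 1 := by
          refine (Runs.push _ _ _).congr ?_
          rw [Sta_update_inr, Sta_update_inr]
          congr 1
          funext o
          cases o <;> simp [OS, Function.update, hrdef]
        refine Runs.loop_cons (a := bt a) (l := r0.map bt) ?_ (h0.seq (g1.seq (hrun1.seq g3)))
          hrun2
        simp [OS, hrdef]
      · have hY : yl.length + L + 1 ≤ 2 ^ bg * (yl.length + L + 1) :=
          Nat.le_mul_of_pos_left _ (by positivity)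
        rw [hblk]
        have e6 : (nblk L (N - L) + 1) * ((C + 100) * (2 ^ bg * (yl.length + L + 1))) =
          nblk L (N - L) * ((C + 100) * (2 ^ bg * (yl.length + L + 1))) +
          C * (2 ^ bg * (yl.length + L + 1)) + 100 * (2 ^ bg * (yl.length + L + 1)) := by ring
        rw [e6]
        rw [mul_add] at hn1
        omega

theorem W_cons {K' : Type} {Γ' : K' → Type} {Λ' σ' : Type} (o : Own)
    (v : List (Sym Γ' Λ' σ')) (l : List (Own × List (Sym Γ' Λ' σ'))) (k : Own) :
    W ((o, v) :: l) k = if k = o then v else W l k := by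
  rw [← W_update, Function.update_apply]

theorem W_nil {K' : Type} {Γ' : K' → Type} {Λ' σ' : Type} (k : Own) :
    W ([] : List (Own × List (Sym Γ' Λ' σ'))) k = [] := rfl

variable (tm : FinTM2) in
/-- the final clean up -/
def finP : Pr tm :=
  .seq (.loop (Sum.inr .tl) (fun a => .push (Sum.inr .th) a)) <|
  .seq (.loop (Sum.inr .y) (fun _ => .skip)) <|
  .seq (.loop (Sum.inr .l) (fun _ => .skip)) <|
  .seq (.loop (Sum.inr .s) (fun _ => .skip)) <|
  .seq (.loop (Sum.inr .b) (fun _ => .skip)) (.loop (Sum.inr .j) (fun _ => .skip))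

theorem finP_runs {tm : FinTM2} (y l s b j : List (Sy tm)) (th tl : List Bool)
    (sg : List (Sy tm)) :
    Runs (finP tm) (Sta (fun _ => []) (OS [] y l [] [] s b j [] (th.map bt) (tl.map bt) [] [] sg))
      (Sta (fun _ => []) (OS [] [] [] [] [] [] [] [] [] ((tl.reverse ++ th).map bt) [] [] [] sg))
      (3 * tl.length + 2 * y.length + 2 * l.length + 2 * s.length + 2 * b.length
        + 2 * j.length + 12) := by
  have g1 := runs_rev (Sum.inr .tl : tm.K ⊕ Own) (Sum.inr .th) (by simp) (tl.map bt)
    (Sta (fun _ => []) (OS [] y l [] [] s b j [] (th.map bt) (tl.map bt) [] [] sg)) rfl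
  rw [Sta_update_inr, Sta_update_inr] at g1
  have e1 : Function.update (Function.update (OS [] y l [] [] s b j [] (th.map bt) (tl.map bt)
      [] [] sg) .tl []) .th ((tl.map bt).reverse ++ (Sta (fun _ => []) (OS [] y l [] [] s b j []
      (th.map bt) (tl.map bt) [] [] sg) : tm.K ⊕ Own → List (Sy tm)) (Sum.inr .th)) =
      OS [] y l [] [] s b j [] ((tl.reverse ++ th).map bt) [] [] [] sg := by
    funext o
    cases o <;> simp [OS, Function.update, Sta]
  rw [e1] at g1
  set z := (tl.reverse ++ th).map (bt : Bool → Sy tm) with hz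
  have g2 := runs_clear1 (Sum.inr .y : tm.K ⊕ Own) y
    (Sta (fun _ => []) (OS [] y l [] [] s b j [] z [] [] [] sg)) rfl
  rw [Sta_update_inr] at g2
  have e2 : Function.update (OS [] y l [] [] s b j [] z [] [] [] sg) .y [] =
      (OS [] [] l [] [] s b j [] z [] [] [] sg : Own → List (Sy tm)) := by
    funext o
    cases o <;> simp [OS, Function.update]
  rw [e2] at g2
  have g3 := runs_clear1 (Sum.inr .l : tm.K ⊕ Own) l
    (Sta (fun _ => []) (OS [] [] l [] [] s b j [] z [] [] [] sg)) rfl
  rw [Sta_update_inr] at g3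
  have e3 : Function.update (OS [] [] l [] [] s b j [] z [] [] [] sg) .l [] =
      (OS [] [] [] [] [] s b j [] z [] [] [] sg : Own → List (Sy tm)) := by
    funext o
    cases o <;> simp [OS, Function.update]
  rw [e3] at g3
  have g4 := runs_clear1 (Sum.inr .s : tm.K ⊕ Own) s
    (Sta (fun _ => []) (OS [] [] [] [] [] s b j [] z [] [] [] sg)) rfl
  rw [Sta_update_inr] at g4
  have e4 : Function.update (OS [] [] [] [] [] s b j [] z [] [] [] sg) .s [] =
      (OS [] [] [] [] [] [] b j [] z [] [] [] sg : Own → List (Sy tm)) := by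
    funext o
    cases o <;> simp [OS, Function.update]
  rw [e4] at g4
  have g5 := runs_clear1 (Sum.inr .b : tm.K ⊕ Own) b
    (Sta (fun _ => []) (OS [] [] [] [] [] [] b j [] z [] [] [] sg)) rfl
  rw [Sta_update_inr] at g5
  have e5 : Function.update (OS [] [] [] [] [] [] b j [] z [] [] [] sg) .b [] =
      (OS [] [] [] [] [] [] [] j [] z [] [] [] sg : Own → List (Sy tm)) := by
    funext o
    cases o <;> simp [OS, Function.update]
  rw [e5] at g5
  have g6 := runs_clear1 (Sum.inr .j : tm.K ⊕ Own) j
    (Sta (fun _ => []) (OS [] [] [] [] [] [] [] j [] z [] [] [] sg)) rfl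
  rw [Sta_update_inr] at g6
  have e6 : Function.update (OS [] [] [] [] [] [] [] j [] z [] [] [] sg) .j [] =
      (OS [] [] [] [] [] [] [] [] [] z [] [] [] sg : Own → List (Sy tm)) := by
    funext o
    cases o <;> simp [OS, Function.update]
  rw [e6] at g6
  refine (g1.seq (g2.seq (g3.seq (g4.seq (g5.seq g6))))).mono ?_
  rw [List.length_map]
  omega

theorem outer_exists (tm : FinTM2) (ein : tm.Γ tm.k₀ ≃ Option Bool) (eout : tm.Γ tm.k₁ ≃ Bool)
    (hM : ∀ x y : ℤ, ∃ n, MulWithin tm ein eout x y n) :
    ∃ (P : Pr tm) (C : ℕ), ∀ (lam bg jg : ℕ) (xl yl : List Bool) (sg : Bool), jg ≤ bg →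
      Good tm ein eout (2 ^ lam) bg jg →
      ∃ (n : ℕ) (pr : List Bool), val pr = val xl * val yl ∧
        pr.length ≤ C * (xl.length + yl.length + 2 ^ lam + 1) ∧
        Runs P (Sta (fun _ => []) (W [(.x, xl.map bt), (.y, yl.map bt),
            (.l, List.replicate (2 ^ lam) uu), (.sg, [bt sg])]))
          (Sta (fun _ => []) (W [(.th, pr.map bt), (.sg, [bt sg])])) n ∧
        n ≤ C * ((xl.length / 2 ^ lam + 1) * (yl.length + 2 ^ lam + 1) * 2 ^ bg) := by
  obtain ⟨PI, C, hPI⟩ := inner_exists tm ein eout hM
  refine ⟨.seq (copy (Sum.inr .l) (Sum.inr .s) (Sum.inr .t1)) (.seq (blocksP PI) (finP tm)),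
    5 * C + 200, ?_⟩
  intro lam bg jg xl yl sg hjg hG
  set L := 2 ^ lam with hLdef
  have hL : 1 ≤ L := Nat.one_le_two_pow
  have e0 : (W [(.x, xl.map bt), (.y, yl.map bt), (.l, List.replicate L uu), (.sg, [bt sg])] :
      Own → List (Sy tm)) = OS (xl.map bt) (yl.map bt) (List.replicate L uu) [] [] [] [] [] []
      [] [] [] [] [bt sg] := by
    funext o
    cases o <;> simp [W_cons, W_nil, OS]
  have g1 := runs_copy (Sum.inr .l : tm.K ⊕ Own) (Sum.inr .s) (Sum.inr .t1) (by simp) (by simp)
    (by simp) (Sta (fun _ => []) (OS (xl.map bt) (yl.map bt) (List.replicate L uu) [] [] [] [] []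
      [] [] [] [] [] [bt sg])) rfl
  rw [Sta_update_inr] at g1
  have hsz : sz L 0 0 = L := by simp [sz]
  have e1 : Function.update (OS (xl.map bt) (yl.map bt) (List.replicate L uu) [] [] [] [] []
      [] [] [] [] [] [bt sg]) .s ((Sta (fun _ => []) (OS (xl.map bt) (yl.map bt)
      (List.replicate L uu) [] [] [] [] [] [] [] [] [] [] [bt sg]) :
      tm.K ⊕ Own → List (Sy tm)) (Sum.inr .l) ++ (Sta (fun _ => []) (OS (xl.map bt) (yl.map bt)
      (List.replicate L uu) [] [] [] [] [] [] [] [] [] [] [bt sg]) :
      tm.K ⊕ Own → List (Sy tm)) (Sum.inr .s)) =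
      OS (xl.map bt) (yl.map bt) (List.replicate L uu) [] [] (List.replicate (sz L 0 0) uu)
        (List.replicate 0 uu) (List.replicate 0 uu) [] ([].map bt) ([].map bt) [] [] [bt sg] := by
    rw [hsz]
    funext o
    cases o <;> simp [OS, Function.update, Sta]
  rw [e1] at g1
  have hbef : Bef 0 0 bg jg := by
    rcases Nat.eq_zero_or_pos bg with h | h
    · right; exact ⟨h.symm, by omega⟩
    · left; exact h
  obtain ⟨n2, b', j', th', tl', hj', hbef', hv', hth', htl', hrun2, hn2⟩ :=
    blocks_runs (tm := tm) PI C hPI lam bg jg yl hjg hG [bt sg] xl.length xl rfl 0 0 [] []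
      le_rfl hbef (by simp)
  rw [← hLdef] at hth' htl' hrun2 hn2
  have g3 := finP_runs (tm := tm) (yl.map bt) (List.replicate L uu)
    (List.replicate (sz L b' j') uu) (List.replicate b' uu) (List.replicate j' uu) th' tl'
    [bt sg]
  have hnb := nblk_le L xl.length hL
  have hdm : xl.length / L * L ≤ xl.length := Nat.div_mul_le_self _ _
  have hb' : b' ≤ bg := by
    rcases hbef' with h | ⟨h, _⟩ <;> omega
  have h2b : b' < 2 ^ bg := lt_of_le_of_lt hb' Nat.lt_two_pow_self
  have hszL : sz L b' j' ≤ L := Nat.div_le_self _ _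
  have hpow : 2 ^ b' ≤ 2 ^ bg := Nat.pow_le_pow_right (by norm_num) hb'
  generalize xl.length / L = q at hnb hdm ⊢
  set Y := yl.length + L + 1 with hY
  have hused : used L b' j' ≤ 4 * (2 ^ bg * Y) := by
    unfold used
    calc L * (4 * 2 ^ b' - 2 * 2 ^ j') ≤ L * (4 * 2 ^ bg) := Nat.mul_le_mul_left _ (by omega)
      _ ≤ Y * (4 * 2 ^ bg) := Nat.mul_le_mul_right _ (by omega)
      _ = 4 * (2 ^ bg * Y) := by ring
  have hnbL : nblk L xl.length * L ≤ (q + 1) * L := Nat.mul_le_mul_right _ hnb
  have e2 : (W [(.th, (tl'.reverse ++ th').map bt), (.sg, [bt sg])] : Own → List (Sy tm)) =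
      OS [] [] [] [] [] [] [] [] [] ((tl'.reverse ++ th').map bt) [] [] [] [bt sg] := by
    funext o
    cases o <;> simp [W_cons, W_nil, OS]
  have hrun := g1.seq (hrun2.seq g3)
  rw [← e0, ← e2] at hrun
  refine ⟨_, tl'.reverse ++ th', ?_, ?_, hrun, ?_⟩
  rotate_left 2
  · rw [e0]
    have h1 : ((Sta (fun _ => []) (OS (xl.map bt) (yl.map bt)
      (List.replicate L uu) [] [] [] [] [] [] [] [] [] [] [bt sg]) :
      tm.K ⊕ Own → List (Sy tm)) (Sum.inr .l)).length = L := by simp [Sta, OS]
    rw [h1]
    simp only [List.length_map, List.length_replicate]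
    rw [htl']
    set M := (q + 1) * Y * 2 ^ bg with hM'
    have hYM : 2 ^ bg * Y ≤ M := by
      rw [hM']
      calc 2 ^ bg * Y = 1 * Y * 2 ^ bg := by ring
        _ ≤ (q + 1) * Y * 2 ^ bg :=
            Nat.mul_le_mul_right _ (Nat.mul_le_mul_right _ (Nat.le_add_left 1 q))
    have h2M : 2 ^ bg ≤ M := le_trans (Nat.le_mul_of_pos_right _ (by omega)) hYM
    have hY2 : Y ≤ M := le_trans (Nat.le_mul_of_pos_left _ (by positivity)) hYM
    have hqM : (q + 1) * L ≤ M := by
      rw [hM', mul_assoc]
      refine Nat.mul_le_mul_left _ ?_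
      calc L ≤ Y := by omega
        _ ≤ Y * 2 ^ bg := Nat.le_mul_of_pos_right _ (by positivity)
    have h3 : nblk L xl.length * ((C + 100) * (2 ^ bg * Y)) ≤ (C + 100) * M := by
      calc nblk L xl.length * ((C + 100) * (2 ^ bg * Y))
          ≤ (q + 1) * ((C + 100) * (2 ^ bg * Y)) := Nat.mul_le_mul_right _ hnb
        _ = (C + 100) * M := by rw [hM']; ring
    have h4 : C * used L b' j' ≤ 4 * C * M := by
      calc C * used L b' j' ≤ C * (4 * (2 ^ bg * Y)) := Nat.mul_le_mul_left _ hused
        _ ≤ C * (4 * M) := Nat.mul_le_mul_left _ (by omega)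
        _ = 4 * C * M := by ring
    have h5 : (5 * C + 200) * M = (C + 100) * M + 4 * C * M + 100 * M := by ring
    have hM1 : 1 ≤ M := by omega
    rw [h5]
    simp only [List.length_nil]
    omega
  · have h := hv'
    simp only [List.reverse_nil, val_nil, List.length_nil, pow_zero, one_mul, zero_add] at h
    rw [val_append, List.length_reverse, h]
  · rw [List.length_append, List.length_reverse, htl']
    simp only [List.length_nil]
    have h1 : (q + 1) * L ≤ xl.length + L := by rw [add_mul, one_mul]; omega
    calc 0 + nblk L xl.length * L + th'.length ≤ 2 * (xl.length + yl.length + L + 1) := by omega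
      _ ≤ (5 * C + 200) * (xl.length + yl.length + L + 1) := Nat.mul_le_mul_right _ (by omega)

end Pool.Agent.Borwein
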