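import Pool.Agent.Lib_MP_8c8a5b_lc.Load

set_option autoImplicit false

/-!
Positions of the search: `(b, j)` means budget `2 ^ b` per digit and second blocks of
`l / 2 ^ (b - j)` digits. Positions are visited in the order
`(0, 0), (1, 1), (1, 0), (2, 2), (2, 1), (2, 0), ...`.
-/

namespace Pool.Agent.Borwein

open Turing Pool.Agent.PartSep.TM Pool.Agent.PartSep.TM.Prog

/-- length of the second blocks at a position -/
def sz (l b j : ℕ) : ℕ := l / 2 ^ (b - j)

/-- `(b, j)` is visited not after `(b', j')` -/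
def Bef (b j b' j' : ℕ) : Prop := b < b' ∨ (b = b' ∧ j' ≤ j)

/-- an upper bound for the time used up to a position -/
def used (l b j : ℕ) : ℕ := l * (4 * 2 ^ b - 2 * 2 ^ j)

/-- at a good position all attempts succeed (or single digits are used) -/
def Good (tm : FinTM2) (ein : tm.Γ tm.k₀ ≃ Option Bool) (eout : tm.Γ tm.k₁ ≃ Bool)
    (l b j : ℕ) : Prop :=
  sz l b j = 0 ∨ ∀ x y : ℕ, x < 2 ^ l → y < 2 ^ sz l b j →
    MulWithin tm ein eout x y (sz l b j * 2 ^ b)

end Pool.Agent.Borwein
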