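import Pool.Agent.Lib_MP_42fe4d_lc.TM.ProgLib

/-!
A TM2 machine run inside a structured program, with a clock.
-/

namespace Pool.Agent.Borwein

open Turing Pool.Agent.PartSep.TM Pool.Agent.PartSep.TM.Prog

/-- The private stacks of the big program. -/
inductive Own : Type
  | inp | out | x | y | l | xb | yc | s | b | j | clk | hi | lo | th | tl | t1 | t2 | t3 | t4
  | cy | q | sg | md | nn | g
  deriving DecidableEq, Fintype

section

variable {K' : Type} {Γ' : K' → Type} {Λ' σ' : Type}

/-- The alphabet of all stacks. -/
abbrev Sym (Γ' : K' → Type) (Λ' σ' : Type) : Type :=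
  Option Bool ⊕ ((Σ k, Γ' k) ⊕ (Option Λ' × σ'))

/-- a bit or a separator -/
def ob (o : Option Bool) : Sym Γ' Λ' σ' := Sum.inl o

/-- a bit -/
def bt (b : Bool) : Sym Γ' Λ' σ' := Sum.inl (some b)

/-- a stack symbol of the small machine -/
def gs (k : K') (g : Γ' k) : Sym Γ' Λ' σ' := Sum.inr (Sum.inl ⟨k, g⟩)

/-- a state of the small machine -/
def stt (l : Option Λ') (v : σ') : Sym Γ' Λ' σ' := Sum.inr (Sum.inr (l, v))

variable [DecidableEq K']

/-- decode a stack symbol of the small machine -/
def ungs (k : K') : Sym Γ' Λ' σ' → Option (Γ' k)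
  | Sum.inr (Sum.inl ⟨k', g⟩) => if h : k' = k then some (h ▸ g) else none
  | _ => none

@[simp] theorem ungs_gs (k : K') (g : Γ' k) : ungs (Λ' := Λ') (σ' := σ') k (gs k g) = some g := by
  simp [ungs, gs]

/-- Translation of a statement. -/
def tr : TM2.Stmt Γ' Λ' σ' → σ' → Prog (K' ⊕ Own) (Sym Γ' Λ' σ')
  | .push k f q, v => .seq (.push (Sum.inl k) (gs k (f v))) (tr q v)
  | .peek k f q, v => .case (Sum.inl k) (fun o => match o with
      | none => tr q (f v none)
      | some a => .seq (.push (Sum.inl k) a) (tr q (f v (ungs k a))))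
  | .pop k f q, v => .case (Sum.inl k) (fun o => match o with
      | none => tr q (f v none)
      | some a => tr q (f v (ungs k a)))
  | .load f q, v => tr q (f v)
  | .branch p q₁ q₂, v => bif p v then tr q₁ v else tr q₂ v
  | .goto f, v => .push (Sum.inr .q) (stt (some (f v)) v)
  | .halt, v => .push (Sum.inr .q) (stt none v)

/-- Cost of a translated statement. -/
def scost : TM2.Stmt Γ' Λ' σ' → ℕ
  | .push _ _ q => scost q + 1
  | .peek _ _ q => scost q + 2
  | .pop _ _ q => scost q + 1
  | .load _ q => scost q
  | .branch _ q₁ q₂ => max (scost q₁) (scost q₂)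
  | .goto _ => 1
  | .halt => 1

/-- The stacks of the big program. -/
def Sta (T : ∀ k, List (Γ' k)) (w : Own → List (Sym Γ' Λ' σ')) :
    K' ⊕ Own → List (Sym Γ' Λ' σ') :=
  Sum.elim (fun k => (T k).map (gs k)) w

theorem Sta_update_inl (T : ∀ k, List (Γ' k)) (w : Own → List (Sym Γ' Λ' σ')) (k : K')
    (l : List (Γ' k)) :
    Function.update (Sta T w) (Sum.inl k) (l.map (gs k)) = Sta (Function.update T k l) w := by
  funext i
  rcases i with i | i
  · by_cases h : i = k
    · subst h; simp [Sta]
    · rw [Function.update_of_ne (by simpa using h)]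
      simp [Sta, Function.update_of_ne h]
  · rw [Function.update_of_ne (by simp)]
    simp [Sta]

theorem Sta_update_inr (T : ∀ k, List (Γ' k)) (w : Own → List (Sym Γ' Λ' σ')) (k : Own)
    (l : List (Sym Γ' Λ' σ')) :
    Function.update (Sta T w) (Sum.inr k) l = Sta T (Function.update w k l) := by
  funext i
  rcases i with i | i
  · rw [Function.update_of_ne (by simp)]
    simp [Sta]
  · by_cases h : i = k
    · subst h; simp [Sta]
    · rw [Function.update_of_ne (by simpa using h)]
      simp [Sta, Function.update_of_ne h]

omit [DecidableEq K'] in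
@[simp] theorem Sta_inl (T : ∀ k, List (Γ' k)) (w : Own → List (Sym Γ' Λ' σ')) (k : K') :
    Sta T w (Sum.inl k) = (T k).map (gs k) := rfl

omit [DecidableEq K'] in
@[simp] theorem Sta_inr (T : ∀ k, List (Γ' k)) (w : Own → List (Sym Γ' Λ' σ')) (k : Own) :
    Sta T w (Sum.inr k) = w k := rfl

theorem tr_runs (s : TM2.Stmt Γ' Λ' σ') : ∀ (v : σ') (T : ∀ k, List (Γ' k))
    (w : Own → List (Sym Γ' Λ' σ')),
    Runs (tr s v) (Sta T w) (Sta (TM2.stepAux s v T).stk
      (Function.update w .q (stt (TM2.stepAux s v T).l (TM2.stepAux s v T).var :: w .q)))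
      (scost s) := by
  induction s with
  | push k f q ih =>
    intro v T w
    have h1 := Runs.push (Sum.inl k) (gs k (f v)) (Sta T w)
    have h2 := ih v (Function.update T k (f v :: T k)) w
    rw [Sta_inl, ← List.map_cons, Sta_update_inl] at h1
    exact (h1.seq h2).mono (by simp [scost]; omega)
  | peek k f q ih =>
    intro v T w
    cases hT : T k with
    | nil =>
      refine (Runs.case_nil (by simp [hT]) (T := scost q) ?_).mono (by simp [scost])
      have := ih (f v none) T w
      simpa [TM2.stepAux, hT] using this
    | cons a l =>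
      refine (Runs.case_cons (a := gs k a) (l := l.map (gs k)) (by simp [hT])
        (T := scost q + 1) ?_).mono (by simp [scost])
      rw [Sta_update_inl]
      have h1 := Runs.push (Sum.inl k) (gs k a) (Sta (Function.update T k l) w)
      rw [Sta_inl, ← List.map_cons, Sta_update_inl] at h1
      have e : Function.update (Function.update T k l) k (a :: Function.update T k l k) = T := by
        rw [Function.update_self, Function.update_idem, ← hT, Function.update_eq_self]
      rw [e] at h1
      have h2 := ih (f v (some a)) T w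
      change Runs (.seq (.push (Sum.inl k) (gs k a)) (tr q (f v (ungs k (gs k a))))) _ _ _
      rw [ungs_gs]
      refine ((h1.seq h2).mono (by omega)).congr ?_
      simp [TM2.stepAux, hT]
  | pop k f q ih =>
    intro v T w
    cases hT : T k with
    | nil =>
      refine (Runs.case_nil (by simp [hT]) (T := scost q) ?_).mono (by simp [scost])
      have e : Function.update T k [] = T := by
        rw [← hT, Function.update_eq_self]
      have := ih (f v none) T w
      simpa [TM2.stepAux, hT, e] using this
    | cons a l =>
      refine (Runs.case_cons (a := gs k a) (l := l.map (gs k)) (by simp [hT])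
        (T := scost q) ?_).mono (by simp [scost])
      change Runs (tr q (f v (ungs k (gs k a)))) _ _ _
      rw [Sta_update_inl, ungs_gs]
      have h2 := ih (f v (some a)) (Function.update T k l) w
      simpa [TM2.stepAux, hT] using h2
  | load f q ih =>
    intro v T w
    exact ih (f v) T w
  | branch p q₁ q₂ ih₁ ih₂ =>
    intro v T w
    simp only [tr, TM2.stepAux, scost]
    cases p v with
    | true => exact (ih₁ v T w).mono (le_max_left _ _)
    | false => exact (ih₂ v T w).mono (le_max_right _ _)
  | goto f =>
    intro v T w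
    refine (Runs.push _ _ _).congr ?_
    rw [Sta_update_inr]
    rfl
  | halt =>
    intro v T w
    refine (Runs.push _ _ _).congr ?_
    rw [Sta_update_inr]
    rfl

/-- One step of the small machine (nothing happens after halting). -/
def stepProg (M : Λ' → TM2.Stmt Γ' Λ' σ') : Prog (K' ⊕ Own) (Sym Γ' Λ' σ') :=
  .case (Sum.inr .q) (fun o => match o with
    | none => .skip
    | some (Sum.inr (Sum.inr (some l, v))) => tr (M l) v
    | some a => .push (Sum.inr .q) a)

/-- The step function made total. -/
def tstep (M : Λ' → TM2.Stmt Γ' Λ' σ') (c : TM2.Cfg Γ' Λ' σ') : TM2.Cfg Γ' Λ' σ' :=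
  (TM2.step M c).getD c

/-- own stacks `w`, with the state of `c` on the stack `q` -/
def withState (w : Own → List (Sym Γ' Λ' σ')) (c : TM2.Cfg Γ' Λ' σ') :
    Own → List (Sym Γ' Λ' σ') := Function.update w .q [stt c.l c.var]

theorem stepProg_runs (M : Λ' → TM2.Stmt Γ' Λ' σ') (C : ℕ) (hC : ∀ l, scost (M l) ≤ C)
    (h1C : 1 ≤ C) (w : Own → List (Sym Γ' Λ' σ')) (c : TM2.Cfg Γ' Λ' σ') :
    Runs (stepProg M) (Sta c.stk (withState w c)) (Sta (tstep M c).stk
      (withState w (tstep M c))) (C + 1) := by
  obtain ⟨l, v, T⟩ := c
  have e : Function.update (Sta T (withState w ⟨l, v, T⟩)) (Sum.inr .q) [] =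
      Sta T (Function.update w .q []) := by
    rw [Sta_update_inr]
    simp [withState]
  cases l with
  | none =>
    refine Runs.case_cons (a := stt none v) (l := []) (by simp [withState]) ?_
    change Runs (.push (Sum.inr .q) (stt none v)) (Function.update (Sta T
      (withState w ⟨none, v, T⟩)) (Sum.inr .q) []) _ C
    rw [e]
    refine ((Runs.push _ _ _).congr ?_).mono h1C
    rw [Sta_update_inr]
    simp [tstep, TM2.step, withState]
  | some l =>
    refine Runs.case_cons (a := stt (some l) v) (l := []) (by simp [withState]) ?_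
    change Runs (tr (M l) v) (Function.update (Sta T
      (withState w ⟨some l, v, T⟩)) (Sum.inr .q) []) _ C
    rw [e]
    refine ((tr_runs (M l) v T _).congr ?_).mono (hC l)
    simp [tstep, TM2.step, withState]

/-- Run the small machine as long as the clock allows. -/
def clockProg (M : Λ' → TM2.Stmt Γ' Λ' σ') : Prog (K' ⊕ Own) (Sym Γ' Λ' σ') :=
  .loop (Sum.inr .clk) (fun _ => stepProg M)

theorem clockProg_runs (M : Λ' → TM2.Stmt Γ' Λ' σ') (C : ℕ) (hC : ∀ l, scost (M l) ≤ C)
    (h1C : 1 ≤ C) : ∀ (cl : List (Sym Γ' Λ' σ')) (w : Own → List (Sym Γ' Λ' σ'))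
    (c : TM2.Cfg Γ' Λ' σ'), w .clk = cl →
    Runs (clockProg M) (Sta c.stk (withState w c))
      (Sta ((tstep M)^[cl.length] c).stk
        (withState (Function.update w .clk []) ((tstep M)^[cl.length] c)))
      ((C + 3) * cl.length + 2) := by
  intro cl
  induction cl with
  | nil =>
    intro w c hw
    refine (Runs.loop_nil (by simp [withState, hw])).congr ?_
    have e : Function.update w .clk [] = w := by rw [← hw, Function.update_eq_self]
    rw [e]
    rfl
  | cons a cl ih =>
    intro w c hw
    have e : Function.update (Sta c.stk (withState w c)) (Sum.inr .clk) cl =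
        Sta c.stk (withState (Function.update w .clk cl) c) := by
      rw [Sta_update_inr, withState, withState, Function.update_comm (by decide)]
    have h1 := stepProg_runs M C hC h1C (Function.update w .clk cl) c
    have h2 := ih (Function.update w .clk cl) (tstep M c) (by simp)
    refine ((Runs.loop_cons (a := a) (l := cl) (by simp [withState, hw]) (e ▸ h1) h2).mono
      (by simp only [List.length_cons]; ring_nf; omega)).congr ?_
    simp [Function.iterate_succ_apply]

/-- If the machine reaches a halting configuration then `tstep` does and stays there. -/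
theorem tstep_iterate {M : Λ' → TM2.Stmt Γ' Λ' σ'} {c c' : TM2.Cfg Γ' Λ' σ'} {m : ℕ}
    (h : (flip bind (TM2.step M))^[m] (some c) = some c') (hl : c'.l = none) :
    ∀ n, m ≤ n → (tstep M)^[n] c = c' := by
  have hstep : TM2.step M c' = none := by
    obtain ⟨l, v, T⟩ := c'
    cases hl
    rfl
  have hfix : ∀ n, (tstep M)^[n] c' = c' := by
    intro n
    induction n with
    | zero => rfl
    | succ n ih => rw [Function.iterate_succ_apply', ih, tstep, hstep]; rfl
  induction m generalizing c with
  | zero =>
    intro n _
    simp only [Function.iterate_zero, id_eq, Option.some.injEq] at h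
    rw [h, hfix]
  | succ m ih =>
    intro n hn
    obtain ⟨n, rfl⟩ : ∃ k, n = k + 1 := ⟨n - 1, by omega⟩
    rw [Function.iterate_succ_apply] at h ⊢
    change (flip bind (TM2.step M))^[m] (TM2.step M c) = some c' at h
    cases hs : TM2.step M c with
    | none =>
      rw [hs] at h
      have : ∀ m, (flip bind (TM2.step M))^[m] (none : Option (TM2.Cfg Γ' Λ' σ')) = none := by
        intro m
        induction m with
        | zero => rfl
        | succ m ih => rw [Function.iterate_succ_apply]; exact ih
      rw [this] at h
      cases h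
    | some d =>
      rw [hs] at h
      have : tstep M c = d := by rw [tstep, hs]; rfl
      rw [this]
      exact ih h n (by omega)

/-- If the clocked machine is in a halting state then it is in the final configuration. -/
theorem tstep_halted {M : Λ' → TM2.Stmt Γ' Λ' σ'} {c c' : TM2.Cfg Γ' Λ' σ'} {m : ℕ}
    (h : (flip bind (TM2.step M))^[m] (some c) = some c') (hl : c'.l = none) (n : ℕ)
    (hn : ((tstep M)^[n] c).l = none) : (tstep M)^[n] c = c' := by
  by_cases hmn : m ≤ n
  · exact tstep_iterate h hl n hmn
  · have hstep : ∀ d : TM2.Cfg Γ' Λ' σ', d.l = none → tstep M d = d := by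
      rintro ⟨l, v, T⟩ hd
      cases hd
      rfl
    have hfix : ∀ k, (tstep M)^[k] ((tstep M)^[n] c) = (tstep M)^[n] c := by
      intro k
      induction k with
      | zero => rfl
      | succ k ih => rw [Function.iterate_succ_apply', ih, hstep _ hn]
    have h1 := tstep_iterate h hl m le_rfl
    obtain ⟨k, rfl⟩ : ∃ k, m = k + n := ⟨m - n, by omega⟩
    rw [Function.iterate_add_apply, hfix] at h1
    exact h1

omit [DecidableEq K'] in
theorem sum_withState [Fintype K'] (d : TM2.Cfg Γ' Λ' σ') :
    ∑ k, (Sta d.stk (withState (fun _ => []) d) k).length = ∑ k, (d.stk k).length + 1 := by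
  rw [Fintype.sum_sum_type]
  have h1 : ∑ k, (Sta d.stk (withState (fun _ => []) d) (Sum.inl k)).length =
      ∑ k, (d.stk k).length := by
    refine Finset.sum_congr rfl (fun k _ => ?_)
    rw [Sta_inl, List.length_map]
  have h2 : ∑ o, (Sta d.stk (withState (fun _ => []) d) (Sum.inr o)).length = 1 := by
    rw [Finset.sum_eq_single Own.q]
    · rw [Sta_inr, withState, Function.update_self]
      rfl
    · intro b _ hb
      rw [Sta_inr, withState, Function.update_of_ne hb]
      rfl
    · intro h
      exact absurd (Finset.mem_univ _) h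
  rw [h1, h2]

/-- Growth of the stacks of the small machine. -/
theorem tstep_size [Fintype K'] (M : Λ' → TM2.Stmt Γ' Λ' σ') (C : ℕ)
    (hC : ∀ l, scost (M l) ≤ C) (h1C : 1 ≤ C) (n : ℕ) (c : TM2.Cfg Γ' Λ' σ') :
    ∑ k, (((tstep M)^[n] c).stk k).length ≤ ∑ k, (c.stk k).length + (C + 1) * n := by
  induction n with
  | zero => simp
  | succ n ih =>
    obtain ⟨t, ht, hr⟩ := stepProg_runs M C hC h1C (fun _ => []) ((tstep M)^[n] c)
    have hs := hr.size_le
    rw [sum_withState, sum_withState] at hs
    rw [Function.iterate_succ_apply', Nat.mul_succ]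
    omega

/-- Clear the stacks of the small machine. -/
noncomputable def clearM (K' : Type) [Fintype K'] {Γ' : K' → Type} {Λ' σ' : Type} :
    Prog (K' ⊕ Own) (Sym Γ' Λ' σ') :=
  seqList (fun k : K' => .loop (Sum.inl k) (fun _ => .skip)) Finset.univ.toList

theorem clearM_runs [Fintype K'] (T : ∀ k, List (Γ' k)) (w : Own → List (Sym Γ' Λ' σ')) :
    Runs (clearM K') (Sta T w) (Sta (fun _ => []) w)
      (2 * ∑ k, (T k).length + 2 * Fintype.card K') := by
  classical
  have h := runs_seqList (fun k : K' => (.loop (Sum.inl k) (fun _ => .skip) :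
    Prog (K' ⊕ Own) (Sym Γ' Λ' σ'))) (fun D => Sta (fun k => if D k then [] else T k) w)
    (fun k => 2 * (T k).length + 2) ?_ Finset.univ.toList (Finset.nodup_toList _)
    (fun _ => False) (fun _ _ h => h)
  · refine (h.congr₂ ?_ ?_).mono ?_
    · simp
    · simp
    · rw [Finset.sum_map_toList, Finset.sum_add_distrib, ← Finset.mul_sum]
      simp [Finset.card_univ, mul_comm]
  · intro D k hD
    refine ((runs_clear1 (Sum.inl k) ((T k).map (gs k)) _ (by simp [hD])).congr ?_).mono
      (by simp)
    have := Sta_update_inl (Λ' := Λ') (σ' := σ') (fun k => if D k then [] else T k) w k []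
    rw [List.map_nil] at this
    rw [this]
    congr 1
    funext i
    by_cases hj : i = k
    · subst hj; simp
    · rw [Function.update_of_ne hj]
      simp [hj]

end

end Pool.Agent.Borwein
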